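import Mathlib

/-!
# Fixed-parameter tractable functions
-/

namespace Pool.Agent.PolyTime

open Turing

/-- `a ↦ f a` is computable in time `g (κ a) * |enc a| ^ c` for some computable `g` and
some constant `c`. -/
def FPTComputable {A : Type} (enc : A → List Bool) (κ : A → ℕ) (f : A → List Bool) : Prop :=
  ∃ (M : TM2ComputableAux Bool Bool) (g : ℕ → ℕ) (c : ℕ), Computable g ∧
    ∀ a, Nonempty (TM2OutputsInTime M.tm ((enc a).map M.inputAlphabet.invFun)
      (some ((f a).map M.outputAlphabet.invFun)) (g (κ a) * (enc a).length ^ c))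

end Pool.Agent.PolyTime
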