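import Mathlib

/-!
# Composition of polynomial-time computable functions (Mathlib's `TM2ComputableInPolyTime`)
-/

namespace Pool.Agent.PolyTime

open Turing Function

namespace TMComp

section Def

variable (A B : FinTM2) (e : A.Γ A.k₁ → B.Γ B.k₀) (d : B.Γ B.k₀)

/-- Stacks of the composed machine. -/
abbrev CK := A.K ⊕ (B.K ⊕ Unit)

/-- Stack alphabets of the composed machine. -/
abbrev CG : CK A B → Type
  | .inl k => A.Γ k
  | .inr (.inl k) => B.Γ k
  | .inr (.inr _) => B.Γ B.k₀

/-- Labels of the composed machine. -/
abbrev CL := A.Λ ⊕ (B.Λ ⊕ Bool)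

/-- Internal states of the composed machine. -/
abbrev CS := A.σ × B.σ × Option (B.Γ B.k₀)

/-- Statements of the composed machine. -/
abbrev CStmt := TM2.Stmt (CG A B) (CL A B) (CS A B)

/-- Translation of the statements of the first machine. -/
def mapA : TM2.Stmt A.Γ A.Λ A.σ → CStmt A B
  | .push k f q => .push (Sum.inl k) (fun s => f s.1) (mapA q)
  | .peek k f q => .peek (Sum.inl k) (fun s o => (f s.1 o, s.2)) (mapA q)
  | .pop k f q => .pop (Sum.inl k) (fun s o => (f s.1 o, s.2)) (mapA q)
  | .load f q => .load (fun s => (f s.1, s.2)) (mapA q)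
  | .branch f q₁ q₂ => .branch (fun s => f s.1) (mapA q₁) (mapA q₂)
  | .goto f => .goto (fun s => Sum.inl (f s.1))
  | .halt => .goto (fun _ => Sum.inr (Sum.inr false))

/-- Translation of the statements of the second machine. -/
def mapB : TM2.Stmt B.Γ B.Λ B.σ → CStmt A B
  | .push k f q => .push (Sum.inr (Sum.inl k)) (fun s => f s.2.1) (mapB q)
  | .peek k f q => .peek (Sum.inr (Sum.inl k)) (fun s o => (s.1, f s.2.1 o, s.2.2)) (mapB q)
  | .pop k f q => .pop (Sum.inr (Sum.inl k)) (fun s o => (s.1, f s.2.1 o, s.2.2)) (mapB q)
  | .load f q => .load (fun s => (s.1, f s.2.1, s.2.2)) (mapB q)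
  | .branch f q₁ q₂ => .branch (fun s => f s.2.1) (mapB q₁) (mapB q₂)
  | .goto f => .goto (fun s => Sum.inr (Sum.inl (f s.2.1)))
  | .halt => .halt

/-- The program of the composed machine. -/
def prog : CL A B → CStmt A B
  | .inl l => mapA A B (A.m l)
  | .inr (.inl l) => mapB A B (B.m l)
  | .inr (.inr false) =>
      .pop (Sum.inl A.k₁) (fun s o => (s.1, s.2.1, o.map e))
        (.branch (fun s => s.2.2.isSome)
          (.push (Sum.inr (Sum.inr ())) (fun s => s.2.2.getD d)
            (.goto (fun _ => Sum.inr (Sum.inr false))))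
          (.goto (fun _ => Sum.inr (Sum.inr true))))
  | .inr (.inr true) =>
      .pop (Sum.inr (Sum.inr ())) (fun s o => (s.1, s.2.1, o))
        (.branch (fun s => s.2.2.isSome)
          (.push (Sum.inr (Sum.inl B.k₀)) (fun s => s.2.2.getD d)
            (.goto (fun _ => Sum.inr (Sum.inr true))))
          (.goto (fun _ => Sum.inr (Sum.inl B.main))))

/-- The composed machine. -/
def comp : FinTM2 where
  K := CK A B
  kDecidableEq := inferInstance
  kFin := by
    have := A.kFin
    have := B.kFin
    infer_instance
  k₀ := Sum.inl A.k₀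
  k₁ := Sum.inr (Sum.inl B.k₁)
  Γ := CG A B
  Λ := CL A B
  main := Sum.inl A.main
  ΛFin := by
    have := A.ΛFin
    have := B.ΛFin
    infer_instance
  σ := CS A B
  initialState := (A.initialState, B.initialState, none)
  σFin := by
    have := A.σFin
    have := B.σFin
    have := B.Γk₀Fin
    infer_instance
  Γk₀Fin := A.Γk₀Fin
  m := prog A B e d

end Def

/-! ### Iterated steps -/

/-- `n` steps lead from `a` to `b`. -/
def Stp {σ : Type*} (f : σ → Option σ) (n : ℕ) (a b : σ) : Prop :=
  (flip bind f)^[n] (some a) = some b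

theorem Stp.zero {σ : Type*} (f : σ → Option σ) (a : σ) : Stp f 0 a a := rfl

theorem iter_none {σ : Type*} (f : σ → Option σ) (n : ℕ) : (flip bind f)^[n] none = none := by
  induction n with
  | zero => rfl
  | succ n ih => rw [Function.iterate_succ_apply]; exact ih

theorem stp_succ {σ : Type*} {f : σ → Option σ} {n : ℕ} {a b : σ} :
    Stp f (n + 1) a b ↔ ∃ c, f a = some c ∧ Stp f n c b := by
  unfold Stp
  rw [Function.iterate_succ_apply]
  change (flip bind f)^[n] (f a) = some b ↔ _
  constructor
  · intro h
    rcases hc : f a with _ | c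
    · rw [hc, iter_none] at h; cases h
    · rw [hc] at h; exact ⟨c, rfl, h⟩
  · rintro ⟨c, h1, h2⟩
    rw [h1]; exact h2

theorem Stp.trans {σ : Type*} {f : σ → Option σ} {n m : ℕ} {a b c : σ} (h : Stp f n a b)
    (h' : Stp f m b c) : Stp f (n + m) a c := by
  unfold Stp at *
  rw [Nat.add_comm, Function.iterate_add_apply, h, h']

theorem Stp.one {σ : Type*} {f : σ → Option σ} {a b : σ} (h : f a = some b) : Stp f 1 a b :=
  stp_succ.mpr ⟨b, h, Stp.zero f b⟩

section Sem

variable {A B : FinTM2} {e : A.Γ A.k₁ → B.Γ B.k₀} {d : B.Γ B.k₀}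

/-- Joint stack contents. -/
def join (S : ∀ k, List (A.Γ k)) (T : ∀ k, List (B.Γ k)) (U : List (B.Γ B.k₀)) :
    ∀ k, List (CG A B k)
  | .inl k => S k
  | .inr (.inl k) => T k
  | .inr (.inr _) => U

theorem update_join_inl (S : ∀ k, List (A.Γ k)) (T : ∀ k, List (B.Γ k)) (U : List (B.Γ B.k₀))
    (k : A.K) (v : List (A.Γ k)) :
    update (join S T U) (Sum.inl k : CK A B) v = join (update S k v) T U := by
  funext j
  rcases j with j | j | j
  · by_cases h : j = k
    · subst h; simp [join]
    · rw [update_of_ne (by simpa using h)]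
      simp [join, update_of_ne h]
  · rw [update_of_ne (by simp)]; rfl
  · rw [update_of_ne (by simp)]; rfl

theorem update_join_inr (S : ∀ k, List (A.Γ k)) (T : ∀ k, List (B.Γ k)) (U : List (B.Γ B.k₀))
    (k : B.K) (v : List (B.Γ k)) :
    update (join S T U) (Sum.inr (Sum.inl k) : CK A B) v = join S (update T k v) U := by
  funext j
  rcases j with j | j | j
  · rw [update_of_ne (by simp)]; rfl
  · by_cases h : j = k
    · subst h; simp [join]
    · rw [update_of_ne (by simpa using h)]
      simp [join, update_of_ne h]
  · rw [update_of_ne (by simp)]; rfl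

theorem update_join_tmp (S : ∀ k, List (A.Γ k)) (T : ∀ k, List (B.Γ k)) (U : List (B.Γ B.k₀))
    (v : List (B.Γ B.k₀)) :
    update (join S T U) (Sum.inr (Sum.inr ()) : CK A B) v = join S T v := by
  funext j
  rcases j with j | j | j
  · rw [update_of_ne (by simp)]; rfl
  · rw [update_of_ne (by simp)]; rfl
  · cases j; simp [join]

/-- Embedding of the configurations of the first machine. -/
def embA (w : B.σ × Option (B.Γ B.k₀)) (T : ∀ k, List (B.Γ k)) (U : List (B.Γ B.k₀))
    (c : TM2.Cfg A.Γ A.Λ A.σ) : TM2.Cfg (CG A B) (CL A B) (CS A B) :=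
  ⟨some (c.l.elim (Sum.inr (Sum.inr false)) Sum.inl), (c.var, w), join c.stk T U⟩

/-- Embedding of the configurations of the second machine. -/
def embB (v : A.σ) (o : Option (B.Γ B.k₀)) (S : ∀ k, List (A.Γ k)) (U : List (B.Γ B.k₀))
    (c : TM2.Cfg B.Γ B.Λ B.σ) : TM2.Cfg (CG A B) (CL A B) (CS A B) :=
  ⟨c.l.map (fun l => Sum.inr (Sum.inl l)), (v, c.var, o), join S c.stk U⟩

theorem stepAux_mapA (w : B.σ × Option (B.Γ B.k₀)) (T : ∀ k, List (B.Γ k))
    (U : List (B.Γ B.k₀)) (q : TM2.Stmt A.Γ A.Λ A.σ) : ∀ (v : A.σ) (S : ∀ k, List (A.Γ k)),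
    TM2.stepAux (mapA A B q) (v, w) (join S T U) = embA w T U (TM2.stepAux q v S) := by
  induction q with
  | push k f q ih =>
    intro v S
    simp only [mapA, TM2.stepAux]
    rw [update_join_inl]
    exact ih _ _
  | peek k f q ih =>
    intro v S
    simp only [mapA, TM2.stepAux]
    exact ih _ _
  | pop k f q ih =>
    intro v S
    simp only [mapA, TM2.stepAux]
    rw [update_join_inl]
    exact ih _ _
  | load f q ih =>
    intro v S
    simp only [mapA, TM2.stepAux]
    exact ih _ _
  | branch f q₁ q₂ ih₁ ih₂ =>
    intro v S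
    simp only [mapA, TM2.stepAux]
    cases f v
    · exact ih₂ _ _
    · exact ih₁ _ _
  | goto f => intro v S; rfl
  | halt => intro v S; rfl

theorem stepAux_mapB (v0 : A.σ) (o : Option (B.Γ B.k₀)) (S : ∀ k, List (A.Γ k))
    (U : List (B.Γ B.k₀)) (q : TM2.Stmt B.Γ B.Λ B.σ) : ∀ (v : B.σ) (T : ∀ k, List (B.Γ k)),
    TM2.stepAux (mapB A B q) (v0, v, o) (join S T U) = embB v0 o S U (TM2.stepAux q v T) := by
  induction q with
  | push k f q ih =>
    intro v T
    simp only [mapB, TM2.stepAux]
    rw [update_join_inr]
    exact ih _ _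
  | peek k f q ih =>
    intro v T
    simp only [mapB, TM2.stepAux]
    exact ih _ _
  | pop k f q ih =>
    intro v T
    simp only [mapB, TM2.stepAux]
    rw [update_join_inr]
    exact ih _ _
  | load f q ih =>
    intro v T
    simp only [mapB, TM2.stepAux]
    exact ih _ _
  | branch f q₁ q₂ ih₁ ih₂ =>
    intro v T
    simp only [mapB, TM2.stepAux]
    cases f v
    · exact ih₂ _ _
    · exact ih₁ _ _
  | goto f => intro v T; rfl
  | halt => intro v T; rfl

/-- The step function of the composed machine. -/
abbrev cstep (A B : FinTM2) (e : A.Γ A.k₁ → B.Γ B.k₀) (d : B.Γ B.k₀) :=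
  TM2.step (prog A B e d)

theorem stepsA (w : B.σ × Option (B.Γ B.k₀)) (T : ∀ k, List (B.Γ k)) (U : List (B.Γ B.k₀)) :
    ∀ (n : ℕ) (c c' : TM2.Cfg A.Γ A.Λ A.σ), Stp (TM2.step A.m) n c c' →
      Stp (cstep A B e d) n (embA w T U c) (embA w T U c') := by
  intro n
  induction n with
  | zero =>
    intro c c' h
    have : c = c' := by simpa [Stp] using h
    subst this
    exact Stp.zero _ _
  | succ n ih =>
    intro c c' h
    obtain ⟨c1, h1, h2⟩ := stp_succ.mp h
    refine stp_succ.mpr ⟨embA w T U c1, ?_, ih c1 c' h2⟩
    rcases c with ⟨l, v, S⟩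
    cases l with
    | none => simp [TM2.step] at h1
    | some l =>
      simp only [TM2.step, Option.some.injEq] at h1
      subst h1
      simp only [embA, TM2.step, Option.elim]
      congr 1
      exact stepAux_mapA w T U (A.m l) v S

theorem stepsB (v0 : A.σ) (o : Option (B.Γ B.k₀)) (S : ∀ k, List (A.Γ k))
    (U : List (B.Γ B.k₀)) :
    ∀ (n : ℕ) (c c' : TM2.Cfg B.Γ B.Λ B.σ), Stp (TM2.step B.m) n c c' →
      Stp (cstep A B e d) n (embB v0 o S U c) (embB v0 o S U c') := by
  intro n
  induction n with
  | zero =>
    intro c c' h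
    have : c = c' := by simpa [Stp] using h
    subst this
    exact Stp.zero _ _
  | succ n ih =>
    intro c c' h
    obtain ⟨c1, h1, h2⟩ := stp_succ.mp h
    refine stp_succ.mpr ⟨embB v0 o S U c1, ?_, ih c1 c' h2⟩
    rcases c with ⟨l, v, T⟩
    cases l with
    | none => simp [TM2.step] at h1
    | some l =>
      simp only [TM2.step, Option.some.injEq] at h1
      subst h1
      simp only [embB, TM2.step, Option.map]
      congr 1
      exact stepAux_mapB v0 o S U (B.m l) v T

/-- First transfer loop. -/
theorem transfer1 (v : A.σ) (w : B.σ) (T : ∀ k, List (B.Γ k)) :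
    ∀ (l : List (A.Γ A.k₁)) (S : ∀ k, List (A.Γ k)) (U : List (B.Γ B.k₀))
      (o : Option (B.Γ B.k₀)), S A.k₁ = l →
      Stp (cstep A B e d) (l.length + 1)
        ⟨some (Sum.inr (Sum.inr false)), (v, w, o), join S T U⟩
        ⟨some (Sum.inr (Sum.inr true)), (v, w, none),
          join (update S A.k₁ []) T ((l.map e).reverse ++ U)⟩
  | [], S, U, o, h => by
    apply Stp.one
    simp only [cstep, TM2.step, prog, TM2.stepAux]
    have h1 : (join S T U : ∀ k, List (CG A B k)) (Sum.inl A.k₁) = [] := h
    rw [h1]
    simp only [List.head?_nil, Option.map_none, Option.isSome_none, cond_false, List.tail_nil,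
      List.map_nil, List.reverse_nil, List.nil_append]
    congr 2
    exact update_join_inl S T U A.k₁ []
  | a :: l, S, U, o, h => by
    have h1 : (join S T U : ∀ k, List (CG A B k)) (Sum.inl A.k₁) = a :: l := h
    have e1 : cstep A B e d ⟨some (Sum.inr (Sum.inr false)), (v, w, o), join S T U⟩ =
        some ⟨some (Sum.inr (Sum.inr false)), (v, w, some (e a)),
          join (update S A.k₁ l) T (e a :: U)⟩ := by
      simp only [cstep, TM2.step, prog, TM2.stepAux]
      rw [h1]
      simp only [List.head?_cons, Option.map_some, Option.isSome_some, cond_true, List.tail_cons,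
        Option.getD_some]
      have h2 : update (join S T U : ∀ k, List (CG A B k)) (Sum.inl A.k₁) l =
        join (update S A.k₁ l) T U := update_join_inl S T U A.k₁ l
      rw [h2]
      congr 2
      exact update_join_tmp (update S A.k₁ l) T U (e a :: U)
    have e2 := transfer1 v w T l (update S A.k₁ l) (e a :: U) (some (e a)) (by
      rw [update_self])
    have e3 := stp_succ.mpr ⟨_, e1, e2⟩
    rw [update_idem] at e3
    simpa using e3

/-- Second transfer loop. -/
theorem transfer2 (v : A.σ) (w : B.σ) (S : ∀ k, List (A.Γ k)) :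
    ∀ (l : List (B.Γ B.k₀)) (T : ∀ k, List (B.Γ k)) (o : Option (B.Γ B.k₀)),
      Stp (cstep A B e d) (l.length + 1)
        ⟨some (Sum.inr (Sum.inr true)), (v, w, o), join S T l⟩
        ⟨some (Sum.inr (Sum.inl B.main)), (v, w, none),
          join S (update T B.k₀ (l.reverse ++ T B.k₀)) []⟩
  | [], T, o => by
    apply Stp.one
    simp only [cstep, TM2.step, prog, TM2.stepAux]
    have h1 : (join S T [] : ∀ k, List (CG A B k)) (Sum.inr (Sum.inr ())) = [] := rfl
    rw [h1]
    simp only [List.head?_nil, Option.isSome_none, cond_false, List.tail_nil,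
      List.reverse_nil, List.nil_append]
    congr 2
    rw [update_eq_self]
    exact update_join_tmp S T [] []
  | a :: l, T, o => by
    have h1 : (join S T (a :: l) : ∀ k, List (CG A B k)) (Sum.inr (Sum.inr ())) = a :: l := rfl
    have e1 : cstep A B e d ⟨some (Sum.inr (Sum.inr true)), (v, w, o), join S T (a :: l)⟩ =
        some ⟨some (Sum.inr (Sum.inr true)), (v, w, some a),
          join S (update T B.k₀ (a :: T B.k₀)) l⟩ := by
      simp only [cstep, TM2.step, prog, TM2.stepAux]
      rw [h1]
      simp only [List.head?_cons, Option.isSome_some, cond_true, List.tail_cons,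
        Option.getD_some]
      have h2 : update (join S T (a :: l) : ∀ k, List (CG A B k)) (Sum.inr (Sum.inr ())) l =
        join S T l := update_join_tmp S T (a :: l) l
      rw [h2]
      congr 2
      exact update_join_inr S T l B.k₀ (a :: T B.k₀)
    have e2 := transfer2 v w S l (update T B.k₀ (a :: T B.k₀)) (some a)
    have e3 := stp_succ.mpr ⟨_, e1, e2⟩
    rw [update_idem, update_self] at e3
    simpa using e3

end Sem

/-! ### Bound for the length of the stacks -/

/-- Maximal number of pushes of a statement. -/
def np {K : Type} {Γ : K → Type} {Λ σ : Type} : TM2.Stmt Γ Λ σ → ℕ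
  | .push _ _ q => np q + 1
  | .peek _ _ q => np q
  | .pop _ _ q => np q
  | .load _ q => np q
  | .branch _ q₁ q₂ => max (np q₁) (np q₂)
  | .goto _ => 0
  | .halt => 0

theorem stepAux_len {K : Type} [DecidableEq K] {Γ : K → Type} {Λ σ : Type}
    (q : TM2.Stmt Γ Λ σ) (j : K) : ∀ (v : σ) (S : ∀ k, List (Γ k)),
    ((TM2.stepAux q v S).stk j).length ≤ (S j).length + np q := by
  induction q with
  | push k f q ih =>
    intro v S
    simp only [TM2.stepAux, np]
    refine (ih _ _).trans ?_
    by_cases h : j = k
    · subst h; rw [update_self]; simp only [List.length_cons]; omega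
    · rw [update_of_ne h]; omega
  | peek k f q ih => intro v S; exact ih _ _
  | pop k f q ih =>
    intro v S
    simp only [TM2.stepAux, np]
    refine (ih _ _).trans ?_
    by_cases h : j = k
    · subst h; rw [update_self]; simp only [List.length_tail]; omega
    · rw [update_of_ne h]
  | load f q ih => intro v S; exact ih _ _
  | branch f q₁ q₂ ih₁ ih₂ =>
    intro v S
    simp only [TM2.stepAux, np]
    have h1 := ih₁ v S
    have h2 := ih₂ v S
    cases f v
    · simp only [cond_false]; omega
    · simp only [cond_true]; omega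
  | goto f => intro v S; exact Nat.le_add_right _ _
  | halt => intro v S; exact Nat.le_add_right _ _

/-- Bound for the number of pushes in one step. -/
def npMax (A : FinTM2) : ℕ :=
  (@Finset.univ A.Λ A.ΛFin).sup (fun l => np (A.m l))

theorem stp_len (A : FinTM2) (j : A.K) : ∀ (n : ℕ) (c c' : TM2.Cfg A.Γ A.Λ A.σ),
    Stp (TM2.step A.m) n c c' → (c'.stk j).length ≤ (c.stk j).length + n * npMax A := by
  intro n
  induction n with
  | zero =>
    intro c c' h
    have : c = c' := by simpa [Stp] using h
    subst this
    omega
  | succ n ih =>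
    intro c c' h
    obtain ⟨c1, h1, h2⟩ := stp_succ.mp h
    have h3 := ih c1 c' h2
    rcases c with ⟨l, v, S⟩
    cases l with
    | none => simp [TM2.step] at h1
    | some l =>
      simp only [TM2.step, Option.some.injEq] at h1
      subst h1
      have h4 := stepAux_len (A.m l) j v S
      have h5 : np (A.m l) ≤ npMax A :=
        Finset.le_sup (f := fun l => np (A.m l)) (@Finset.mem_univ A.Λ A.ΛFin l)
      refine h3.trans ?_
      rw [Nat.add_mul, Nat.one_mul]
      change _ ≤ (S j).length + _
      omega

theorem eval_mono (p : Polynomial ℕ) {a b : ℕ} (h : a ≤ b) : p.eval a ≤ p.eval b := by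
  induction p using Polynomial.induction_on' with
  | add p q hp hq => simp only [Polynomial.eval_add]; omega
  | monomial n c =>
    simp only [Polynomial.eval_monomial]
    exact Nat.mul_le_mul_left _ (Nat.pow_le_pow_left h n)

end TMComp

open TMComp

theorem initList_eq' (tm : FinTM2) (s : List (tm.Γ tm.k₀)) :
    initList tm s = ⟨some tm.main, tm.initialState, update (fun _ => []) tm.k₀ s⟩ := by
  unfold initList
  congr 1
  funext k
  by_cases hk : k = tm.k₀
  · subst hk
    simp
  · rw [dif_neg hk, update_of_ne hk]

theorem haltList_eq' (tm : FinTM2) (s : List (tm.Γ tm.k₁)) :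
    haltList tm s = ⟨none, tm.initialState, update (fun _ => []) tm.k₁ s⟩ := by
  unfold haltList
  congr 1
  funext k
  by_cases hk : k = tm.k₁
  · subst hk
    simp
  · rw [dif_neg hk, update_of_ne hk]

/-- Compositions of functions on bit strings computable in polynomial time are computable in
polynomial time. -/
theorem polyTime_comp {f g : List Bool → List Bool}
    (hf : Nonempty (TM2ComputableInPolyTime (id : List Bool → List Bool)
      (id : List Bool → List Bool) f))
    (hg : Nonempty (TM2ComputableInPolyTime (id : List Bool → List Bool)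
      (id : List Bool → List Bool) g)) :
    Nonempty (TM2ComputableInPolyTime (id : List Bool → List Bool)
      (id : List Bool → List Bool) (fun x => g (f x))) := by
  obtain ⟨F⟩ := hf
  obtain ⟨G⟩ := hg
  set A := F.tm with hA
  set B := G.tm with hB
  let e : A.Γ A.k₁ → B.Γ B.k₀ := fun a => G.inputAlphabet.symm (F.outputAlphabet a)
  let d : B.Γ B.k₀ := G.inputAlphabet.symm false
  let c := npMax A
  refine ⟨{ tm := comp A B e d, inputAlphabet := F.inputAlphabet,
            outputAlphabet := G.outputAlphabet,
            time := F.time + (2 * (Polynomial.X + Polynomial.C c * F.time + 1) +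
              G.time.comp (Polynomial.X + Polynomial.C c * F.time)),
            outputsFun := fun x => ?_ }⟩
  have hF := F.outputsFun x
  have hG := G.outputsFun (f x)
  obtain ⟨⟨n, hn⟩, hnt⟩ := hF
  obtain ⟨⟨m, hm⟩, hmt⟩ := hG
  simp only [id_eq, Option.map_some] at hn hm hnt hmt
  have sA : Stp (TM2.step A.m) n (initList A (List.map F.inputAlphabet.invFun x))
      (haltList A (List.map F.outputAlphabet.invFun (f x))) := hn
  have sB : Stp (TM2.step B.m) m (initList B (List.map G.inputAlphabet.invFun (f x)))
      (haltList B (List.map G.outputAlphabet.invFun (g (f x)))) := hm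
  -- length of the intermediate result
  have hlen : (f x).length ≤ x.length + n * c := by
    have := stp_len A A.k₁ n _ _ sA
    rw [haltList_eq', initList_eq'] at this
    simp only [update_self, List.length_map] at this
    refine this.trans ?_
    have : (update (fun k => ([] : List (A.Γ k))) A.k₀
        (List.map F.inputAlphabet.invFun x) A.k₁).length ≤ x.length := by
      by_cases h : A.k₁ = A.k₀
      · rw [h, update_self, List.length_map]
      · rw [update_of_ne h]; simp
    exact Nat.add_le_add_right this _
  have t1 := stepsA (e := e) (d := d) (B.initialState, none) (fun _ => []) [] n _ _ sA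
  have t2 := transfer1 (e := e) (d := d) A.initialState B.initialState (fun _ => [])
    (List.map F.outputAlphabet.invFun (f x))
    (update (fun _ => []) A.k₁ (List.map F.outputAlphabet.invFun (f x))) [] none
    (update_self _ _ _)
  have t3 := transfer2 (e := e) (d := d) A.initialState B.initialState
    (update (update (fun k => ([] : List (A.Γ k))) A.k₁
      (List.map F.outputAlphabet.invFun (f x))) A.k₁ [])
    ((List.map e (List.map F.outputAlphabet.invFun (f x))).reverse ++ []) (fun _ => []) none
  have t4 := stepsB (e := e) (d := d) A.initialState none (fun _ => []) [] m _ _ sB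
  have hfin : ((List.map e (List.map F.outputAlphabet.invFun (f x))).reverse ++
      ([] : List (B.Γ B.k₀))).reverse ++ [] = List.map G.inputAlphabet.invFun (f x) := by
    rw [List.append_nil, List.append_nil, List.reverse_reverse, List.map_map]
    apply List.map_congr_left
    intro b _
    show G.inputAlphabet.symm (F.outputAlphabet (F.outputAlphabet.symm b)) =
      G.inputAlphabet.symm b
    rw [F.outputAlphabet.apply_symm_apply b]
  have hstk : update (update (fun k => ([] : List (A.Γ k))) A.k₁
      (List.map F.outputAlphabet.invFun (f x))) A.k₁ [] = fun _ => [] := by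
    rw [update_idem]
    exact update_eq_self A.k₁ (fun k => ([] : List (A.Γ k)))
  have i1 : embA (B := B) (B.initialState, none) (fun _ => []) []
      (initList A (List.map F.inputAlphabet.invFun x)) =
      initList (comp A B e d) (List.map F.inputAlphabet.invFun x) := by
    rw [initList_eq', initList_eq']
    unfold embA
    simp only [Option.elim]
    congr 1
    rw [← update_join_inl]
    congr 1
    funext j
    rcases j with j | j | j <;> rfl
  have i4 : embB A.initialState none (fun k => ([] : List (A.Γ k))) []
      (haltList B (List.map G.outputAlphabet.invFun (g (f x)))) =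
      haltList (comp A B e d) (List.map G.outputAlphabet.invFun (g (f x))) := by
    rw [haltList_eq', haltList_eq']
    unfold embB
    simp only [Option.map_none]
    congr 1
    rw [← update_join_inr]
    congr 1
    funext j
    rcases j with j | j | j <;> rfl
  rw [i1] at t1
  rw [i4] at t4
  have s1 : embA (B := B) (B.initialState, none) (fun _ => []) []
      (haltList A (List.map F.outputAlphabet.invFun (f x))) =
      ⟨some (Sum.inr (Sum.inr false)), (A.initialState, B.initialState, none),
        join (update (fun _ => []) A.k₁ (List.map F.outputAlphabet.invFun (f x)))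
          (fun _ => []) []⟩ := by
    rw [haltList_eq']
    rfl
  have s4 : embB A.initialState none (fun k => ([] : List (A.Γ k))) []
      (initList B (List.map G.inputAlphabet.invFun (f x))) =
      ⟨some (Sum.inr (Sum.inl B.main)), (A.initialState, B.initialState, none),
        join (fun _ => []) (update (fun _ => []) B.k₀
          (List.map G.inputAlphabet.invFun (f x))) []⟩ := by
    rw [initList_eq']
    rfl
  rw [s1] at t1
  rw [s4] at t4
  rw [hstk, hfin] at t3
  rw [hstk] at t2
  have total := t1.trans (t2.trans (t3.trans t4))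
  refine ⟨⟨_, total⟩, ?_⟩
  simp only [List.length_map, List.length_append, List.length_reverse, List.length_nil, id_eq,
    Polynomial.eval_add, Polynomial.eval_mul, Polynomial.eval_one, Polynomial.eval_X,
    Polynomial.eval_C, Polynomial.eval_comp, Polynomial.eval_ofNat]
  have h1 : (f x).length ≤ x.length + c * Polynomial.eval x.length F.time := by
    refine hlen.trans ?_
    have : n * c ≤ c * Polynomial.eval x.length F.time := by
      rw [Nat.mul_comm]; exact Nat.mul_le_mul_left _ hnt
    omega
  have h2 := eval_mono G.time h1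
  omega


end Pool.Agent.PolyTime
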