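import Mathlib
import Pool.Agent.Lib.PolyTime.TMComp
import Pool.Agent.Lib.PolyTime.FPTDef

/-!
# Fixed-parameter tractability

`FPTComputable enc κ f`: the map `a ↦ f a` is computed by a Turing machine (Mathlib's `FinTM2`)
which, on the code `enc a`, needs at most `g (κ a) * |enc a| ^ c` steps, for a computable `g`
and a constant `c`. The theorem `FPTComputable.transfer` composes such a machine with
polynomial-time machines before and after.
-/

namespace Pool.Agent.PolyTime

open Turing Function TMComp

/-- `M` outputs `y` on input `x` within `t` steps. -/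
def OutIn (M : TM2ComputableAux Bool Bool) (x y : List Bool) (t : ℕ) : Prop :=
  Nonempty (TM2OutputsInTime M.tm (x.map M.inputAlphabet.invFun)
    (some (y.map M.outputAlphabet.invFun)) t)

theorem OutIn.mono {M : TM2ComputableAux Bool Bool} {x y : List Bool} {t u : ℕ}
    (h : OutIn M x y t) (htu : t ≤ u) : OutIn M x y u := by
  obtain ⟨⟨h1, h2⟩⟩ := h
  exact ⟨⟨h1, h2.trans htu⟩⟩

theorem OutIn.len {M : TM2ComputableAux Bool Bool} {x y : List Bool} {t : ℕ}
    (h : OutIn M x y t) : y.length ≤ x.length + npMax M.tm * t := by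
  obtain ⟨⟨⟨n, hn⟩, hnt⟩⟩ := h
  simp only [Option.map_some] at hn hnt
  have sA : Stp (TM2.step M.tm.m) n (initList M.tm (List.map M.inputAlphabet.invFun x))
      (haltList M.tm (List.map M.outputAlphabet.invFun y)) := hn
  have h1 := stp_len M.tm M.tm.k₁ n _ _ sA
  rw [haltList_eq', initList_eq'] at h1
  simp only [update_self, List.length_map] at h1
  have h2 : (update (fun k => ([] : List (M.tm.Γ k))) M.tm.k₀
      (List.map M.inputAlphabet.invFun x) M.tm.k₁).length ≤ x.length := by
    by_cases h : M.tm.k₁ = M.tm.k₀
    · rw [h, update_self, List.length_map]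
    · rw [update_of_ne h]; simp
  have h3 : n * npMax M.tm ≤ npMax M.tm * t := by
    rw [Nat.mul_comm]; exact Nat.mul_le_mul_left _ hnt
  omega

/-- The composed machine. -/
def compAux (M N : TM2ComputableAux Bool Bool) : TM2ComputableAux Bool Bool where
  tm := comp M.tm N.tm (fun a => N.inputAlphabet.symm (M.outputAlphabet a))
    (N.inputAlphabet.symm false)
  inputAlphabet := M.inputAlphabet
  outputAlphabet := N.outputAlphabet

theorem OutIn.comp {M N : TM2ComputableAux Bool Bool} {x y z : List Bool} {t u : ℕ}
    (hM : OutIn M x y t) (hN : OutIn N y z u) :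
    OutIn (compAux M N) x z (t + 2 * (y.length + 1) + u) := by
  obtain ⟨⟨⟨n, hn⟩, hnt⟩⟩ := hM
  obtain ⟨⟨⟨m, hm⟩, hmt⟩⟩ := hN
  simp only [Option.map_some] at hn hm hnt hmt
  set A := M.tm with hA
  set B := N.tm with hB
  let e : A.Γ A.k₁ → B.Γ B.k₀ := fun a => N.inputAlphabet.symm (M.outputAlphabet a)
  let d : B.Γ B.k₀ := N.inputAlphabet.symm false
  have sA : Stp (TM2.step A.m) n (initList A (List.map M.inputAlphabet.invFun x))
      (haltList A (List.map M.outputAlphabet.invFun y)) := hn
  have sB : Stp (TM2.step B.m) m (initList B (List.map N.inputAlphabet.invFun y))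
      (haltList B (List.map N.outputAlphabet.invFun z)) := hm
  have t1 := stepsA (e := e) (d := d) (B.initialState, none) (fun _ => []) [] n _ _ sA
  have t2 := transfer1 (e := e) (d := d) A.initialState B.initialState (fun _ => [])
    (List.map M.outputAlphabet.invFun y)
    (update (fun _ => []) A.k₁ (List.map M.outputAlphabet.invFun y)) [] none
    (update_self _ _ _)
  have t3 := transfer2 (e := e) (d := d) A.initialState B.initialState
    (update (update (fun k => ([] : List (A.Γ k))) A.k₁
      (List.map M.outputAlphabet.invFun y)) A.k₁ [])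
    ((List.map e (List.map M.outputAlphabet.invFun y)).reverse ++ []) (fun _ => []) none
  have t4 := stepsB (e := e) (d := d) A.initialState none (fun _ => []) [] m _ _ sB
  have hfin : ((List.map e (List.map M.outputAlphabet.invFun y)).reverse ++
      ([] : List (B.Γ B.k₀))).reverse ++ [] = List.map N.inputAlphabet.invFun y := by
    rw [List.append_nil, List.append_nil, List.reverse_reverse, List.map_map]
    apply List.map_congr_left
    intro b _
    show N.inputAlphabet.symm (M.outputAlphabet (M.outputAlphabet.symm b)) =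
      N.inputAlphabet.symm b
    rw [M.outputAlphabet.apply_symm_apply b]
  have hstk : update (update (fun k => ([] : List (A.Γ k))) A.k₁
      (List.map M.outputAlphabet.invFun y)) A.k₁ [] = fun _ => [] := by
    rw [update_idem]
    exact update_eq_self A.k₁ (fun k => ([] : List (A.Γ k)))
  have i1 : embA (B := B) (B.initialState, none) (fun _ => []) []
      (initList A (List.map M.inputAlphabet.invFun x)) =
      initList (TMComp.comp A B e d) (List.map M.inputAlphabet.invFun x) := by
    rw [initList_eq', initList_eq']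
    unfold embA
    simp only [Option.elim]
    congr 1
    rw [← update_join_inl]
    congr 1
    funext j
    rcases j with j | j | j <;> rfl
  have i4 : embB A.initialState none (fun k => ([] : List (A.Γ k))) []
      (haltList B (List.map N.outputAlphabet.invFun z)) =
      haltList (TMComp.comp A B e d) (List.map N.outputAlphabet.invFun z) := by
    rw [haltList_eq', haltList_eq']
    unfold embB
    simp only [Option.map_none]
    congr 1
    rw [← update_join_inr]
    congr 1
    funext j
    rcases j with j | j | j <;> rfl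
  rw [i1] at t1
  rw [i4] at t4
  have s1 : embA (B := B) (B.initialState, none) (fun _ => []) []
      (haltList A (List.map M.outputAlphabet.invFun y)) =
      ⟨some (Sum.inr (Sum.inr false)), (A.initialState, B.initialState, none),
        join (update (fun _ => []) A.k₁ (List.map M.outputAlphabet.invFun y))
          (fun _ => []) []⟩ := by
    rw [haltList_eq']
    rfl
  have s4 : embB A.initialState none (fun k => ([] : List (A.Γ k))) []
      (initList B (List.map N.inputAlphabet.invFun y)) =
      ⟨some (Sum.inr (Sum.inl B.main)), (A.initialState, B.initialState, none),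
        join (fun _ => []) (update (fun _ => []) B.k₀
          (List.map N.inputAlphabet.invFun y)) []⟩ := by
    rw [initList_eq']
    rfl
  rw [s1] at t1
  rw [s4] at t4
  rw [hstk, hfin] at t3
  rw [hstk] at t2
  have total := t1.trans (t2.trans (t3.trans t4))
  refine ⟨⟨⟨_, total⟩, ?_⟩⟩
  simp only [List.length_map, List.length_append, List.length_reverse, List.length_nil]
  omega

/-! ### Bounds of the form `g (κ a) * |a| ^ c` -/

section FB

variable {A : Type} {enc : A → List Bool} {κ : A → ℕ}

/-- Functions bounded by `g (κ a) * |a| ^ c`. -/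
def FB (enc : A → List Bool) (κ : A → ℕ) (T : A → ℕ) : Prop :=
  ∃ (g : ℕ → ℕ) (c : ℕ), Computable g ∧ ∀ a, T a ≤ g (κ a) * (enc a).length ^ c

theorem FB.mono {T U : A → ℕ} (hU : FB enc κ U) (h : ∀ a, T a ≤ U a) : FB enc κ T := by
  obtain ⟨g, c, hg, h1⟩ := hU
  exact ⟨g, c, hg, fun a => (h a).trans (h1 a)⟩

theorem FB.param {g : ℕ → ℕ} (hg : Computable g) : FB enc κ (fun a => g (κ a)) :=
  ⟨g, 0, hg, fun a => by simp⟩

theorem FB.const (C : ℕ) : FB enc κ (fun _ => C) :=
  ⟨fun _ => C, 0, Computable.const C, fun a => by simp⟩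

theorem FB.length : FB enc κ (fun a => (enc a).length) :=
  ⟨fun _ => 1, 1, Computable.const 1, fun a => by simp⟩

variable (hne : ∀ a, enc a ≠ [])

theorem FB.mul {T U : A → ℕ} (hT : FB enc κ T) (hU : FB enc κ U) :
    FB enc κ (fun a => T a * U a) := by
  obtain ⟨g, c, hg, h1⟩ := hT
  obtain ⟨g', c', hg', h2⟩ := hU
  refine ⟨fun p => g p * g' p, c + c', Primrec.nat_mul.to_comp.comp hg hg', fun a => ?_⟩
  refine (Nat.mul_le_mul (h1 a) (h2 a)).trans (le_of_eq ?_)
  rw [pow_add]; ring

include hne in
theorem FB.add {T U : A → ℕ} (hT : FB enc κ T) (hU : FB enc κ U) :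
    FB enc κ (fun a => T a + U a) := by
  obtain ⟨g, c, hg, h1⟩ := hT
  obtain ⟨g', c', hg', h2⟩ := hU
  refine ⟨fun p => g p + g' p, c + c', Primrec.nat_add.to_comp.comp hg hg', fun a => ?_⟩
  have hpos : 0 < (enc a).length := List.length_pos_iff.mpr (hne a)
  have e1 : (enc a).length ^ c ≤ (enc a).length ^ (c + c') :=
    Nat.pow_le_pow_right hpos (Nat.le_add_right _ _)
  have e2 : (enc a).length ^ c' ≤ (enc a).length ^ (c + c') :=
    Nat.pow_le_pow_right hpos (Nat.le_add_left _ _)
  show T a + U a ≤ (g (κ a) + g' (κ a)) * _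
  rw [Nat.add_mul]
  exact Nat.add_le_add ((h1 a).trans (Nat.mul_le_mul_left _ e1))
    ((h2 a).trans (Nat.mul_le_mul_left _ e2))

theorem FB.pow {T : A → ℕ} (hT : FB enc κ T) (c : ℕ) : FB enc κ (fun a => T a ^ c) := by
  induction c with
  | zero => simpa using FB.const 1
  | succ c ih => simpa only [pow_succ] using ih.mul hT

include hne in
theorem FB.poly {T : A → ℕ} (hT : FB enc κ T) (p : Polynomial ℕ) :
    FB enc κ (fun a => p.eval (T a)) := by
  induction p using Polynomial.induction_on' with
  | add p q hp hq =>
    simp only [Polynomial.eval_add]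
    exact FB.add hne hp hq
  | monomial n c =>
    simp only [Polynomial.eval_monomial]
    exact (FB.const c).mul (hT.pow n)

end FB

/-- A machine with a time bound of the right form gives an FPT algorithm. -/
theorem FPTComputable.of_FB {A : Type} {enc : A → List Bool} {κ : A → ℕ} {f : A → List Bool}
    (M : TM2ComputableAux Bool Bool) {T : A → ℕ} (hT : FB enc κ T)
    (h : ∀ a, OutIn M (enc a) (f a) (T a)) : FPTComputable enc κ f := by
  obtain ⟨g, c, hg, h1⟩ := hT
  exact ⟨M, g, c, hg, fun a => (h a).mono (h1 a)⟩

/-- Transfer of an FPT algorithm along a polynomial-time reduction `F` (with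
parameter change `h`) and a polynomial-time evaluation `G` of the answer. -/
theorem FPTComputable.transfer {A B : Type} {encA : A → List Bool} {encB : B → List Bool}
    {κA : A → ℕ} {κB : B → ℕ} {fA : A → List Bool} {fB : B → List Bool}
    (hne : ∀ a, encA a ≠ []) {h : ℕ → ℕ} (hh : Computable h)
    {F G : List Bool → List Bool}
    (hF : Nonempty (TM2ComputableInPolyTime (id : List Bool → List Bool)
      (id : List Bool → List Bool) F))
    (hG : Nonempty (TM2ComputableInPolyTime (id : List Bool → List Bool)
      (id : List Bool → List Bool) G))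
    (R : A → B) (hR : ∀ a, F (encA a) = encB (R a)) (hκ : ∀ a, κB (R a) = h (κA a))
    (hfG : ∀ a, fA a = G (fB (R a))) (hB : FPTComputable encB κB fB) :
    FPTComputable encA κA fA := by
  obtain ⟨F'⟩ := hF
  obtain ⟨G'⟩ := hG
  obtain ⟨M, g, c, hg, hM⟩ := hB
  -- the three machines and their running times
  set L : A → ℕ := fun a => (encA a).length with hL
  set MF := F'.toTM2ComputableAux with hMF
  set MG := G'.toTM2ComputableAux with hMG
  have o1 : ∀ a, OutIn MF (encA a) (encB (R a)) (F'.time.eval (L a)) := by
    intro a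
    have := F'.outputsFun (encA a)
    simp only [id_eq] at this
    rw [hR a] at this
    exact ⟨this⟩
  have l1 : ∀ a, (encB (R a)).length ≤ L a + npMax MF.tm * F'.time.eval (L a) := fun a =>
    (o1 a).len
  set T1 : A → ℕ := fun a => L a + npMax MF.tm * F'.time.eval (L a) with hT1
  set T2 : A → ℕ := fun a => g (h (κA a)) * T1 a ^ c with hT2
  have o2 : ∀ a, OutIn M (encB (R a)) (fB (R a)) (T2 a) := by
    intro a
    have h1 : OutIn M (encB (R a)) (fB (R a)) (g (κB (R a)) * (encB (R a)).length ^ c) := hM (R a)
    refine h1.mono ?_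
    rw [hκ a]
    exact Nat.mul_le_mul_left _ (Nat.pow_le_pow_left (l1 a) c)
  have l2 : ∀ a, (fB (R a)).length ≤ T1 a + npMax M.tm * T2 a := fun a =>
    (o2 a).len.trans (Nat.add_le_add_right (l1 a) _)
  set T3 : A → ℕ := fun a => T1 a + npMax M.tm * T2 a with hT3
  have o3 : ∀ a, OutIn MG (fB (R a)) (fA a) (G'.time.eval (T3 a)) := by
    intro a
    have h1 := G'.outputsFun (fB (R a))
    simp only [id_eq] at h1
    rw [← hfG a] at h1
    exact OutIn.mono ⟨h1⟩ (eval_mono G'.time (l2 a))
  -- bounds
  have b1 : FB encA κA T1 := FB.add hne FB.length ((FB.const _).mul (FB.poly hne FB.length _))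
  have b2 : FB encA κA T2 := (FB.param (hg.comp hh)).mul (b1.pow c)
  have b3 : FB encA κA T3 := FB.add hne b1 ((FB.const _).mul b2)
  refine FPTComputable.of_FB (compAux (compAux MF M) MG)
    (T := fun a => (F'.time.eval (L a) + 2 * (T1 a + 1) + T2 a) + 2 * (T3 a + 1) +
      G'.time.eval (T3 a)) ?_ ?_
  · have c1 : FB encA κA (fun _ => 1) := FB.const 1
    exact FB.add hne (FB.add hne (FB.add hne (FB.add hne (FB.poly hne FB.length _)
      ((FB.const 2).mul (FB.add hne b1 c1))) b2) ((FB.const 2).mul (FB.add hne b3 c1)))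
      (FB.poly hne b3 _)
  · intro a
    have p1 : OutIn (compAux MF M) (encA a) (fB (R a))
        (F'.time.eval (L a) + 2 * (T1 a + 1) + T2 a) :=
      ((o1 a).comp (o2 a)).mono (by
        have h1 : (encB (R a)).length ≤ T1 a := l1 a
        show _ ≤ F'.time.eval (L a) + 2 * (T1 a + 1) + T2 a
        omega)
    refine (p1.comp (o3 a)).mono ?_
    have h1 : (fB (R a)).length ≤ T3 a := l2 a
    show _ ≤ (F'.time.eval (L a) + 2 * (T1 a + 1) + T2 a) + 2 * (T3 a + 1) + G'.time.eval (T3 a)
    omega

end Pool.Agent.PolyTime
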