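import Mathlib

/-!
# Structured stack programs and their compilation to Mathlib's `FinTM2`

A small structured language on stacks of Booleans (the stacks are indexed by natural numbers), with
a big-step semantics that counts steps, and a compiler to `Turing.FinTM2` preserving the number of
steps.  The final theorem `Prog.computable` turns a program computing `f : List Bool → List Bool`
in polynomially many steps into a `Turing.TM2ComputableInPolyTime id id f`.
-/

namespace Pool.Agent.PolyTime

open Turing Function

/-- Structured stack programs. -/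
inductive Prog
  | skip : Prog
  | push (k : ℕ) (b : Bool) : Prog
  | pop (k : ℕ) : Prog
  | seq (p q : Prog) : Prog
  /-- branch on the top of stack `k`: `p` if it is `true`, `q` if it is `false`, `r` if the stack
  is empty -/
  | ite (k : ℕ) (p q r : Prog) : Prog
  /-- while stack `k` is nonempty do `p` -/
  | loop (k : ℕ) (p : Prog) : Prog

/-- States: contents of the stacks (head = top). -/
abbrev St := ℕ → List Bool

/-- Big-step semantics with a step count. -/
inductive Run : Prog → St → St → ℕ → Prop
  | skip (s) : Run .skip s s 1
  | push (k b s) : Run (.push k b) s (update s k (b :: s k)) 1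
  | pop (k s) : Run (.pop k) s (update s k (s k).tail) 1
  | seq {p q s s' s'' t t'} : Run p s s' t → Run q s' s'' t' → Run (.seq p q) s s'' (t + t')
  | ite_true {k p q r s s' t} : (s k).head? = some true → Run p s s' t →
      Run (.ite k p q r) s s' (t + 1)
  | ite_false {k p q r s s' t} : (s k).head? = some false → Run q s s' t →
      Run (.ite k p q r) s s' (t + 1)
  | ite_none {k p q r s s' t} : (s k).head? = none → Run r s s' t →
      Run (.ite k p q r) s s' (t + 1)
  | loop_nil {k p s} : s k = [] → Run (.loop k p) s s 1
  | loop_cons {k p s s' s'' t t'} : s k ≠ [] → Run p s s' t → Run (.loop k p) s' s'' t' →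
      Run (.loop k p) s s'' (t + t' + 1)

namespace Prog

/-- Number of labels used by a program. -/
def size : Prog → ℕ
  | skip => 1
  | push _ _ => 1
  | pop _ => 1
  | seq p q => size p + size q
  | ite _ p q r => 1 + size p + size q + size r
  | loop _ p => 1 + size p

/-- All stacks used by the program are smaller than `R`. -/
def regsLt (R : ℕ) : Prog → Prop
  | skip => True
  | push k _ => k < R
  | pop k => k < R
  | seq p q => regsLt R p ∧ regsLt R q
  | ite k p q r => k < R ∧ regsLt R p ∧ regsLt R q ∧ regsLt R r
  | loop k p => k < R ∧ regsLt R p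

/-- A strict bound for the stacks used by the program. -/
def maxReg : Prog → ℕ
  | skip => 0
  | push k _ => k + 1
  | pop k => k + 1
  | seq p q => max (maxReg p) (maxReg q)
  | ite k p q r => max (k + 1) (max (maxReg p) (max (maxReg q) (maxReg r)))
  | loop k p => max (k + 1) (maxReg p)

theorem regsLt_mono {R R' : ℕ} (h : R ≤ R') : ∀ {p : Prog}, regsLt R p → regsLt R' p
  | skip, _ => trivial
  | push _ _, hp => lt_of_lt_of_le hp h
  | pop _, hp => lt_of_lt_of_le hp h
  | seq _ _, hp => ⟨regsLt_mono h hp.1, regsLt_mono h hp.2⟩
  | ite _ _ _ _, hp => ⟨lt_of_lt_of_le hp.1 h, regsLt_mono h hp.2.1, regsLt_mono h hp.2.2.1,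
      regsLt_mono h hp.2.2.2⟩
  | loop _ _, hp => ⟨lt_of_lt_of_le hp.1 h, regsLt_mono h hp.2⟩

theorem regsLt_maxReg : ∀ p : Prog, regsLt (maxReg p) p
  | skip => trivial
  | push k _ => Nat.lt_succ_self k
  | pop k => Nat.lt_succ_self k
  | seq p q => ⟨regsLt_mono (le_max_left _ _) (regsLt_maxReg p),
      regsLt_mono (le_max_right _ _) (regsLt_maxReg q)⟩
  | ite k p q r => by
      refine ⟨?_, regsLt_mono ?_ (regsLt_maxReg p), regsLt_mono ?_ (regsLt_maxReg q),
        regsLt_mono ?_ (regsLt_maxReg r)⟩ <;> simp only [maxReg] <;> omega
  | loop k p => ⟨by simp only [maxReg]; omega, regsLt_mono (le_max_right _ _) (regsLt_maxReg p)⟩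

theorem size_pos : ∀ p : Prog, 0 < size p
  | skip => Nat.one_pos
  | push _ _ => Nat.one_pos
  | pop _ => Nat.one_pos
  | seq p q => Nat.add_pos_left (size_pos p) _
  | ite _ _ _ _ => by simp only [size]; omega
  | loop _ _ => by simp only [size]; omega

/-! ### Compilation -/

/-- The statements of the compiled machine; `L + 1` labels and `R + 1` stacks. -/
abbrev MStmt (R L : ℕ) := TM2.Stmt (K := Fin (R + 1)) (fun _ => Bool) (Fin (L + 1)) (Option Bool)

/-- Code of the program `p` placed at the labels `o, …, o + size p - 1`, continuing at `next`. -/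
def code (R L : ℕ) : Prog → (o next : ℕ) → (l : ℕ) → MStmt R L
  | skip, _, next, _ => .goto (fun _ => Fin.ofNat _ next)
  | push k b, _, next, _ =>
      .push (Fin.ofNat _ k) (fun _ => b) (.goto (fun _ => Fin.ofNat _ next))
  | pop k, _, next, _ =>
      .pop (Fin.ofNat _ k) (fun v _ => v) (.goto (fun _ => Fin.ofNat _ next))
  | seq p q, o, next, l =>
      if l < o + size p then code R L p o (o + size p) l
      else code R L q (o + size p) next l
  | ite k p q r, o, next, l =>
      if l = o then
        .peek (Fin.ofNat _ k) (fun _ b => b)
          (.branch (fun v => v == some true)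
            (.load (fun _ => none) (.goto (fun _ => Fin.ofNat _ (o + 1))))
            (.branch (fun v => v == some false)
              (.load (fun _ => none) (.goto (fun _ => Fin.ofNat _ (o + 1 + size p))))
              (.load (fun _ => none) (.goto (fun _ => Fin.ofNat _ (o + 1 + size p + size q))))))
      else if l < o + 1 + size p then code R L p (o + 1) next l
      else if l < o + 1 + size p + size q then code R L q (o + 1 + size p) next l
      else code R L r (o + 1 + size p + size q) next l
  | loop k p, o, next, l =>
      if l = o then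
        .peek (Fin.ofNat _ k) (fun _ b => b)
          (.branch (fun v => v == none)
            (.load (fun _ => none) (.goto (fun _ => Fin.ofNat _ next)))
            (.load (fun _ => none) (.goto (fun _ => Fin.ofNat _ (o + 1)))))
      else code R L p (o + 1) o l

/-- Configurations of the compiled machine. -/
abbrev MCfg (R L : ℕ) := TM2.Cfg (K := Fin (R + 1)) (fun _ => Bool) (Fin (L + 1)) (Option Bool)

/-- The configuration at label `l` with stacks `s`. -/
def cfg (R L : ℕ) (l : ℕ) (s : St) : MCfg R L :=
  ⟨some (Fin.ofNat _ l), none, fun k => s k⟩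

/-- `t` steps of the machine `M` lead from `c` to `c'`. -/
def Steps {R L : ℕ} (M : Fin (L + 1) → MStmt R L) (t : ℕ) (c c' : MCfg R L) : Prop :=
  (flip bind (TM2.step M))^[t] (some c) = some c'

theorem Steps.trans {R L : ℕ} {M : Fin (L + 1) → MStmt R L} {t t' : ℕ} {c c' c'' : MCfg R L}
    (h : Steps M t c c') (h' : Steps M t' c' c'') : Steps M (t + t') c c'' := by
  unfold Steps at *
  have e := Function.iterate_add_apply (flip bind (TM2.step M)) t' t (some c)
  rw [Nat.add_comm t' t] at e
  exact e.trans ((congrArg _ h).trans h')

theorem Steps.one {R L : ℕ} {M : Fin (L + 1) → MStmt R L} {c c' : MCfg R L}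
    (h : TM2.step M c = some c') : Steps M 1 c c' := by
  unfold Steps
  simpa [flip] using h

theorem ofNat_val {n k : ℕ} (h : k < n + 1) : ((Fin.ofNat (n + 1) k : Fin (n + 1)) : ℕ) = k := by
  simp [Fin.ofNat, Nat.mod_eq_of_lt h]

theorem update_restrict {R : ℕ} {s : St} {k : ℕ} (hk : k < R + 1) {v : List Bool} :
    (fun j : Fin (R + 1) => update s k v j) =
      update (fun j : Fin (R + 1) => s j) (Fin.ofNat _ k) v := by
  funext j
  by_cases hj : (j : ℕ) = k
  · have : j = Fin.ofNat _ k := Fin.ext (by rw [ofNat_val hk]; exact hj)
    rw [← this, update_self, hj, update_self]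
  · have : j ≠ Fin.ofNat _ k := fun h => hj (by rw [h, ofNat_val hk])
    rw [update_of_ne this, update_of_ne hj]

theorem sim {R L : ℕ} (M : Fin (L + 1) → MStmt R L) {p : Prog} {s s' : St} {t : ℕ}
    (h : Run p s s' t) : ∀ (o next : ℕ), regsLt (R + 1) p → o + size p ≤ L + 1 →
      (∀ l, o ≤ l → l < o + size p → M (Fin.ofNat _ l) = code R L p o next l) →
      Steps M t (cfg R L o s) (cfg R L next s') := by
  induction h with
  | skip s =>
    intro o next _ _ hM
    apply Steps.one
    have := hM o le_rfl (by simp [size])
    simp only [cfg, TM2.step, this, code, TM2.stepAux]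
  | push k b s =>
    intro o next hR _ hM
    apply Steps.one
    have := hM o le_rfl (by simp [size])
    simp only [regsLt] at hR
    simp only [cfg, TM2.step, this, code, TM2.stepAux, update_restrict hR, ofNat_val hR]
  | pop k s =>
    intro o next hR _ hM
    apply Steps.one
    have := hM o le_rfl (by simp [size])
    simp only [regsLt] at hR
    simp only [cfg, TM2.step, this, code, TM2.stepAux, update_restrict hR, ofNat_val hR]
  | @seq p q s s' s'' t t' _ _ ih1 ih2 =>
    intro o next hR hL hM
    simp only [size] at hL hM
    refine (ih1 o (o + size p) hR.1 (by omega) ?_).trans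
      (ih2 (o + size p) next hR.2 (by omega) ?_)
    · intro l h1 h2
      rw [hM l h1 (by omega)]
      simp only [code, if_pos h2]
    · intro l h1 h2
      rw [hM l (by omega) (by omega)]
      simp only [code, if_neg (by omega : ¬ l < o + size p)]
  | @ite_true k p q r s s' t hk _ ih =>
    intro o next hR hL hM
    simp only [size] at hL hM
    rw [add_comm]
    refine Steps.trans (Steps.one ?_) (ih (o + 1) next hR.2.1 (by omega) ?_)
    · have := hM o le_rfl (by omega)
      simp only [cfg, TM2.step, this, code, if_true, TM2.stepAux, ofNat_val hR.1, hk]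
      simp
    · intro l h1 h2
      rw [hM l (by omega) (by omega)]
      simp only [code, if_neg (by omega : ¬ l = o), if_pos (by omega : l < o + 1 + size p)]
  | @ite_false k p q r s s' t hk _ ih =>
    intro o next hR hL hM
    simp only [size] at hL hM
    rw [add_comm]
    refine Steps.trans (Steps.one ?_) (ih (o + 1 + size p) next hR.2.2.1 (by omega) ?_)
    · have := hM o le_rfl (by omega)
      simp only [cfg, TM2.step, this, code, if_true, TM2.stepAux, ofNat_val hR.1, hk]
      simp
    · intro l h1 h2
      rw [hM l (by omega) (by omega)]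
      simp only [code, if_neg (by omega : ¬ l = o), if_neg (by omega : ¬ l < o + 1 + size p),
        if_pos (by omega : l < o + 1 + size p + size q)]
  | @ite_none k p q r s s' t hk _ ih =>
    intro o next hR hL hM
    simp only [size] at hL hM
    rw [add_comm]
    refine Steps.trans (Steps.one ?_)
      (ih (o + 1 + size p + size q) next hR.2.2.2 (by omega) ?_)
    · have := hM o le_rfl (by omega)
      simp only [cfg, TM2.step, this, code, if_true, TM2.stepAux, ofNat_val hR.1, hk]
      simp
    · intro l h1 h2
      rw [hM l (by omega) (by omega)]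
      simp only [code, if_neg (by omega : ¬ l = o), if_neg (by omega : ¬ l < o + 1 + size p),
        if_neg (by omega : ¬ l < o + 1 + size p + size q)]
  | @loop_nil k p s hk =>
    intro o next hR hL hM
    simp only [size] at hL hM
    apply Steps.one
    have := hM o le_rfl (by omega)
    simp only [cfg, TM2.step, this, code, if_true, TM2.stepAux, ofNat_val hR.1, hk]
    simp
  | @loop_cons k p s s' s'' t t' hk _ _ ih1 ih2 =>
    intro o next hR hL hM
    simp only [size] at hL hM
    rw [show t + t' + 1 = 1 + (t + t') by ring]
    refine Steps.trans (Steps.one ?_) ((ih1 (o + 1) o hR.2 (by omega) ?_).trans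
      (ih2 o next hR (by simp only [size]; omega) ?_))
    · have := hM o le_rfl (by omega)
      obtain ⟨b, l, hbl⟩ := List.exists_cons_of_ne_nil hk
      simp only [cfg, TM2.step, this, code, if_true, TM2.stepAux, ofNat_val hR.1, hbl]
      simp
    · intro l h1 h2
      rw [hM l (by omega) (by omega)]
      simp only [code, if_neg (by omega : ¬ l = o)]
    · intro l h1 h2
      simp only [size] at h2
      exact hM l h1 (by omega)

/-- The compiled machine. -/
def toTM (p : Prog) : FinTM2 where
  K := Fin (max p.maxReg 1 + 1)
  k₀ := Fin.ofNat _ 0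
  k₁ := Fin.ofNat _ 1
  Γ _ := Bool
  Λ := Fin (p.size + 1)
  main := Fin.ofNat _ 0
  σ := Option Bool
  initialState := none
  Γk₀Fin := inferInstance
  m l := if (l : ℕ) < p.size then code _ _ p 0 p.size l else .halt

/-- The state with input `x` on stack `0` and all other stacks empty. -/
def inSt (x : List Bool) : St := update (fun _ => []) 0 x

/-- The state with output `y` on stack `1` and all other stacks empty. -/
def outSt (y : List Bool) : St := update (fun _ => []) 1 y

theorem initList_eq (tm : FinTM2) (s : List (tm.Γ tm.k₀)) (S : ∀ k, List (tm.Γ k))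
    (h0 : S tm.k₀ = s) (h1 : ∀ k, k ≠ tm.k₀ → S k = []) :
    initList tm s = ⟨some tm.main, tm.initialState, S⟩ := by
  unfold initList
  congr 1
  funext k
  by_cases hk : k = tm.k₀
  · subst hk
    simp [h0]
  · rw [dif_neg hk, h1 k hk]

theorem haltList_eq (tm : FinTM2) (s : List (tm.Γ tm.k₁)) (S : ∀ k, List (tm.Γ k))
    (h0 : S tm.k₁ = s) (h1 : ∀ k, k ≠ tm.k₁ → S k = []) :
    haltList tm s = ⟨none, tm.initialState, S⟩ := by
  unfold haltList
  congr 1
  funext k
  by_cases hk : k = tm.k₁
  · subst hk
    simp [h0]
  · rw [dif_neg hk, h1 k hk]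

/-- A program computing `f` in polynomially many steps yields a polynomial-time computable
function in the sense of Mathlib. -/
theorem computable (p : Prog) (f : List Bool → List Bool) (T : Polynomial ℕ)
    (h : ∀ x, ∃ t ≤ T.eval x.length, Run p (inSt x) (outSt (f x)) t) :
    Nonempty (TM2ComputableInPolyTime (id : List Bool → List Bool) (id : List Bool → List Bool)
      f) := by
  refine ⟨{ tm := p.toTM, inputAlphabet := Equiv.refl _, outputAlphabet := Equiv.refl _,
            time := T + 1, outputsFun := fun x => ?_ }⟩
  have hx := h x
  choose t ht hrun using hx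
  have hs := sim (R := max p.maxReg 1) (L := p.size) p.toTM.m hrun 0 p.size
    (regsLt_mono (by omega) (regsLt_maxReg p)) (by omega) (by
      intro l _ hl
      show (if ((Fin.ofNat (p.size + 1) l : Fin (p.size + 1)) : ℕ) < p.size then _ else _) = _
      rw [ofNat_val (by omega), if_pos (by omega)])
  refine ⟨⟨t + 1, ?_⟩, ?_⟩
  · have e1 : initList p.toTM x = cfg (max p.maxReg 1) p.size 0 (inSt x) := by
      refine initList_eq p.toTM x (fun k : Fin (max p.maxReg 1 + 1) => inSt x k) ?_ ?_
      · show inSt x ((Fin.ofNat (max p.maxReg 1 + 1) 0 : Fin (max p.maxReg 1 + 1)) : ℕ) = x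
        rw [ofNat_val (by omega)]
        simp [inSt]
      · intro (k : Fin (max p.maxReg 1 + 1)) hk
        show inSt x (k : ℕ) = []
        have : (k : ℕ) ≠ 0 := by
          intro h0
          apply hk
          apply Fin.ext
          rw [h0]
          exact (ofNat_val (by omega)).symm
        unfold inSt
        rw [update_of_ne this]
    have e2 : haltList p.toTM (f x) =
          (⟨none, none, fun k : Fin (max p.maxReg 1 + 1) => outSt (f x) k⟩ :
            MCfg (max p.maxReg 1) p.size) := by
      refine haltList_eq p.toTM (f x) (fun k : Fin (max p.maxReg 1 + 1) => outSt (f x) k) ?_ ?_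
      · show outSt (f x) ((Fin.ofNat (max p.maxReg 1 + 1) 1 : Fin (max p.maxReg 1 + 1)) : ℕ) = f x
        rw [ofNat_val (by omega)]
        simp [outSt]
      · intro (k : Fin (max p.maxReg 1 + 1)) hk
        show outSt (f x) (k : ℕ) = []
        have : (k : ℕ) ≠ 1 := by
          intro h0
          apply hk
          apply Fin.ext
          rw [h0]
          exact (ofNat_val (by omega)).symm
        unfold outSt
        rw [update_of_ne this]
    have hfin : TM2.step p.toTM.m (cfg (max p.maxReg 1) p.size p.size (outSt (f x))) =
        some (⟨none, none, fun k : Fin (max p.maxReg 1 + 1) => outSt (f x) k⟩ :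
            MCfg (max p.maxReg 1) p.size) := by
      have : p.toTM.m (Fin.ofNat _ p.size) = TM2.Stmt.halt := by
        show (if ((Fin.ofNat (p.size + 1) p.size : Fin (p.size + 1)) : ℕ) < p.size
          then _ else _) = _
        rw [ofNat_val (by omega), if_neg (by omega)]
        rfl
      show some (TM2.stepAux (p.toTM.m (Fin.ofNat _ p.size)) none _) = _
      rw [this]
      rfl
    have key : (flip bind (TM2.step p.toTM.m))^[t + 1]
        (some (cfg (max p.maxReg 1) p.size 0 (inSt x))) =
        some (⟨none, none, fun k : Fin (max p.maxReg 1 + 1) => outSt (f x) k⟩ :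
            MCfg (max p.maxReg 1) p.size) :=
      hs.trans (Steps.one hfin)
    have e3 : (List.map (Equiv.refl Bool).invFun (id x)) = x := List.map_id x
    have e4 : (List.map (Equiv.refl Bool).invFun (id (f x))) = f x := List.map_id _
    have g1 : initList p.toTM (List.map (Equiv.refl Bool).invFun (id x)) =
        cfg (max p.maxReg 1) p.size 0 (inSt x) := (congrArg (initList p.toTM) e3).trans e1
    have g2 : haltList p.toTM (List.map (Equiv.refl Bool).invFun (id (f x))) =
        (⟨none, none, fun k : Fin (max p.maxReg 1 + 1) => outSt (f x) k⟩ :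
            MCfg (max p.maxReg 1) p.size) := (congrArg (haltList p.toTM) e4).trans e2
    exact (congrArg (fun c => (flip bind (TM2.step p.toTM.m))^[t + 1] (some c)) g1).trans
      (key.trans (congrArg some g2.symm))
  · simp only [Polynomial.eval_add, Polynomial.eval_one, id_eq]
    omega

end Prog

end Pool.Agent.PolyTime
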