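import Mathlib
import Pool.Agent.Lib.PolyTime.Prog

/-!
# Arithmetic expressions with bounded sums, and their compilation to stack programs

An expression describes a natural number depending on an input `x : List Bool` and on an
environment `ℕ → ℕ`.  Every expression is compiled to a stack program that adds its value, in
unary, to a given stack, in time polynomial in the length of the input and the values of the
variables.
-/

namespace Pool.Agent.PolyTime

open Turing Function
open Polynomial (X C)

/-- Expressions. -/
inductive Expr
  | var (i : ℕ)
  | const (c : ℕ)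
  /-- length of the input -/
  | len
  /-- the bit of the input at position `e` (`0` if out of range) -/
  | inp (e : Expr)
  | add (a b : Expr)
  | sub (a b : Expr)
  /-- `sum v b e` is the sum of `e` for the values `0, …, b - 1` of the variable `v` -/
  | sum (v : ℕ) (b e : Expr)
  /-- `letE v a e` is the value of `e` where the variable `v` has the value of `a` -/
  | letE (v : ℕ) (a e : Expr)

namespace Expr

/-- Value of an expression. -/
def eval (x : List Bool) : (ℕ → ℕ) → Expr → ℕ
  | env, var i => env i
  | _, const c => c
  | _, len => x.length
  | env, inp e => (x.getD (eval x env e) false).toNat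
  | env, add a b => eval x env a + eval x env b
  | env, sub a b => eval x env a - eval x env b
  | env, sum v b e => ∑ i ∈ Finset.range (eval x env b), eval x (update env v i) e
  | env, letE v a e => eval x (update env v (eval x env a)) e

/-- Polynomial bound for the value. -/
noncomputable def bP : Expr → Polynomial ℕ
  | var _ => X
  | const c => C c
  | len => X
  | inp _ => 1
  | add a b => bP a + bP b
  | sub a _ => bP a
  | sum _ b e => bP b * (bP e).comp (X + bP b)
  | letE _ a e => (bP e).comp (X + bP a)

/-- Polynomial bound for the time. -/
noncomputable def tP : Expr → Polynomial ℕ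
  | var _ => 7 * X + 2
  | const c => C (c + 1)
  | len => 9 * X + 2
  | inp e => tP e + 5 * bP e + 4 * X + 4
  | add a b => tP a + tP b
  | sub a b => tP a + tP b + 3 * bP a + 3 * bP b + 2
  | sum _ b e => tP b + 6 * X + bP b * (3 + (tP e).comp (X + bP b)) + 2 * bP b + 4
  | letE _ a e => tP a + 6 * X + 5 * bP a + (tP e).comp (X + bP a) + 4

end Expr

theorem eval_mono (p : Polynomial ℕ) {m n : ℕ} (h : m ≤ n) : p.eval m ≤ p.eval n := by
  rw [Polynomial.eval_eq_sum_range, Polynomial.eval_eq_sum_range]
  exact Finset.sum_le_sum fun i _ => Nat.mul_le_mul_left _ (Nat.pow_le_pow_left h i)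

theorem Expr.eval_le (x : List Bool) : ∀ (e : Expr) (env : ℕ → ℕ) (N : ℕ), x.length ≤ N →
    (∀ i, env i ≤ N) → e.eval x env ≤ e.bP.eval N
  | .var i, env, N, _, henv => by simpa [Expr.eval, Expr.bP] using henv i
  | .const c, _, N, _, _ => by simp [Expr.eval, Expr.bP]
  | .len, _, N, hx, _ => by simpa [Expr.eval, Expr.bP] using hx
  | .inp e, _, N, _, _ => by
      simp only [Expr.eval, Expr.bP, Polynomial.eval_one]
      exact Bool.toNat_le _
  | .add a b, env, N, hx, henv => by
      simp only [Expr.eval, Expr.bP, Polynomial.eval_add]
      exact Nat.add_le_add (eval_le x a env N hx henv) (eval_le x b env N hx henv)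
  | .sub a b, env, N, hx, henv => by
      simp only [Expr.eval, Expr.bP]
      exact le_trans (Nat.sub_le _ _) (eval_le x a env N hx henv)
  | .sum v b e, env, N, hx, henv => by
      simp only [Expr.eval, Expr.bP, Polynomial.eval_mul, Polynomial.eval_comp,
        Polynomial.eval_add, Polynomial.eval_X]
      have hb := eval_le x b env N hx henv
      calc ∑ i ∈ Finset.range (b.eval x env), e.eval x (update env v i)
          ≤ ∑ _i ∈ Finset.range (b.eval x env), e.bP.eval (N + b.bP.eval N) := by
            apply Finset.sum_le_sum
            intro i hi
            rw [Finset.mem_range] at hi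
            apply eval_le x e _ _ (by omega)
            intro j
            by_cases hj : j = v
            · subst hj; rw [update_self]; omega
            · rw [update_of_ne hj]; have := henv j; omega
        _ = b.eval x env * e.bP.eval (N + b.bP.eval N) := by simp
        _ ≤ _ := Nat.mul_le_mul_right _ hb
  | .letE v a e, env, N, hx, henv => by
      simp only [Expr.eval, Expr.bP, Polynomial.eval_comp, Polynomial.eval_add, Polynomial.eval_X]
      have ha := eval_le x a env N hx henv
      apply eval_le x e _ _ (by omega)
      intro j
      by_cases hj : j = v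
      · subst hj; rw [update_self]; omega
      · rw [update_of_ne hj]; have := henv j; omega

/-! ### Executions with a time bound -/

/-- `p` leads from `s` to `s'` in at most `T` steps. -/
def Exec (p : Prog) (s s' : St) (T : ℕ) : Prop := ∃ t ≤ T, Run p s s' t

theorem Exec.mono {p : Prog} {s s' : St} {T T' : ℕ} (h : Exec p s s' T) (hT : T ≤ T') :
    Exec p s s' T' := by
  obtain ⟨t, ht, h⟩ := h
  exact ⟨t, le_trans ht hT, h⟩

theorem Exec.of_eq {p : Prog} {s s' s'' : St} {T : ℕ} (h : Exec p s s' T) (e : s' = s'') :
    Exec p s s'' T := e ▸ h

theorem Exec.seq {p q : Prog} {s s' s'' : St} {T T' : ℕ} (h : Exec p s s' T)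
    (h' : Exec q s' s'' T') : Exec (.seq p q) s s'' (T + T') := by
  obtain ⟨t, ht, h⟩ := h
  obtain ⟨t', ht', h'⟩ := h'
  exact ⟨t + t', by omega, Run.seq h h'⟩

theorem Exec.skip (s : St) : Exec .skip s s 1 := ⟨1, le_rfl, Run.skip s⟩

theorem Exec.push (k : ℕ) (b : Bool) (s : St) : Exec (.push k b) s (update s k (b :: s k)) 1 :=
  ⟨1, le_rfl, Run.push k b s⟩

theorem Exec.pop (k : ℕ) (s : St) : Exec (.pop k) s (update s k (s k).tail) 1 :=
  ⟨1, le_rfl, Run.pop k s⟩

theorem Exec.loop_nil {k : ℕ} {p : Prog} {s : St} (h : s k = []) : Exec (.loop k p) s s 1 :=
  ⟨1, le_rfl, Run.loop_nil h⟩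

theorem Exec.loop_cons {k : ℕ} {p : Prog} {s s' s'' : St} {T T' : ℕ} (h : s k ≠ [])
    (h1 : Exec p s s' T) (h2 : Exec (.loop k p) s' s'' T') :
    Exec (.loop k p) s s'' (T + T' + 1) := by
  obtain ⟨t, ht, h1⟩ := h1
  obtain ⟨t', ht', h2⟩ := h2
  exact ⟨t + t' + 1, by omega, Run.loop_cons h h1 h2⟩

theorem Exec.ite_true {k : ℕ} {p q r : Prog} {s s' : St} {T : ℕ}
    (h : (s k).head? = some true) (h1 : Exec p s s' T) : Exec (.ite k p q r) s s' (T + 1) := by
  obtain ⟨t, ht, h1⟩ := h1
  exact ⟨t + 1, by omega, Run.ite_true h h1⟩

theorem Exec.ite_false {k : ℕ} {p q r : Prog} {s s' : St} {T : ℕ}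
    (h : (s k).head? = some false) (h1 : Exec q s s' T) : Exec (.ite k p q r) s s' (T + 1) := by
  obtain ⟨t, ht, h1⟩ := h1
  exact ⟨t + 1, by omega, Run.ite_false h h1⟩

theorem Exec.ite_none {k : ℕ} {p q r : Prog} {s s' : St} {T : ℕ}
    (h : (s k).head? = none) (h1 : Exec r s s' T) : Exec (.ite k p q r) s s' (T + 1) := by
  obtain ⟨t, ht, h1⟩ := h1
  exact ⟨t + 1, by omega, Run.ite_none h h1⟩

/-- Unary numbers. -/
abbrev un (n : ℕ) : List Bool := List.replicate n true

theorem un_succ (n : ℕ) : un (n + 1) = true :: un n := rfl

theorem un_append (m n : ℕ) (l : List Bool) : un m ++ (un n ++ l) = un (m + n) ++ l := by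
  rw [← List.append_assoc, ← List.replicate_add]

/-! ### Basic programs -/

/-- Move a unary number from `k` to `k'`. -/
def moveU (k k' : ℕ) : Prog := .loop k (.seq (.pop k) (.push k' true))

theorem moveU_exec {k k' : ℕ} (hk : k ≠ k') : ∀ (n : ℕ) (s : St), s k = un n →
    Exec (moveU k k') s (update (update s k []) k' (un n ++ s k')) (3 * n + 1)
  | 0, s, h => by
      have : update (update s k []) k' (un 0 ++ s k') = s := by
        funext j
        by_cases hj : j = k'
        · subst hj; simp
        · by_cases hj2 : j = k
          · subst hj2; simp [hj, h]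
          · simp [hj, hj2]
      rw [this]
      exact Exec.loop_nil h
  | n + 1, s, h => by
      have e1 := Exec.pop k s
      have e2 := Exec.push k' true (update s k (s k).tail)
      have e3 := moveU_exec hk n (update (update s k (s k).tail) k'
          (true :: update s k (s k).tail k')) (by
            rw [update_of_ne hk, update_self, h]; rfl)
      have e4 := Exec.loop_cons (by rw [h]; simp [un_succ]) (e1.seq e2) e3
      have : update (update (update (update s k (s k).tail) k'
          (true :: update s k (s k).tail k')) k []) k' (un n ++ (update (update s k (s k).tail) k'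
          (true :: update s k (s k).tail k')) k') =
          update (update s k []) k' (un (n + 1) ++ s k') := by
        funext j
        by_cases hj : j = k'
        · subst hj
          simp only [update_self, update_of_ne (Ne.symm hk)]
          rw [← un_append n 1]
          rfl
        · by_cases hj2 : j = k
          · subst hj2; simp [hj]
          · simp [hj, hj2]
      rw [this] at e4
      exact e4.mono (by omega)

/-- Move a unary number from `k` to both `k'` and `k''`. -/
def copyU (k k' k'' : ℕ) : Prog :=
  .loop k (.seq (.pop k) (.seq (.push k' true) (.push k'' true)))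

theorem copyU_exec {k k' k'' : ℕ} (h1 : k ≠ k') (h2 : k ≠ k'') (h3 : k' ≠ k'') :
    ∀ (n : ℕ) (s : St), s k = un n →
    Exec (copyU k k' k'') s
      (update (update (update s k []) k' (un n ++ s k')) k'' (un n ++ s k'')) (4 * n + 1)
  | 0, s, h => by
      have : update (update (update s k []) k' (un 0 ++ s k')) k'' (un 0 ++ s k'') = s := by
        funext j
        by_cases hj : j = k''
        · subst hj; simp
        · by_cases hj1 : j = k'
          · subst hj1; simp [hj]
          · by_cases hj2 : j = k
            · subst hj2; simp [hj, hj1, h]
            · simp [hj, hj1, hj2]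
      rw [this]
      exact Exec.loop_nil h
  | n + 1, s, h => by
      have e1 := Exec.pop k s
      have e2 := Exec.push k' true (update s k (s k).tail)
      have e2' := Exec.push k'' true (update (update s k (s k).tail) k'
          (true :: update s k (s k).tail k'))
      have e3 := copyU_exec h1 h2 h3 n (update (update (update s k (s k).tail) k'
          (true :: update s k (s k).tail k')) k''
          (true :: (update (update s k (s k).tail) k'
          (true :: update s k (s k).tail k')) k'')) (by
            rw [update_of_ne h2, update_of_ne h1, update_self, h]; rfl)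
      have e4 := Exec.loop_cons (by rw [h]; simp [un_succ]) (e1.seq (e2.seq e2')) e3
      refine (e4.of_eq ?_).mono (by omega)
      funext j
      by_cases hj : j = k''
      · subst hj
        simp only [update_self, update_of_ne (Ne.symm h2), update_of_ne (Ne.symm h3)]
        rw [← un_append n 1]
        rfl
      · by_cases hj1 : j = k'
        · subst hj1
          simp only [update_self, update_of_ne (Ne.symm h1), update_of_ne h3]
          rw [← un_append n 1]
          rfl
        · by_cases hj2 : j = k
          · subst hj2; simp [hj, hj1]
          · simp [hj, hj1, hj2]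

/-- Empty a stack. -/
def clear (k : ℕ) : Prog := .loop k (.pop k)

theorem clear_exec {k : ℕ} : ∀ (l : List Bool) (s : St), s k = l →
    Exec (clear k) s (update s k []) (2 * l.length + 1)
  | [], s, h => by
      have : update s k [] = s := by rw [← h, update_eq_self]
      rw [this]
      exact Exec.loop_nil h
  | a :: l, s, h => by
      have e := clear_exec l (update s k (s k).tail) (by rw [update_self, h]; rfl)
      rw [update_idem] at e
      exact (Exec.loop_cons (by rw [h]; simp) (Exec.pop k s) e).mono
        (by simp only [List.length_cons]; omega)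

/-- Move a stack of bits from `k` to `k'` (this reverses it). -/
def moveD (k k' : ℕ) : Prog :=
  .loop k (.ite k (.seq (.pop k) (.push k' true)) (.seq (.pop k) (.push k' false)) .skip)

theorem moveD_exec {k k' : ℕ} (hk : k ≠ k') : ∀ (l : List Bool) (s : St), s k = l →
    Exec (moveD k k') s (update (update s k []) k' (l.reverse ++ s k')) (4 * l.length + 1)
  | [], s, h => by
      have : update (update s k []) k' (([] : List Bool).reverse ++ s k') = s := by
        funext j
        by_cases hj : j = k'
        · subst hj; simp
        · by_cases hj2 : j = k
          · subst hj2; simp [hj, h]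
          · simp [hj, hj2]
      rw [this]
      exact Exec.loop_nil h
  | a :: l, s, h => by
      have key : Exec (.ite k (.seq (.pop k) (.push k' true)) (.seq (.pop k) (.push k' false))
          .skip) s (update (update s k l) k' (a :: s k')) 3 := by
        have e1 := Exec.pop k s
        rw [h] at e1
        have e2 := Exec.push k' a (update s k l)
        rw [update_of_ne (Ne.symm hk)] at e2
        cases a
        · exact Exec.ite_false (by rw [h]; rfl) (e1.seq e2)
        · exact Exec.ite_true (by rw [h]; rfl) (e1.seq e2)
      have e3 := moveD_exec hk l (update (update s k l) k' (a :: s k'))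
          (by rw [update_of_ne hk, update_self])
      have e4 := Exec.loop_cons (by rw [h]; simp) key e3
      refine (e4.of_eq ?_).mono (by simp only [List.length_cons]; omega)
      funext j
      by_cases hj : j = k'
      · subst hj; simp
      · by_cases hj2 : j = k
        · subst hj2; simp [hj]
        · simp [hj, hj2]

end Pool.Agent.PolyTime
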