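import Mathlib
import Pool.Agent.Lib.PolyTime.Expr

/-!
# Compilation of expressions to stack programs
-/

namespace Pool.Agent.PolyTime

open Turing Function
open Polynomial (X C)

/-- Stack of the variable `i`. -/
abbrev rV (i : ℕ) : ℕ := 4 * i + 3
/-- First temporary stack of level `d`. -/
abbrev rA (d : ℕ) : ℕ := 4 * d + 4
/-- Second temporary stack of level `d`. -/
abbrev rB (d : ℕ) : ℕ := 4 * d + 5
/-- Third temporary stack of level `d`. -/
abbrev rS (d : ℕ) : ℕ := 4 * d + 6

/-- Stacks usable as accumulators at level `d`. -/
def Free (d k : ℕ) : Prop := k = 1 ∨ (4 ≤ k ∧ k % 4 ≠ 3 ∧ k < 4 * d + 4)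

/-- The state holds the input `x` in stack `0` and the environment in the variable stacks; stack `2`
and the temporary stacks of level at least `d` are empty. -/
structure Good (x : List Bool) (env : ℕ → ℕ) (d : ℕ) (s : St) : Prop where
  hX : s 0 = x
  hY : s 2 = []
  hV : ∀ i, s (rV i) = un (env i)
  hA : ∀ e, d ≤ e → s (rA e) = []
  hB : ∀ e, d ≤ e → s (rB e) = []
  hS : ∀ e, d ≤ e → s (rS e) = []

theorem Free.mono {d d' k : ℕ} (h : Free d k) (hd : d ≤ d') : Free d' k := by
  unfold Free at *; omega

theorem free_A (d : ℕ) : Free (d + 1) (rA d) := by unfold Free rA; omega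
theorem free_B (d : ℕ) : Free (d + 1) (rB d) := by unfold Free rB; omega
theorem free_S (d : ℕ) : Free (d + 1) (rS d) := by unfold Free rS; omega

theorem Good.mono {x : List Bool} {env : ℕ → ℕ} {d d' : ℕ} {s : St} (h : Good x env d s)
    (hd : d ≤ d') : Good x env d' s :=
  ⟨h.hX, h.hY, h.hV, fun e he => h.hA e (by omega), fun e he => h.hB e (by omega),
    fun e he => h.hS e (by omega)⟩

theorem Good.upd {x : List Bool} {env : ℕ → ℕ} {d : ℕ} {s : St} (h : Good x env d s) {k : ℕ}
    (hk : Free d k) (v : List Bool) : Good x env d (update s k v) := by
  unfold Free at hk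
  refine ⟨?_, ?_, fun i => ?_, fun e he => ?_, fun e he => ?_, fun e he => ?_⟩
  · rw [update_of_ne (by omega)]; exact h.hX
  · rw [update_of_ne (by omega)]; exact h.hY
  · rw [update_of_ne (by unfold rV; omega)]; exact h.hV i
  · rw [update_of_ne (by unfold rA; omega)]; exact h.hA e he
  · rw [update_of_ne (by unfold rB; omega)]; exact h.hB e he
  · rw [update_of_ne (by unfold rS; omega)]; exact h.hS e he

theorem Good.updV {x : List Bool} {env : ℕ → ℕ} {d : ℕ} {s : St} (h : Good x env d s) (v n : ℕ) :
    Good x (update env v n) d (update s (rV v) (un n)) := by
  refine ⟨?_, ?_, fun i => ?_, fun e he => ?_, fun e he => ?_, fun e he => ?_⟩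
  · rw [update_of_ne (by unfold rV; omega)]; exact h.hX
  · rw [update_of_ne (by unfold rV; omega)]; exact h.hY
  · by_cases hi : i = v
    · subst hi; rw [update_self, update_self]
    · rw [update_of_ne (by unfold rV; omega), update_of_ne hi]; exact h.hV i
  · rw [update_of_ne (by unfold rA rV; omega)]; exact h.hA e he
  · rw [update_of_ne (by unfold rB rV; omega)]; exact h.hB e he
  · rw [update_of_ne (by unfold rS rV; omega)]; exact h.hS e he

/-- Push `c` symbols `true`. -/
def pushes (k : ℕ) : ℕ → Prog
  | 0 => .skip
  | c + 1 => .seq (.push k true) (pushes k c)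

theorem pushes_exec (k : ℕ) : ∀ (c : ℕ) (s : St),
    Exec (pushes k c) s (update s k (un c ++ s k)) (c + 1)
  | 0, s => by
      have : update s k (un 0 ++ s k) = s := by simp
      rw [this]
      exact Exec.skip s
  | c + 1, s => by
      have e1 := Exec.push k true s
      have e2 := pushes_exec k c (update s k (true :: s k))
      refine ((e1.seq e2).of_eq ?_).mono (by omega)
      rw [update_idem, update_self, ← un_append c 1]
      rfl

/-- Program adding the length of stack `0` to stack `acc`. -/
def lenP (acc : ℕ) : Prog :=
  .seq (.loop 0 (.ite 0 (.seq (.pop 0) (.seq (.push 2 true) (.push acc true)))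
    (.seq (.pop 0) (.seq (.push 2 false) (.push acc true))) .skip)) (moveD 2 0)

theorem lenLoop_exec {acc : ℕ} (h0 : acc ≠ 0) (h2 : acc ≠ 2) : ∀ (l : List Bool) (s : St),
    s 0 = l →
    Exec (.loop 0 (.ite 0 (.seq (.pop 0) (.seq (.push 2 true) (.push acc true)))
      (.seq (.pop 0) (.seq (.push 2 false) (.push acc true))) .skip)) s
      (update (update (update s 0 []) 2 (l.reverse ++ s 2)) acc (un l.length ++ s acc))
      (5 * l.length + 1)
  | [], s, h => by
      refine (Exec.loop_nil h).of_eq ?_
      funext j
      by_cases hj : j = acc
      · subst hj; simp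
      · by_cases hj2 : j = 2
        · subst hj2; simp [hj]
        · by_cases hj0 : j = 0
          · subst hj0; simp [hj, h]
          · simp [hj, hj2, hj0]
  | a :: l, s, h => by
      have key : Exec (.ite 0 (.seq (.pop 0) (.seq (.push 2 true) (.push acc true)))
          (.seq (.pop 0) (.seq (.push 2 false) (.push acc true))) .skip) s
          (update (update (update s 0 l) 2 (a :: s 2)) acc (true :: s acc)) 4 := by
        have e1 := Exec.pop 0 s
        rw [h] at e1
        have e2 := Exec.push 2 a (update s 0 l)
        rw [update_of_ne (by omega)] at e2
        have e3 := Exec.push acc true (update (update s 0 l) 2 (a :: s 2))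
        rw [update_of_ne h2, update_of_ne h0] at e3
        cases a
        · exact Exec.ite_false (by rw [h]; rfl) (e1.seq (e2.seq e3))
        · exact Exec.ite_true (by rw [h]; rfl) (e1.seq (e2.seq e3))
      have e3 := lenLoop_exec h0 h2 l (update (update (update s 0 l) 2 (a :: s 2)) acc
        (true :: s acc)) (by
          rw [update_of_ne (Ne.symm h0), update_of_ne (by omega), update_self])
      have e4 := Exec.loop_cons (by rw [h]; simp) key e3
      refine (e4.of_eq ?_).mono (by simp only [List.length_cons]; omega)
      funext j
      by_cases hj : j = acc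
      · subst hj
        simp only [update_self, List.length_cons]
        rw [← un_append l.length 1]
        rfl
      · by_cases hj2 : j = 2
        · subst hj2; simp [hj]
        · by_cases hj0 : j = 0
          · subst hj0; simp [hj]
          · simp [hj, hj2, hj0]

theorem lenP_exec {acc : ℕ} (h0 : acc ≠ 0) (h2 : acc ≠ 2) (s : St) (hY : s 2 = []) :
    Exec (lenP acc) s (update s acc (un (s 0).length ++ s acc)) (9 * (s 0).length + 2) := by
  have e1 := lenLoop_exec h0 h2 (s 0) s rfl
  have e2 := moveD_exec (k := 2) (k' := 0) (by omega) (s 0).reverse
    (update (update (update s 0 []) 2 ((s 0).reverse ++ s 2)) acc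
      (un (s 0).length ++ s acc)) (by
      rw [update_of_ne (Ne.symm h2), update_self, hY, List.append_nil])
  refine ((e1.seq e2).of_eq ?_).mono (by rw [List.length_reverse]; omega)
  funext j
  by_cases hj : j = acc
  · subst hj; simp [h0, h2]
  · by_cases hj2 : j = 2
    · subst hj2; simp [hj, hY]
    · by_cases hj0 : j = 0
      · subst hj0; simp [hj]
      · simp [hj, hj2, hj0]

/-- Program adding to stack `acc` the bit of the input whose position is in stack `k`, emptying
stack `k`. -/
def inpP (k acc : ℕ) : Prog :=
  .seq (.loop k (.seq (.pop k) (.ite 0 (.seq (.pop 0) (.push 2 true))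
    (.seq (.pop 0) (.push 2 false)) .skip)))
  (.seq (.ite 0 (.push acc true) .skip .skip) (moveD 2 0))

theorem inpLoop_exec {k : ℕ} (h0 : k ≠ 0) (h2 : k ≠ 2) : ∀ (n : ℕ) (s : St), s k = un n →
    Exec (.loop k (.seq (.pop k) (.ite 0 (.seq (.pop 0) (.push 2 true))
      (.seq (.pop 0) (.push 2 false)) .skip))) s
      (update (update (update s k []) 2 (((s 0).take n).reverse ++ s 2)) 0 ((s 0).drop n))
      (5 * n + 1)
  | 0, s, h => by
      refine (Exec.loop_nil h).of_eq ?_
      funext j
      by_cases hj0 : j = 0
      · subst hj0; simp
      · by_cases hj2 : j = 2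
        · subst hj2; simp
        · by_cases hj : j = k
          · subst hj; simp [hj2, hj0, h]
          · simp [hj, hj2, hj0]
  | n + 1, s, h => by
      have e1 := Exec.pop k s
      have key : Exec (.ite 0 (.seq (.pop 0) (.push 2 true)) (.seq (.pop 0) (.push 2 false)) .skip)
          (update s k (s k).tail) (update (update (update s k (s k).tail) 2
            (((s 0).take 1).reverse ++ s 2)) 0 ((s 0).drop 1)) 3 := by
        have hs0 : (update s k (s k).tail) 0 = s 0 := update_of_ne (Ne.symm h0) _ _
        rcases hx : s 0 with _ | ⟨a, l⟩
        · refine (Exec.ite_none (by rw [hs0, hx]; rfl) (Exec.skip _)).mono (by omega) |>.of_eq ?_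
          funext j
          by_cases hj0 : j = 0
          · subst hj0; simp [Ne.symm h0, hx]
          · by_cases hj2 : j = 2
            · subst hj2; simp [Ne.symm h2]
            · simp [hj2, hj0]
        · have f1 := Exec.pop 0 (update s k (s k).tail)
          rw [hs0, hx] at f1
          have f2 := Exec.push 2 a (update (update s k (s k).tail) 0 l)
          have fe : update (update (update s k (s k).tail) 0 l) 2
              (a :: update (update s k (s k).tail) 0 l 2) =
              update (update (update s k (s k).tail) 2
                (((a :: l).take 1).reverse ++ s 2)) 0 ((a :: l).drop 1) := by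
            funext j
            by_cases hj0 : j = 0
            · subst hj0; simp
            · by_cases hj2 : j = 2
              · subst hj2; simp [Ne.symm h2]
              · simp [hj2, hj0]
          rw [← fe]
          cases a
          · exact Exec.ite_false (by rw [hs0, hx]; rfl) (f1.seq f2)
          · exact Exec.ite_true (by rw [hs0, hx]; rfl) (f1.seq f2)
      have e3 := inpLoop_exec h0 h2 n (update (update (update s k (s k).tail) 2
            (((s 0).take 1).reverse ++ s 2)) 0 ((s 0).drop 1)) (by
            rw [update_of_ne h0, update_of_ne h2, update_self, h]; rfl)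
      have e4 := Exec.loop_cons (by rw [h]; simp [un_succ]) (e1.seq key) e3
      refine (e4.of_eq ?_).mono (by omega)
      funext j
      by_cases hj0 : j = 0
      · subst hj0; simp
      · by_cases hj2 : j = 2
        · subst hj2
          simp only [update_self, update_of_ne hj0, ← List.append_assoc, ← List.reverse_append]
          congr 2
          rw [← List.take_add, add_comm]
        · by_cases hj : j = k
          · subst hj; simp [hj2, hj0]
          · simp [hj, hj2, hj0]

theorem inpP_exec {k acc : ℕ} (h0 : k ≠ 0) (h2 : k ≠ 2) (a0 : acc ≠ 0) (a2 : acc ≠ 2)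
    (n : ℕ) (s : St) (hk : s k = un n) (hY : s 2 = []) :
    Exec (inpP k acc) s (update (update s k []) acc (un ((s 0).getD n false).toNat ++
      (update s k []) acc)) (5 * n + 4 * (s 0).length + 4) := by
  have e1 := inpLoop_exec h0 h2 n s hk
  set s1 := update (update (update s k []) 2 (((s 0).take n).reverse ++ s 2)) 0 ((s 0).drop n)
    with hs1
  have s10 : s1 0 = (s 0).drop n := by rw [hs1, update_self]
  have hb : Exec (.ite 0 (.push acc true) .skip .skip) s1
      (update s1 acc (un ((s 0).getD n false).toNat ++ s1 acc)) 2 := by
    rw [List.getD_eq_getElem?_getD]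
    rcases hb : (s 0)[n]? with _ | b
    · have : (s1 0).head? = none := by
        rw [s10, List.head?_drop, hb]
      refine (Exec.ite_none this (Exec.skip _)).of_eq ?_
      simp
    · cases b
      · have : (s1 0).head? = some false := by
          rw [s10, List.head?_drop, hb]
        refine (Exec.ite_false this (Exec.skip _)).of_eq ?_
        simp
      · have : (s1 0).head? = some true := by
          rw [s10, List.head?_drop, hb]
        refine (Exec.ite_true this (Exec.push acc true s1)).of_eq ?_
        simp
  have e3 := moveD_exec (k := 2) (k' := 0) (by omega) ((s 0).take n).reverse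
    (update s1 acc (un ((s 0).getD n false).toNat ++ s1 acc)) (by
      rw [update_of_ne (Ne.symm a2), hs1, update_of_ne (by omega), update_self, hY,
        List.append_nil])
  refine ((e1.seq (hb.seq e3)).of_eq ?_).mono (by
    rw [List.length_reverse, List.length_take]
    have : min n (s 0).length ≤ (s 0).length := min_le_right _ _
    omega)
  funext j
  by_cases hj : j = acc
  · subst hj
    simp [a0, a2, hs1]
  · by_cases hj2 : j = 2
    · subst hj2; simp [hj, hY, Ne.symm h2]
    · by_cases hj0 : j = 0
      · subst hj0; simp [hj, hs1, Ne.symm h0]
      · simp [hj, hj2, hj0, hs1]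

namespace Expr

/-- The program adding the value of an expression to stack `acc`, using the temporary stacks of
level at least `d`. -/
def comp : Expr → (d acc : ℕ) → Prog
  | var i, d, acc => .seq (copyU (rV i) (rA d) acc) (moveU (rA d) (rV i))
  | const c, _, acc => pushes acc c
  | len, _, acc => lenP acc
  | inp e, d, acc => .seq (comp e (d + 1) (rA d)) (inpP (rA d) acc)
  | add a b, d, acc => .seq (comp a d acc) (comp b d acc)
  | sub a b, d, acc =>
      .seq (comp a (d + 1) (rA d)) (.seq (comp b (d + 1) (rB d))
        (.seq (.loop (rB d) (.seq (.pop (rB d)) (.pop (rA d)))) (moveU (rA d) acc)))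
  | sum v b e, d, acc =>
      .seq (comp b (d + 1) (rA d)) (.seq (moveU (rV v) (rS d))
        (.seq (.loop (rA d) (.seq (.pop (rA d)) (.seq (comp e (d + 1) acc) (.push (rV v) true))))
          (.seq (clear (rV v)) (moveU (rS d) (rV v)))))
  | letE v a e, d, acc =>
      .seq (comp a (d + 1) (rA d)) (.seq (moveU (rV v) (rS d)) (.seq (moveU (rA d) (rV v))
        (.seq (comp e (d + 1) acc) (.seq (clear (rV v)) (moveU (rS d) (rV v))))))

end Expr

theorem subLoop_exec {a b : ℕ} (hab : a ≠ b) : ∀ (n m : ℕ) (s : St), s a = un m → s b = un n →
    Exec (.loop b (.seq (.pop b) (.pop a))) s (update (update s b []) a (un (m - n))) (3 * n + 1)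
  | 0, m, s, ha, hb => by
      refine (Exec.loop_nil hb).of_eq ?_
      funext j
      by_cases hj : j = a
      · subst hj; simp [ha]
      · by_cases hj2 : j = b
        · subst hj2; simp [hj, hb]
        · simp [hj, hj2]
  | n + 1, m, s, ha, hb => by
      have e1 := Exec.pop b s
      have e2 := Exec.pop a (update s b (s b).tail)
      have e3 := subLoop_exec hab n (m - 1) (update (update s b (s b).tail) a
        ((update s b (s b).tail) a).tail) (by
          rw [update_self, update_of_ne hab, ha]
          cases m <;> rfl) (by
          rw [update_of_ne (Ne.symm hab), update_self, hb]; rfl)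
      have e4 := Exec.loop_cons (by rw [hb]; simp [un_succ]) (e1.seq e2) e3
      refine (e4.of_eq ?_).mono (by omega)
      funext j
      by_cases hj : j = a
      · subst hj
        simp only [update_self]
        congr 1
        omega
      · by_cases hj2 : j = b
        · subst hj2; simp [hj]
        · simp [hj, hj2]


/-- The loop of a bounded sum. -/
theorem sumLoop_exec {x : List Bool} {d acc v : ℕ} {P : Prog} {F : ℕ → ℕ} {T : ℕ}
    {env : ℕ → ℕ} (hacc : Free d acc) (B : ℕ)
    (hP : ∀ (i : ℕ) (s : St), i < B → Good x (update env v i) (d + 1) s →
      Exec P s (update s acc (un (F i) ++ s acc)) T) :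
    ∀ (m i : ℕ) (s : St), i + m = B → Good x (update env v i) (d + 1) s → s (rA d) = un m →
      Exec (.loop (rA d) (.seq (.pop (rA d)) (.seq P (.push (rV v) true)))) s
        (update (update (update s (rA d) []) (rV v) (un (i + m))) acc
          (un (∑ j ∈ Finset.range m, F (i + j)) ++ s acc)) (m * (3 + T) + 1)
  | 0, i, s, _, hg, hA => by
      refine ((Exec.loop_nil hA).of_eq ?_).mono (by omega)
      funext j
      by_cases hj : j = acc
      · subst hj; simp
      · by_cases hj1 : j = rV v
        · subst hj1; simp [hj, hg.hV v]
        · by_cases hj2 : j = rA d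
          · subst hj2; simp [hj, hj1, hA]
          · simp [hj, hj1, hj2]
  | m + 1, i, s, hB, hg, hA => by
      have a1 : acc ≠ rA d := by unfold Free at hacc; unfold rA; omega
      have a2 : acc ≠ rV v := by unfold Free at hacc; unfold rV; omega
      have a3 : rA d ≠ rV v := by unfold rA rV; omega
      have e1 := Exec.pop (rA d) s
      have hA' : (s (rA d)).tail = un m := by rw [hA]; rfl
      rw [hA'] at e1
      have g1 : Good x (update env v i) (d + 1) (update s (rA d) (un m)) := hg.upd (free_A d) _
      have e2 := hP i _ (by omega) g1
      have e3 := Exec.push (rV v) true (update (update s (rA d) (un m)) acc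
        (un (F i) ++ (update s (rA d) (un m)) acc))
      have g2 := (g1.upd (hacc.mono (Nat.le_succ d)) (un (F i) ++
        (update s (rA d) (un m)) acc)).updV v (i + 1)
      rw [update_idem] at g2
      have hv : (true :: (update (update s (rA d) (un m)) acc
        (un (F i) ++ (update s (rA d) (un m)) acc)) (rV v)) = un (i + 1) := by
        rw [update_of_ne (Ne.symm a2), update_of_ne (Ne.symm a3), hg.hV v, update_self]
        rfl
      rw [hv] at e3
      have e4 := sumLoop_exec hacc B hP m (i + 1) _ (by omega) g2 (by
        rw [update_of_ne a3, update_of_ne (Ne.symm a1), update_self])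
      have e5 := Exec.loop_cons (by rw [hA]; simp [un_succ]) (e1.seq (e2.seq e3)) e4
      refine (e5.of_eq ?_).mono (by ring_nf; omega)
      funext j
      by_cases hj : j = acc
      · subst hj
        simp only [update_self, update_of_ne a2, update_of_ne a1]
        rw [← List.append_assoc, ← List.replicate_add,
          Finset.sum_range_succ' (fun j => F (i + j)) m]
        congr 2
        congr 1
        refine Finset.sum_congr rfl fun k _ => ?_
        congr 1
        omega
      · by_cases hj1 : j = rV v
        · subst hj1
          simp only [update_self, update_of_ne hj]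
          congr 1
          omega
        · by_cases hj2 : j = rA d
          · subst hj2; simp [hj, hj1]
          · simp [hj, hj1, hj2]

/-- **Correctness of the compiler.** -/
theorem Expr.comp_exec (x : List Bool) : ∀ (e : Expr) (env : ℕ → ℕ) (d acc : ℕ) (s : St) (N : ℕ),
    Good x env d s → Free d acc → x.length ≤ N → (∀ i, env i ≤ N) →
    Exec (e.comp d acc) s (update s acc (un (e.eval x env) ++ s acc)) (e.tP.eval N)
  | .var i, env, d, acc, s, N, hg, hacc, _, henv => by
      have a1 : acc ≠ rA d := by unfold Free at hacc; unfold rA; omega
      have a2 : acc ≠ rV i := by unfold Free at hacc; unfold rV; omega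
      have a3 : rA d ≠ rV i := by unfold rA rV; omega
      have e1 := copyU_exec (Ne.symm a3) (Ne.symm a2) (Ne.symm a1) (env i) s (hg.hV i)
      have e2 := moveU_exec a3 (env i) _ (show (update (update (update s (rV i) []) (rA d)
        (un (env i) ++ s (rA d))) acc (un (env i) ++ s acc)) (rA d) = un (env i) by
          rw [update_of_ne (Ne.symm a1), update_self, hg.hA d le_rfl, List.append_nil])
      refine ((e1.seq e2).of_eq ?_).mono (by
        have := henv i
        simp only [Expr.tP, Polynomial.eval_add, Polynomial.eval_mul, Polynomial.eval_X,
          Polynomial.eval_ofNat]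
        omega)
      funext j
      by_cases hj : j = acc
      · subst hj; simp [Expr.eval, a1, a2]
      · by_cases hj1 : j = rV i
        · subst hj1
          simp only [update_self, update_of_ne hj, update_of_ne (Ne.symm a3), List.append_nil]
          rw [hg.hV i]
        · by_cases hj2 : j = rA d
          · subst hj2
            simp only [update_self, update_of_ne hj, update_of_ne a3]
            rw [hg.hA d le_rfl]
          · simp [hj, hj1, hj2]
  | .const c, env, d, acc, s, N, _, _, _, _ => by
      simp only [Expr.comp, Expr.eval, Expr.tP, Polynomial.eval_C]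
      exact pushes_exec acc c s
  | .len, env, d, acc, s, N, hg, hacc, hx, _ => by
      have e := lenP_exec (acc := acc) (by unfold Free at hacc; omega)
        (by unfold Free at hacc; omega) s hg.hY
      rw [hg.hX] at e
      refine e.mono ?_
      simp only [Expr.tP, Polynomial.eval_add, Polynomial.eval_mul, Polynomial.eval_X,
          Polynomial.eval_ofNat]
      omega
  | .inp e, env, d, acc, s, N, hg, hacc, hx, henv => by
      have a1 : acc ≠ rA d := by unfold Free at hacc; unfold rA; omega
      have a0 : acc ≠ 0 := by unfold Free at hacc; omega
      have a2 : acc ≠ 2 := by unfold Free at hacc; omega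
      have e1 := comp_exec x e env (d + 1) (rA d) s N (hg.mono (by omega)) (free_A d) hx henv
      rw [hg.hA d le_rfl, List.append_nil] at e1
      have e2 := inpP_exec (k := rA d) (acc := acc) (by unfold rA; omega) (by unfold rA; omega)
        a0 a2 (e.eval x env) (update s (rA d) (un (e.eval x env))) (update_self _ _ _)
        (by rw [update_of_ne (by unfold rA; omega)]; exact hg.hY)
      have hv := Expr.eval_le x e env N hx henv
      have h0 : (update s (rA d) (un (e.eval x env))) 0 = x := by
        rw [update_of_ne (by unfold rA; omega)]; exact hg.hX
      rw [h0] at e2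
      refine ((e1.seq e2).of_eq ?_).mono (by
        simp only [Expr.tP, Polynomial.eval_add, Polynomial.eval_mul, Polynomial.eval_X,
          Polynomial.eval_ofNat]
        omega)
      rw [update_idem]
      funext j
      by_cases hj : j = acc
      · subst hj; simp [Expr.eval, a1]
      · by_cases hj2 : j = rA d
        · subst hj2; simp [hj, hg.hA d le_rfl]
        · simp [hj, hj2]
  | .add a b, env, d, acc, s, N, hg, hacc, hx, henv => by
      have e1 := comp_exec x a env d acc s N hg hacc hx henv
      have e2 := comp_exec x b env d acc _ N (hg.upd hacc (un (a.eval x env) ++ s acc)) hacc hx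
        henv
      refine ((e1.seq e2).of_eq ?_).mono (by simp only [Expr.tP, Polynomial.eval_add]; omega)
      rw [update_idem, update_self, un_append, Expr.eval, add_comm (a.eval x env)]
  | .sub a b, env, d, acc, s, N, hg, hacc, hx, henv => by
      have a1 : acc ≠ rA d := by unfold Free at hacc; unfold rA; omega
      have a2 : acc ≠ rB d := by unfold Free at hacc; unfold rB; omega
      have a3 : rA d ≠ rB d := by unfold rA rB; omega
      have e1 := comp_exec x a env (d + 1) (rA d) s N (hg.mono (by omega)) (free_A d) hx henv
      rw [hg.hA d le_rfl, List.append_nil] at e1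
      have e2 := comp_exec x b env (d + 1) (rB d) _ N
        ((hg.mono (Nat.le_succ d)).upd (free_A d) (un (a.eval x env))) (free_B d) hx henv
      rw [update_of_ne (Ne.symm a3), hg.hB d le_rfl, List.append_nil] at e2
      have e3 := subLoop_exec a3 (b.eval x env) (a.eval x env)
        (update (update s (rA d) (un (a.eval x env))) (rB d) (un (b.eval x env)))
        (by rw [update_of_ne a3, update_self]) (update_self _ _ _)
      have e4 := moveU_exec (Ne.symm a1) (a.eval x env - b.eval x env) _ (show (update (update
        (update (update s (rA d) (un (a.eval x env))) (rB d) (un (b.eval x env)))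
        (rB d) []) (rA d) (un (a.eval x env - b.eval x env))) (rA d) =
          un (a.eval x env - b.eval x env) from update_self _ _ _)
      have hva := Expr.eval_le x a env N hx henv
      have hvb := Expr.eval_le x b env N hx henv
      refine ((e1.seq (e2.seq (e3.seq e4))).of_eq ?_).mono (by
        simp only [Expr.tP, Polynomial.eval_add, Polynomial.eval_mul,
          Polynomial.eval_ofNat]
        omega)
      funext j
      by_cases hj : j = acc
      · subst hj; simp [Expr.eval, a1, a2]
      · by_cases hj1 : j = rA d
        · subst hj1; simp [hj, hg.hA d le_rfl]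
        · by_cases hj2 : j = rB d
          · subst hj2; simp [hj, hg.hB d le_rfl]
          · simp [hj, hj1, hj2]
  | .sum v b e, env, d, acc, s, N, hg, hacc, hx, henv => by
      have a1 : acc ≠ rA d := by unfold Free at hacc; unfold rA; omega
      have a2 : acc ≠ rS d := by unfold Free at hacc; unfold rS; omega
      have a3 : acc ≠ rV v := by unfold Free at hacc; unfold rV; omega
      have a4 : rA d ≠ rV v := by unfold rA rV; omega
      have a5 : rS d ≠ rV v := by unfold rS rV; omega
      have a6 : rA d ≠ rS d := by unfold rA rS; omega
      have e1 := comp_exec x b env (d + 1) (rA d) s N (hg.mono (by omega)) (free_A d) hx henv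
      rw [hg.hA d le_rfl, List.append_nil] at e1
      have hvb := Expr.eval_le x b env N hx henv
      set B := b.eval x env with hB
      have g1 : Good x env (d + 1) (update s (rA d) (un B)) :=
        (hg.mono (Nat.le_succ d)).upd (free_A d) (un B)
      have e2 := moveU_exec (Ne.symm a5) (env v) _ (g1.hV v)
      have hS0 : (update s (rA d) (un B)) (rS d) = [] := by
        rw [update_of_ne (Ne.symm a6)]; exact hg.hS d le_rfl
      rw [hS0, List.append_nil] at e2
      have g2 : Good x (update env v 0) (d + 1)
          (update (update (update s (rA d) (un B)) (rV v) []) (rS d) (un (env v))) :=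
        (g1.updV v 0).upd (free_S d) _
      have e3 := sumLoop_exec (P := e.comp (d + 1) acc) (F := fun i => e.eval x (update env v i))
        (T := e.tP.eval (N + b.bP.eval N)) hacc B (fun i s' hi hg' => by
          refine comp_exec x e (update env v i) (d + 1) acc s' _ hg' (hacc.mono (by omega))
            (by omega) ?_
          intro j
          by_cases hj : j = v
          · subst hj; rw [update_self]; omega
          · rw [update_of_ne hj]; have := henv j; omega) B 0 _ (by omega) g2 (by
            rw [update_of_ne a6, update_of_ne a4, update_self])
      simp only [zero_add] at e3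
      have e4 := clear_exec (k := rV v) (un B) (update (update (update (update (update
        (update s (rA d) (un B)) (rV v) []) (rS d) (un (env v))) (rA d) []) (rV v) (un B)) acc
          (un (∑ j ∈ Finset.range B, e.eval x (update env v j)) ++ (update (update (update s (rA d)
            (un B)) (rV v) []) (rS d) (un (env v))) acc)) (by
              rw [update_of_ne (Ne.symm a3), update_self])
      have e5 := moveU_exec a5 (env v) (update (update (update (update (update (update
        (update s (rA d) (un B)) (rV v) []) (rS d) (un (env v))) (rA d) []) (rV v) (un B)) acc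
          (un (∑ j ∈ Finset.range B, e.eval x (update env v j)) ++ (update (update (update s (rA d)
            (un B)) (rV v) []) (rS d) (un (env v))) acc)) (rV v) []) (by
              rw [update_of_ne a5, update_of_ne (Ne.symm a2), update_of_ne a5,
                update_of_ne (Ne.symm a6), update_self])
      have hT : B * (3 + e.tP.eval (N + b.bP.eval N)) ≤
          b.bP.eval N * (3 + e.tP.eval (N + b.bP.eval N)) := Nat.mul_le_mul_right _ hvb
      refine ((e1.seq (e2.seq (e3.seq (e4.seq e5)))).of_eq ?_).mono (by
        have := henv v
        simp only [Expr.tP, Polynomial.eval_add, Polynomial.eval_mul, Polynomial.eval_X,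
          Polynomial.eval_ofNat, Polynomial.eval_comp, List.length_replicate]
        omega)
      funext j
      by_cases hj : j = acc
      · subst hj; simp [Expr.eval, a1, a2, a3, hB]
      · by_cases hj1 : j = rV v
        · subst hj1
          simp only [update_self, update_of_ne hj, List.append_nil]
          rw [hg.hV v]
        · by_cases hj2 : j = rS d
          · subst hj2; simp [hj, hj1, hg.hS d le_rfl]
          · by_cases hj3 : j = rA d
            · subst hj3; simp [hj, hj1, hg.hA d le_rfl]
            · simp [hj, hj1, hj2, hj3]
  | .letE v a e, env, d, acc, s, N, hg, hacc, hx, henv => by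
      have a1 : acc ≠ rA d := by unfold Free at hacc; unfold rA; omega
      have a2 : acc ≠ rS d := by unfold Free at hacc; unfold rS; omega
      have a3 : acc ≠ rV v := by unfold Free at hacc; unfold rV; omega
      have a4 : rA d ≠ rV v := by unfold rA rV; omega
      have a5 : rS d ≠ rV v := by unfold rS rV; omega
      have a6 : rA d ≠ rS d := by unfold rA rS; omega
      have e1 := comp_exec x a env (d + 1) (rA d) s N (hg.mono (by omega)) (free_A d) hx henv
      rw [hg.hA d le_rfl, List.append_nil] at e1
      have hva := Expr.eval_le x a env N hx henv
      set B := a.eval x env with hB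
      have g1 : Good x env (d + 1) (update s (rA d) (un B)) :=
        (hg.mono (Nat.le_succ d)).upd (free_A d) (un B)
      have e2 := moveU_exec (Ne.symm a5) (env v) _ (g1.hV v)
      have hS0 : (update s (rA d) (un B)) (rS d) = [] := by
        rw [update_of_ne (Ne.symm a6)]; exact hg.hS d le_rfl
      rw [hS0, List.append_nil] at e2
      have e3 := moveU_exec a4 B (update (update (update s (rA d) (un B)) (rV v) []) (rS d)
        (un (env v))) (by rw [update_of_ne a6, update_of_ne a4, update_self])
      have hV0 : (update (update (update s (rA d) (un B)) (rV v) []) (rS d)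
        (un (env v))) (rV v) = [] := by
        rw [update_of_ne (Ne.symm a5), update_self]
      rw [hV0, List.append_nil] at e3
      have g2 : Good x (update env v B) (d + 1)
          (update (update (update (update (update s (rA d) (un B)) (rV v) []) (rS d) (un (env v)))
            (rA d) []) (rV v) (un B)) := by
        have g3 := ((((g1.updV v 0).upd (free_S d) (un (env v))).upd (free_A d) []).updV v B)
        rwa [update_idem] at g3
      have e4 := comp_exec x e (update env v B) (d + 1) acc _ (N + a.bP.eval N) g2
        (hacc.mono (by omega)) (by omega) (by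
          intro j
          by_cases hj : j = v
          · subst hj; rw [update_self]; omega
          · rw [update_of_ne hj]; have := henv j; omega)
      set s4 := (update (update (update (update (update s (rA d) (un B)) (rV v) []) (rS d)
        (un (env v))) (rA d) []) (rV v) (un B)) with hs4
      have e5 := clear_exec (k := rV v) (un B)
        (update s4 acc (un (e.eval x (update env v B)) ++ s4 acc)) (by
          rw [update_of_ne (Ne.symm a3), hs4, update_self])
      have e6 := moveU_exec a5 (env v)
        (update (update s4 acc (un (e.eval x (update env v B)) ++ s4 acc)) (rV v) []) (by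
          rw [update_of_ne a5, update_of_ne (Ne.symm a2), hs4, update_of_ne a5,
            update_of_ne (Ne.symm a6), update_self])
      refine ((e1.seq (e2.seq (e3.seq (e4.seq (e5.seq e6))))).of_eq ?_).mono (by
        have := henv v
        simp only [Expr.tP, Polynomial.eval_add, Polynomial.eval_mul, Polynomial.eval_X,
          Polynomial.eval_ofNat, Polynomial.eval_comp, List.length_replicate]
        omega)
      funext j
      by_cases hj : j = acc
      · subst hj; simp [Expr.eval, a1, a2, a3, hB, hs4]
      · by_cases hj1 : j = rV v
        · subst hj1
          simp only [update_self, update_of_ne hj, List.append_nil]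
          rw [hg.hV v]
        · by_cases hj2 : j = rS d
          · subst hj2; simp [hj, hj1, hg.hS d le_rfl]
          · by_cases hj3 : j = rA d
            · subst hj3; simp [hj, hj1, hg.hA d le_rfl, hs4]
            · simp [hj, hj1, hj2, hj3, hs4]

end Pool.Agent.PolyTime
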