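import Mathlib
import Pool.Agent.Lib.PolyTime.Comp

/-!
# Functions described by expressions are computable in polynomial time
-/

namespace Pool.Agent.PolyTime

open Turing Function
open Polynomial (X C)

/-- The output loop. -/
theorem outLoop_exec {x : List Bool} {P : Prog} {G : ℕ → List Bool} {T : ℕ} (B : ℕ)
    (hP : ∀ (i : ℕ) (s : St), i < B → Good x (update (fun _ => 0) 0 i) 1 s → s (rB 0) = [] →
      Exec P s (update s (rS 0) ((G i).reverse ++ s (rS 0))) T) :
    ∀ (m i : ℕ) (s : St), i + m = B → Good x (update (fun _ => 0) 0 i) 1 s → s (rB 0) = [] →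
      s (rA 0) = un m →
      Exec (.loop (rA 0) (.seq (.pop (rA 0)) (.seq P (.push (rV 0) true)))) s
        (update (update (update s (rA 0) []) (rV 0) (un (i + m))) (rS 0)
          (((List.range m).flatMap (fun j => G (i + j))).reverse ++ s (rS 0))) (m * (3 + T) + 1)
  | 0, i, s, _, hg, _, hA => by
      refine ((Exec.loop_nil hA).of_eq ?_).mono (by omega)
      funext j
      by_cases hj : j = rS 0
      · subst hj; simp
      · by_cases hj1 : j = rV 0
        · subst hj1; simp [hj, hg.hV 0]
        · by_cases hj2 : j = rA 0
          · subst hj2; simp [hj, hj1, hA]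
          · simp [hj, hj1, hj2]
  | m + 1, i, s, hB, hg, hBB, hA => by
      have a1 : rS 0 ≠ rA 0 := by unfold rS rA; omega
      have a2 : rS 0 ≠ rV 0 := by unfold rS rV; omega
      have a3 : rA 0 ≠ rV 0 := by unfold rA rV; omega
      have b1 : rB 0 ≠ rA 0 := by unfold rB rA; omega
      have b2 : rB 0 ≠ rV 0 := by unfold rB rV; omega
      have b3 : rB 0 ≠ rS 0 := by unfold rB rS; omega
      have e1 := Exec.pop (rA 0) s
      have hA' : (s (rA 0)).tail = un m := by rw [hA]; rfl
      rw [hA'] at e1
      have g1 : Good x (update (fun _ => 0) 0 i) 1 (update s (rA 0) (un m)) :=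
        hg.upd (free_A 0) _
      have e2 := hP i _ (by omega) g1 (by rw [update_of_ne b1]; exact hBB)
      have e3 := Exec.push (rV 0) true (update (update s (rA 0) (un m)) (rS 0)
        ((G i).reverse ++ (update s (rA 0) (un m)) (rS 0)))
      have g2 := (g1.upd (free_S 0) ((G i).reverse ++
        (update s (rA 0) (un m)) (rS 0))).updV 0 (i + 1)
      rw [update_idem] at g2
      have hv : (true :: (update (update s (rA 0) (un m)) (rS 0)
        ((G i).reverse ++ (update s (rA 0) (un m)) (rS 0))) (rV 0)) = un (i + 1) := by
        rw [update_of_ne (Ne.symm a2), update_of_ne (Ne.symm a3), hg.hV 0, update_self]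
        rfl
      rw [hv] at e3
      have e4 := outLoop_exec B hP m (i + 1) _ (by omega) g2 (by
        rw [update_of_ne b2, update_of_ne b3, update_of_ne b1]; exact hBB) (by
        rw [update_of_ne a3, update_of_ne (Ne.symm a1), update_self])
      have e5 := Exec.loop_cons (by rw [hA]; simp [un_succ]) (e1.seq (e2.seq e3)) e4
      refine (e5.of_eq ?_).mono (by ring_nf; omega)
      funext j
      by_cases hj : j = rS 0
      · subst hj
        simp only [update_self, update_of_ne a2, update_of_ne a1]
        rw [← List.append_assoc, ← List.reverse_append]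
        congr 2
        rw [List.range_succ_eq_map, List.flatMap_cons, List.flatMap_map]
        congr 1
        refine List.flatMap_congr fun k _ => ?_
        congr 1
        omega
      · by_cases hj1 : j = rV 0
        · subst hj1
          simp only [update_self, update_of_ne hj]
          congr 1
          omega
        · by_cases hj2 : j = rA 0
          · subst hj2; simp [hj, hj1]
          · simp [hj, hj1, hj2]

/-- Main program. -/
def mainP (L : Expr) (P : Prog) : Prog :=
  .seq (L.comp 1 (rA 0)) (.seq
    (.loop (rA 0) (.seq (.pop (rA 0)) (.seq P (.push (rV 0) true))))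
    (.seq (clear (rV 0)) (.seq (clear 0) (moveD (rS 0) 1))))

theorem good_inSt (x : List Bool) : Good x (fun _ => 0) 0 (Prog.inSt x) := by
  unfold Prog.inSt
  refine ⟨update_self _ _ _, ?_, fun i => ?_, fun e _ => ?_, fun e _ => ?_, fun e _ => ?_⟩
  · rw [update_of_ne (by omega)]
  · rw [update_of_ne (by unfold rV; omega)]; rfl
  · rw [update_of_ne (by unfold rA; omega)]
  · rw [update_of_ne (by unfold rB; omega)]
  · rw [update_of_ne (by unfold rS; omega)]

theorem genOut (L : Expr) (P : Prog) (G : List Bool → ℕ → List Bool) (T g : Polynomial ℕ)
    (hP : ∀ (x : List Bool) (i : ℕ) (s : St) (N : ℕ), x.length ≤ N → i ≤ N →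
      Good x (update (fun _ => 0) 0 i) 1 s → s (rB 0) = [] →
      Exec P s (update s (rS 0) ((G x i).reverse ++ s (rS 0))) (T.eval N))
    (hg : ∀ (x : List Bool) (i : ℕ) (N : ℕ), x.length ≤ N → i ≤ N →
      (G x i).length ≤ g.eval N) :
    Nonempty (TM2ComputableInPolyTime (id : List Bool → List Bool) (id : List Bool → List Bool)
      (fun x => (List.range (L.eval x (fun _ => 0))).flatMap (G x))) := by
  refine Prog.computable (mainP L P) _
    (L.tP + L.bP * (3 + T.comp (X + L.bP)) + 1 + (2 * L.bP + 1) + (2 * X + 1) +
      (4 * (L.bP * g.comp (X + L.bP)) + 1)) (fun x => ?_)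
  set N := x.length with hN
  set B := L.eval x (fun _ => 0) with hB
  have hBle : B ≤ L.bP.eval N := Expr.eval_le x L _ N le_rfl (fun _ => Nat.zero_le _)
  have g0 := (good_inSt x).mono (Nat.le_succ 0)
  have e1 := Expr.comp_exec x L (fun _ => 0) 1 (rA 0) _ N g0 (free_A 0) le_rfl
    (fun _ => Nat.zero_le _)
  rw [(good_inSt x).hA 0 le_rfl, List.append_nil] at e1
  have g1 : Good x (update (fun _ => 0) 0 0) 1 (update (Prog.inSt x) (rA 0) (un B)) := by
    have := g0.upd (free_A 0) (un B)
    rwa [show update (fun _ : ℕ => 0) 0 0 = fun _ => 0 by
      funext j; by_cases hj : j = 0 <;> simp [hj]]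
  have a1 : rS 0 ≠ rA 0 := by unfold rS rA; omega
  have a2 : rS 0 ≠ rV 0 := by unfold rS rV; omega
  have a3 : rA 0 ≠ rV 0 := by unfold rA rV; omega
  have b1 : rB 0 ≠ rA 0 := by unfold rB rA; omega
  have e2 := outLoop_exec (x := x) (P := P) (G := G x) (T := T.eval (N + L.bP.eval N)) B
    (fun i s hi hgood hBB => hP x i s _ (by omega) (by omega) hgood hBB) B 0 _ (by omega) g1 (by
      rw [update_of_ne b1]; exact (good_inSt x).hB 0 le_rfl) (update_self _ _ _)
  simp only [zero_add] at e2
  have hS0 : (update (Prog.inSt x) (rA 0) (un B)) (rS 0) = [] := by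
    rw [update_of_ne a1]; exact (good_inSt x).hS 0 le_rfl
  rw [hS0, List.append_nil] at e2
  set out := (List.range B).flatMap (G x) with hout
  have e3 := clear_exec (k := rV 0) (un B) (update (update (update (update (Prog.inSt x) (rA 0)
    (un B)) (rA 0) []) (rV 0) (un B)) (rS 0) out.reverse) (by
      rw [update_of_ne (Ne.symm a2), update_self])
  have e4 := clear_exec (k := 0) x (update (update (update (update (update (Prog.inSt x) (rA 0)
    (un B)) (rA 0) []) (rV 0) (un B)) (rS 0) out.reverse) (rV 0) []) (by
      rw [update_of_ne (by unfold rV; omega), update_of_ne (by unfold rS; omega),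
        update_of_ne (by unfold rV; omega), update_of_ne (by unfold rA; omega),
        update_of_ne (by unfold rA; omega)]
      exact (good_inSt x).hX)
  have e5 := moveD_exec (k := rS 0) (k' := 1) (by unfold rS; omega) out.reverse
    (update (update (update (update (update (update (Prog.inSt x) (rA 0)
    (un B)) (rA 0) []) (rV 0) (un B)) (rS 0) out.reverse) (rV 0) []) 0 []) (by
      rw [update_of_ne (by unfold rS; omega), update_of_ne a2, update_self])
  have hlen : out.length ≤ L.bP.eval N * g.eval (N + L.bP.eval N) := by
    have : out.length ≤ B * g.eval (N + L.bP.eval N) := by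
      rw [hout, List.length_flatMap]
      calc ((List.range B).map (fun i => (G x i).length)).sum
          ≤ ((List.range B).map (fun _ => g.eval (N + L.bP.eval N))).sum := by
            apply List.sum_le_sum
            intro i hi
            rw [List.mem_range] at hi
            exact hg x i _ (by omega) (by omega)
        _ = _ := by simp
    exact le_trans this (Nat.mul_le_mul_right _ hBle)
  have hT : B * (3 + T.eval (N + L.bP.eval N)) ≤
      L.bP.eval N * (3 + T.eval (N + L.bP.eval N)) := Nat.mul_le_mul_right _ hBle
  have := (e1.seq (e2.seq (e3.seq (e4.seq e5))))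
  refine (this.of_eq ?_).mono ?_
  · unfold Prog.inSt Prog.outSt
    funext j
    by_cases hj1 : j = 1
    · subst hj1; simp [rS, rV, rA]
    · by_cases hjS : j = rS 0
      · subst hjS; simp only [update_self, update_of_ne hj1]
      · by_cases hj0 : j = 0
        · subst hj0; simp only [update_self, update_of_ne hj1, update_of_ne hjS]
        · by_cases hjV : j = rV 0
          · subst hjV
            simp only [update_self, update_of_ne hj1, update_of_ne hjS, update_of_ne hj0]
          · by_cases hjA : j = rA 0
            · subst hjA
              simp only [update_self, update_of_ne hj1, update_of_ne hjS, update_of_ne hj0,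
                update_of_ne hjV]
            · simp only [update_of_ne hj1, update_of_ne hjS, update_of_ne hj0,
                update_of_ne hjV, update_of_ne hjA]
  · simp only [Polynomial.eval_add, Polynomial.eval_mul, Polynomial.eval_X, Polynomial.eval_one,
      Polynomial.eval_ofNat, Polynomial.eval_comp, List.length_replicate, List.length_reverse]
    omega

/-- Unary encoding of a list of natural numbers. -/
def unary (l : List ℕ) : List Bool := l.flatMap (fun k => List.replicate k true ++ [false])

/-- Functions whose value is a list of natural numbers given by expressions are computable in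
polynomial time. -/
theorem computable_nats (L B : Expr) :
    Nonempty (TM2ComputableInPolyTime (id : List Bool → List Bool) (id : List Bool → List Bool)
      (fun x => unary ((List.range (L.eval x (fun _ => 0))).map
        (fun i => B.eval x (update (fun _ => 0) 0 i))))) := by
  have := genOut L (.seq (B.comp 1 (rS 0)) (.push (rS 0) false))
    (fun x i => un (B.eval x (update (fun _ => 0) 0 i)) ++ [false]) (B.tP + 1) (B.bP + 1)
    (fun x i s N hx hi hgood _ => ?_) (fun x i N hx hi => ?_)
  · simp only [unary, List.flatMap_map]
    exact this
  · have e1 := Expr.comp_exec x B _ 1 (rS 0) s N hgood (free_S 0) hx (fun j => by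
      by_cases hj : j = 0
      · subst hj; rwa [update_self]
      · rw [update_of_ne hj]; exact Nat.zero_le _)
    have e2 := Exec.push (rS 0) false (update s (rS 0)
      (un (B.eval x (update (fun _ => 0) 0 i)) ++ s (rS 0)))
    refine ((e1.seq e2).of_eq ?_).mono (by simp)
    simp
  · have := Expr.eval_le x B (update (fun _ => 0) 0 i) N hx (fun j => by
      by_cases hj : j = 0
      · subst hj; rwa [update_self]
      · rw [update_of_ne hj]; exact Nat.zero_le _)
    simp
    exact this

/-- Functions whose value is a list of bits given by expressions are computable in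
polynomial time. -/
theorem computable_bits (L B : Expr) :
    Nonempty (TM2ComputableInPolyTime (id : List Bool → List Bool) (id : List Bool → List Bool)
      (fun x => (List.range (L.eval x (fun _ => 0))).map
        (fun i => decide (B.eval x (update (fun _ => 0) 0 i) ≠ 0)))) := by
  have := genOut L (.seq (B.comp 1 (rB 0)) (.seq
      (.ite (rB 0) (.push (rS 0) true) (.push (rS 0) true) (.push (rS 0) false)) (clear (rB 0))))
    (fun x i => [decide (B.eval x (update (fun _ => 0) 0 i) ≠ 0)]) (B.tP + 2 * B.bP + 3) 1
    (fun x i s N hx hi hgood hBB => ?_) (fun x i N hx hi => by simp)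
  · have e : ∀ x, (List.range (L.eval x (fun _ => 0))).flatMap
        (fun i => [decide (B.eval x (update (fun _ => 0) 0 i) ≠ 0)]) =
        (List.range (L.eval x (fun _ => 0))).map
          (fun i => decide (B.eval x (update (fun _ => 0) 0 i) ≠ 0)) := fun x => by
      rw [List.map_eq_flatMap]
    simp only [e] at this
    exact this
  · have henv : ∀ j, (update (fun _ => 0) 0 i : ℕ → ℕ) j ≤ N := fun j => by
      by_cases hj : j = 0
      · subst hj; rwa [update_self]
      · rw [update_of_ne hj]; exact Nat.zero_le _
    have e1 := Expr.comp_exec x B _ 1 (rB 0) s N hgood (free_B 0) hx henv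
    rw [hBB, List.append_nil] at e1
    have hv := Expr.eval_le x B (update (fun _ => 0) 0 i) N hx henv
    set v := B.eval x (update (fun _ => 0) 0 i) with hvdef
    have e2 : Exec (.ite (rB 0) (.push (rS 0) true) (.push (rS 0) true) (.push (rS 0) false))
        (update s (rB 0) (un v)) (update (update s (rB 0) (un v)) (rS 0)
          (decide (v ≠ 0) :: s (rS 0))) 2 := by
      rcases v with _ | v
      · refine (Exec.ite_none (by rw [update_self]; rfl) (Exec.push (rS 0) false _)).of_eq ?_
        simp
      · refine (Exec.ite_true (by rw [update_self]; rfl) (Exec.push (rS 0) true _)).of_eq ?_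
        simp
    have e3 := clear_exec (k := rB 0) (un v) (update (update s (rB 0) (un v)) (rS 0)
          (decide (v ≠ 0) :: s (rS 0))) (by
          rw [update_of_ne (by unfold rB rS; omega), update_self])
    refine ((e1.seq (e2.seq e3)).of_eq ?_).mono (by
      simp only [Polynomial.eval_add, Polynomial.eval_mul, Polynomial.eval_ofNat,
        List.length_replicate]
      omega)
    funext j
    by_cases hjB : j = rB 0
    · subst hjB
      have : rB 0 ≠ rS 0 := by unfold rB rS; omega
      simp only [update_self, update_of_ne this, hBB]
    · by_cases hjS : j = rS 0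
      · subst hjS; simp [hjB]
      · simp [hjB, hjS]

end Pool.Agent.PolyTime
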