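import Mathlib
import Pool.Agent.Lib.PolyTime.Out

/-!
# A calculus of functions described by expressions

`PF F` says that the function `F : List Bool → α → ℕ` (where `α` is a context: `Unit`,
`Unit × ℕ`, `(Unit × ℕ) × ℕ`, …) is given by an expression; `PD P` is the analogue for predicates.
The final results `polyTime_nats`, `polyTime_bits` state that list-valued functions described in
this way are computable in polynomial time (Mathlib's `Turing.TM2ComputableInPolyTime`).
-/

namespace Pool.Agent.PolyTime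

open Function

/-- Contexts: finite tuples of natural numbers. -/
class Ctx (α : Type) where
  dim : ℕ
  env : α → ℕ → ℕ

instance : Ctx Unit where
  dim := 0
  env _ _ := 0

instance {α : Type} [Ctx α] : Ctx (α × ℕ) where
  dim := Ctx.dim α + 1
  env p := update (Ctx.env p.1) (Ctx.dim α) p.2

variable {α : Type} [Ctx α]

/-- `F` is given by an expression. -/
def PF (F : List Bool → α → ℕ) : Prop :=
  ∃ e : Expr, ∀ (x : List Bool) (a : α) (ρ : ℕ → ℕ), (∀ i < Ctx.dim α, ρ i = Ctx.env a i) →
    e.eval x ρ = F x a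

/-- `P` is decided by an expression. -/
def PD (P : List Bool → α → Prop) : Prop := ∃ F, PF F ∧ ∀ x a, P x a ↔ F x a ≠ 0

theorem PF.const (c : ℕ) : PF (fun (_ : List Bool) (_ : α) => c) :=
  ⟨.const c, fun _ _ _ _ => rfl⟩

theorem PF.len : PF (fun (x : List Bool) (_ : α) => x.length) :=
  ⟨.len, fun _ _ _ _ => rfl⟩

theorem PF.snd : PF (fun (_ : List Bool) (p : α × ℕ) => p.2) :=
  ⟨.var (Ctx.dim α), fun x p ρ h => by
    have := h (Ctx.dim α) (Nat.lt_succ_self _)
    show ρ (Ctx.dim α) = p.2
    rw [this]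
    show update (Ctx.env p.1) (Ctx.dim α) p.2 (Ctx.dim α) = p.2
    rw [update_self]⟩

theorem PF.fst {F : List Bool → α → ℕ} (hF : PF F) :
    PF (fun (x : List Bool) (p : α × ℕ) => F x p.1) := by
  obtain ⟨e, he⟩ := hF
  refine ⟨e, fun x p ρ h => he x p.1 ρ fun i hi => ?_⟩
  rw [h i (Nat.lt_succ_of_lt hi)]
  show update (Ctx.env p.1) (Ctx.dim α) p.2 i = _
  rw [update_of_ne (by omega)]

theorem PF.add {F G : List Bool → α → ℕ} (hF : PF F) (hG : PF G) :
    PF (fun x a => F x a + G x a) := by
  obtain ⟨e, he⟩ := hF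
  obtain ⟨f, hf⟩ := hG
  exact ⟨.add e f, fun x a ρ h => by simp only [Expr.eval, he x a ρ h, hf x a ρ h]⟩

theorem PF.sub {F G : List Bool → α → ℕ} (hF : PF F) (hG : PF G) :
    PF (fun x a => F x a - G x a) := by
  obtain ⟨e, he⟩ := hF
  obtain ⟨f, hf⟩ := hG
  exact ⟨.sub e f, fun x a ρ h => by simp only [Expr.eval, he x a ρ h, hf x a ρ h]⟩

theorem PF.inp {F : List Bool → α → ℕ} (hF : PF F) :
    PF (fun x a => (x.getD (F x a) false).toNat) := by
  obtain ⟨e, he⟩ := hF
  exact ⟨.inp e, fun x a ρ h => by simp only [Expr.eval, he x a ρ h]⟩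

theorem PF.congr {F G : List Bool → α → ℕ} (hF : PF F) (h : ∀ x a, F x a = G x a) : PF G := by
  have : F = G := by funext x a; exact h x a
  rwa [← this]

/-- Bounded sums. -/
theorem PF.sum {B : List Bool → α → ℕ} {F : List Bool → α × ℕ → ℕ} (hB : PF B) (hF : PF F) :
    PF (fun x a => ∑ i ∈ Finset.range (B x a), F x (a, i)) := by
  obtain ⟨b, hb⟩ := hB
  obtain ⟨e, he⟩ := hF
  refine ⟨.sum (Ctx.dim α) b e, fun x a ρ h => ?_⟩
  simp only [Expr.eval, hb x a ρ h]
  refine Finset.sum_congr rfl fun i _ => he x (a, i) _ fun j hj => ?_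
  show _ = update (Ctx.env a) (Ctx.dim α) i j
  by_cases hj' : j = Ctx.dim α
  · subst hj'; rw [update_self, update_self]
  · rw [update_of_ne hj', update_of_ne hj']
    exact h j (by have : j < Ctx.dim α + 1 := hj; omega)

/-- Substitution for the last variable. -/
theorem PF.subst {A : List Bool → α → ℕ} {F : List Bool → α × ℕ → ℕ} (hA : PF A) (hF : PF F) :
    PF (fun x a => F x (a, A x a)) := by
  obtain ⟨b, hb⟩ := hA
  obtain ⟨e, he⟩ := hF
  refine ⟨.letE (Ctx.dim α) b e, fun x a ρ h => ?_⟩
  simp only [Expr.eval, hb x a ρ h]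
  refine he x (a, A x a) _ fun j hj => ?_
  show _ = update (Ctx.env a) (Ctx.dim α) (A x a) j
  by_cases hj' : j = Ctx.dim α
  · subst hj'; rw [update_self, update_self]
  · rw [update_of_ne hj', update_of_ne hj']
    exact h j (by have : j < Ctx.dim α + 1 := hj; omega)

theorem PF.mul {F G : List Bool → α → ℕ} (hF : PF F) (hG : PF G) :
    PF (fun x a => F x a * G x a) :=
  (PF.sum hF hG.fst).congr fun x a => by simp

theorem PF.pow {F : List Bool → α → ℕ} (hF : PF F) (k : ℕ) : PF (fun x a => F x a ^ k) := by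
  induction k with
  | zero => exact (PF.const 1).congr fun x a => by simp
  | succ k ih => exact (ih.mul hF).congr fun x a => by rw [pow_succ]

/-! ### Predicates -/

theorem PD.congr {P Q : List Bool → α → Prop} (hP : PD P) (h : ∀ x a, P x a ↔ Q x a) : PD Q := by
  obtain ⟨F, hF, hPF⟩ := hP
  exact ⟨F, hF, fun x a => (h x a).symm.trans (hPF x a)⟩

theorem PF.ne_zero {F : List Bool → α → ℕ} (hF : PF F) : PD (fun x a => F x a ≠ 0) :=
  ⟨F, hF, fun _ _ => Iff.rfl⟩

theorem PD.lt {F G : List Bool → α → ℕ} (hF : PF F) (hG : PF G) :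
    PD (fun x a => F x a < G x a) :=
  (hG.sub hF).ne_zero.congr fun x a => by omega

theorem PD.not {P : List Bool → α → Prop} (hP : PD P) : PD (fun x a => ¬ P x a) := by
  obtain ⟨F, hF, hPF⟩ := hP
  exact ((PF.const 1).sub hF).ne_zero.congr fun x a => by rw [hPF x a]; omega

theorem PD.and {P Q : List Bool → α → Prop} (hP : PD P) (hQ : PD Q) :
    PD (fun x a => P x a ∧ Q x a) := by
  obtain ⟨F, hF, hPF⟩ := hP
  obtain ⟨G, hG, hQG⟩ := hQ
  exact (hF.mul hG).ne_zero.congr fun x a => by
    rw [hPF x a, hQG x a, ne_eq, Nat.mul_eq_zero, not_or]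

theorem PD.or {P Q : List Bool → α → Prop} (hP : PD P) (hQ : PD Q) :
    PD (fun x a => P x a ∨ Q x a) := by
  obtain ⟨F, hF, hPF⟩ := hP
  obtain ⟨G, hG, hQG⟩ := hQ
  exact (hF.add hG).ne_zero.congr fun x a => by
    rw [hPF x a, hQG x a]; omega

theorem PD.le {F G : List Bool → α → ℕ} (hF : PF F) (hG : PF G) :
    PD (fun x a => F x a ≤ G x a) :=
  (PD.lt hG hF).not.congr fun x a => by omega

theorem PD.eq {F G : List Bool → α → ℕ} (hF : PF F) (hG : PF G) :
    PD (fun x a => F x a = G x a) :=
  ((PD.le hF hG).and (PD.le hG hF)).congr fun x a => by omega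

theorem PD.bit {F : List Bool → α → ℕ} (hF : PF F) :
    PD (fun x a => x.getD (F x a) false = true) :=
  hF.inp.ne_zero.congr fun x a => by
    cases x.getD (F x a) false <;> simp

theorem PD.true : PD (fun (_ : List Bool) (_ : α) => True) :=
  (PF.const 1).ne_zero.congr fun x a => by simp

theorem PD.fst {P : List Bool → α → Prop} (hP : PD P) :
    PD (fun (x : List Bool) (p : α × ℕ) => P x p.1) := by
  obtain ⟨F, hF, hPF⟩ := hP
  exact ⟨_, hF.fst, fun x p => hPF x p.1⟩

theorem PD.subst {A : List Bool → α → ℕ} {P : List Bool → α × ℕ → Prop} (hA : PF A) (hP : PD P) :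
    PD (fun x a => P x (a, A x a)) := by
  obtain ⟨F, hF, hPF⟩ := hP
  exact ⟨_, hA.subst hF, fun x a => hPF x _⟩

/-- Bounded existential quantification. -/
theorem PD.exists_lt {B : List Bool → α → ℕ} {P : List Bool → α × ℕ → Prop} (hB : PF B)
    (hP : PD P) : PD (fun x a => ∃ i < B x a, P x (a, i)) := by
  obtain ⟨F, hF, hPF⟩ := hP
  refine (hB.sum hF).ne_zero.congr fun x a => ?_
  rw [ne_eq, Finset.sum_eq_zero_iff]
  push Not
  refine exists_congr fun i => ?_
  rw [Finset.mem_range, hPF]

/-- Bounded universal quantification. -/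
theorem PD.forall_lt {B : List Bool → α → ℕ} {P : List Bool → α × ℕ → Prop} (hB : PF B)
    (hP : PD P) : PD (fun x a => ∀ i < B x a, P x (a, i)) :=
  (PD.exists_lt hB hP.not).not.congr fun x a => by push Not; rfl

/-- Definition by cases. -/
theorem PF.ite {P : List Bool → α → Prop} [∀ x a, Decidable (P x a)] {F G : List Bool → α → ℕ}
    (hP : PD P) (hF : PF F) (hG : PF G) :
    PF (fun x a => if P x a then F x a else G x a) := by
  obtain ⟨H, hH, hPH⟩ := hP
  have h1 : PF (fun x a => 1 - (1 - H x a)) := (PF.const 1).sub ((PF.const 1).sub hH)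
  refine ((h1.mul hF).add (((PF.const 1).sub h1).mul hG)).congr fun x a => ?_
  by_cases h : P x a
  · have h' := (hPH x a).mp h
    rw [if_pos h, show 1 - (1 - H x a) = 1 by omega]
    simp
  · have h' : H x a = 0 := by
      by_contra h0
      exact h ((hPH x a).mpr h0)
    rw [if_neg h, h']
    simp

/-- Counting. -/
theorem PF.count {B : List Bool → α → ℕ} {P : List Bool → α × ℕ → Prop}
    [∀ x a, DecidablePred (fun i => P x (a, i))] (hB : PF B) (hP : PD P) :
    PF (fun x a => ((Finset.range (B x a)).filter (fun i => P x (a, i))).card) := by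
  classical
  have h := hB.sum (PF.ite hP (PF.const 1) (PF.const 0))
  refine h.congr fun x a => ?_
  rw [Finset.card_filter]

theorem PF.div {F G : List Bool → α → ℕ} (hF : PF F) (hG : PF G) :
    PF (fun x a => F x a / G x a) := by
  classical
  have h := PF.count (P := fun x (p : α × ℕ) => (p.2 + 1) * G x p.1 ≤ F x p.1 ∧ G x p.1 ≠ 0) hF
    ((PD.le ((PF.snd.add (PF.const 1)).mul hG.fst) hF.fst).and hG.fst.ne_zero)
  refine h.congr fun x a => ?_
  by_cases h0 : G x a = 0
  · simp [h0]
  · have : (Finset.range (F x a)).filter (fun i => (i + 1) * G x a ≤ F x a ∧ G x a ≠ 0) =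
        Finset.range (F x a / G x a) := by
      ext i
      rw [Finset.mem_filter, Finset.mem_range, Finset.mem_range]
      have h1 : i < F x a / G x a ↔ (i + 1) * G x a ≤ F x a := by
        rw [Nat.lt_iff_add_one_le, Nat.le_div_iff_mul_le (Nat.pos_of_ne_zero h0)]
      rw [h1]
      constructor
      · rintro ⟨_, h2, _⟩; exact h2
      · intro h2
        refine ⟨?_, h2, h0⟩
        have : i + 1 ≤ (i + 1) * G x a := Nat.le_mul_of_pos_right _ (Nat.pos_of_ne_zero h0)
        omega
    simp only [this, Finset.card_range]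

theorem PF.mod {F G : List Bool → α → ℕ} (hF : PF F) (hG : PF G) :
    PF (fun x a => F x a % G x a) :=
  (hF.sub (hG.mul (hF.div hG))).congr fun x a => by
    have := Nat.div_add_mod (F x a) (G x a)
    omega

/-- Finite tables. -/
theorem PF.table' (g : ℕ → ℕ) (C : ℕ) {F : List Bool → α → ℕ} (hF : PF F) :
    PF (fun x a => if F x a < C then g (F x a) else 0) := by
  induction C with
  | zero => exact (PF.const 0).congr fun x a => by simp
  | succ n ih =>
    refine (PF.ite (PD.eq hF (PF.const n)) (PF.const (g n)) ih).congr fun x a => ?_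
    by_cases h : F x a = n
    · simp [h]
    · by_cases h2 : F x a < n
      · rw [if_neg h, if_pos h2, if_pos (by omega)]
      · rw [if_neg h, if_neg h2, if_neg (by omega)]

theorem PF.table (g : ℕ → ℕ) (C : ℕ) {F : List Bool → α → ℕ} (hF : PF F)
    (hlt : ∀ x a, F x a < C) : PF (fun x a => g (F x a)) :=
  (PF.table' g C hF).congr fun x a => by rw [if_pos (hlt x a)]

theorem PF.getD (l : List ℕ) {F : List Bool → α → ℕ} (hF : PF F) :
    PF (fun x a => l.getD (F x a) 0) :=
  (PF.table' (fun k => l.getD k 0) l.length hF).congr fun x a => by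
    by_cases h : F x a < l.length
    · rw [if_pos h]
    · rw [if_neg h, List.getD_eq_default _ _ (by omega)]

theorem PF.sqrt {F : List Bool → α → ℕ} (hF : PF F) : PF (fun x a => Nat.sqrt (F x a)) := by
  classical
  have h := PF.count (P := fun x (p : α × ℕ) => (p.2 + 1) * (p.2 + 1) ≤ F x p.1) hF
    (PD.le ((PF.snd.add (PF.const 1)).mul (PF.snd.add (PF.const 1))) hF.fst)
  refine h.congr fun x a => ?_
  have : (Finset.range (F x a)).filter (fun i => (i + 1) * (i + 1) ≤ F x a) =
      Finset.range (Nat.sqrt (F x a)) := by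
    ext i
    rw [Finset.mem_filter, Finset.mem_range, Finset.mem_range, Nat.lt_iff_add_one_le,
      Nat.lt_iff_add_one_le, Nat.le_sqrt]
    constructor
    · rintro ⟨_, h2⟩; exact h2
    · intro h2
      exact ⟨le_trans (Nat.le_mul_of_pos_right _ (Nat.succ_pos i)) h2, h2⟩
  simp only [this, Finset.card_range]

/-! ### Composition -/

/-- Functions given bit by bit by expressions. -/
def PFBits (f : List Bool → List Bool) : Prop :=
  ∃ (L : List Bool → ℕ) (B : List Bool → ℕ → ℕ), PF (fun x (_ : Unit) => L x) ∧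
    PF (fun x (p : Unit × ℕ) => B x p.2) ∧
    ∀ x, f x = (List.range (L x)).map (fun i => decide (B x i ≠ 0))

theorem PFBits.length {f : List Bool → List Bool} (hf : PFBits f) :
    ∃ e : Expr, ∀ x ρ, e.eval x ρ = (f x).length := by
  obtain ⟨L, B, ⟨e, he⟩, _, hf⟩ := hf
  refine ⟨e, fun x ρ => ?_⟩
  rw [he x () ρ (fun i hi => absurd hi (Nat.not_lt_zero i)), hf x]
  simp

theorem PFBits.getD {f : List Bool → List Bool} (hf : PFBits f) :
    ∃ e : Expr, ∀ x ρ, e.eval x ρ = ((f x).getD (ρ 0) false).toNat := by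
  obtain ⟨L, B, ⟨l, hl⟩, ⟨b, hb⟩, hf⟩ := hf
  -- min 1 (B * [ρ 0 < L])
  refine ⟨.sub (.const 1) (.sub (.const 1) (.sum 1 (.sub (.const 1)
    (.sub (.const 1) (.sub l (.var 0)))) b)), fun x ρ => ?_⟩
  have h1 : l.eval x ρ = L x := hl x () ρ (fun i hi => absurd hi (Nat.not_lt_zero i))
  have h2 : ∀ i, b.eval x (update ρ 1 i) = B x (ρ 0) := by
    intro i
    apply hb x ((), ρ 0) (update ρ 1 i)
    intro j hj
    have : j = 0 := by
      have : j < 0 + 1 := hj
      omega
    subst this
    rw [update_of_ne (by omega)]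
    show ρ 0 = update (fun _ : ℕ => (0 : ℕ)) 0 (ρ 0) 0
    rw [update_self]
  simp only [Expr.eval, h1, h2, Finset.sum_const, Finset.card_range, smul_eq_mul]
  rw [hf x, List.getD_eq_getElem?_getD]
  by_cases hlt : ρ 0 < L x
  · rw [List.getElem?_map, List.getElem?_range hlt]
    simp only [Option.map_some, Option.getD_some]
    rw [show 1 - (1 - (L x - ρ 0)) = 1 by omega, one_mul]
    by_cases hB : B x (ρ 0) = 0
    · simp [hB]
    · rw [show 1 - (1 - B x (ρ 0)) = 1 by omega]
      simp [hB]
  · rw [List.getElem?_eq_none (by simpa using Nat.le_of_not_lt hlt)]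
    rw [show 1 - (1 - (L x - ρ 0)) = 0 by omega]
    simp

/-- Expressions over the output of a function are expressions over the input. -/
theorem Expr.pull {f : List Bool → List Bool} (hf : PFBits f) (e : Expr) :
    ∃ e' : Expr, ∀ x ρ, e'.eval x ρ = e.eval (f x) ρ := by
  induction e with
  | var i => exact ⟨.var i, fun _ _ => rfl⟩
  | const c => exact ⟨.const c, fun _ _ => rfl⟩
  | len => exact hf.length
  | inp e ih =>
    obtain ⟨e', he'⟩ := ih
    obtain ⟨g, hg⟩ := hf.getD
    exact ⟨.letE 0 e' g, fun x ρ => by simp only [Expr.eval, hg, update_self, he']⟩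
  | add a b iha ihb =>
    obtain ⟨a', ha'⟩ := iha
    obtain ⟨b', hb'⟩ := ihb
    exact ⟨.add a' b', fun x ρ => by simp only [Expr.eval, ha', hb']⟩
  | sub a b iha ihb =>
    obtain ⟨a', ha'⟩ := iha
    obtain ⟨b', hb'⟩ := ihb
    exact ⟨.sub a' b', fun x ρ => by simp only [Expr.eval, ha', hb']⟩
  | sum v b e ihb ihe =>
    obtain ⟨b', hb'⟩ := ihb
    obtain ⟨e', he'⟩ := ihe
    exact ⟨.sum v b' e', fun x ρ => by simp only [Expr.eval, hb', he']⟩
  | letE v a e iha ihe =>
    obtain ⟨a', ha'⟩ := iha
    obtain ⟨e', he'⟩ := ihe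
    exact ⟨.letE v a' e', fun x ρ => by simp only [Expr.eval, ha', he']⟩

theorem PF.comp {f : List Bool → List Bool} (hf : PFBits f) {F : List Bool → α → ℕ} (hF : PF F) :
    PF (fun x a => F (f x) a) := by
  obtain ⟨e, he⟩ := hF
  obtain ⟨e', he'⟩ := Expr.pull hf e
  exact ⟨e', fun x a ρ h => by rw [he', he (f x) a ρ h]⟩

theorem PD.comp {f : List Bool → List Bool} (hf : PFBits f) {P : List Bool → α → Prop}
    (hP : PD P) : PD (fun x a => P (f x) a) := by
  obtain ⟨F, hF, hPF⟩ := hP
  exact ⟨_, hF.comp hf, fun x a => hPF _ _⟩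

theorem PFBits.comp {f g : List Bool → List Bool} (hg : PFBits g) (hf : PFBits f) :
    PFBits (fun x => g (f x)) := by
  obtain ⟨L, B, hL, hB, hg⟩ := hg
  exact ⟨fun x => L (f x), fun x => B (f x), hL.comp hf, hB.comp hf, fun x => hg (f x)⟩

/-! ### Polynomial-time computability -/

/-- Functions with values in lists of natural numbers (encoded in unary) given by expressions are
computable in polynomial time. -/
theorem polyTime_nats {L : List Bool → ℕ} {B : List Bool → ℕ → ℕ}
    (hL : PF (fun x (_ : Unit) => L x)) (hB : PF (fun x (p : Unit × ℕ) => B x p.2)) :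
    Nonempty (Turing.TM2ComputableInPolyTime (id : List Bool → List Bool)
      (id : List Bool → List Bool) (fun x => unary ((List.range (L x)).map (B x)))) := by
  obtain ⟨l, hl⟩ := hL
  obtain ⟨b, hb⟩ := hB
  have h := computable_nats l b
  have e1 : ∀ x, l.eval x (fun _ => 0) = L x := fun x =>
    hl x () _ (fun i hi => absurd hi (Nat.not_lt_zero i))
  have e2 : ∀ x i, b.eval x (update (fun _ => 0) 0 i) = B x i := fun x i => by
    apply hb x ((), i)
    intro j hj
    have : j = 0 := by
      have : j < 0 + 1 := hj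
      omega
    subst this
    rw [update_self]
    show i = update (fun _ : ℕ => (0 : ℕ)) 0 i 0
    rw [update_self]
  simp only [e1, e2] at h
  exact h

/-- Functions given bit by bit by expressions are computable in polynomial time. -/
theorem PFBits.polyTime {f : List Bool → List Bool} (hf : PFBits f) :
    Nonempty (Turing.TM2ComputableInPolyTime (id : List Bool → List Bool)
      (id : List Bool → List Bool) f) := by
  obtain ⟨L, B, ⟨l, hl⟩, ⟨b, hb⟩, hf⟩ := hf
  have h := computable_bits l b
  have e1 : ∀ x, l.eval x (fun _ => 0) = L x := fun x =>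
    hl x () _ (fun i hi => absurd hi (Nat.not_lt_zero i))
  have e2 : ∀ x i, b.eval x (update (fun _ => 0) 0 i) = B x i := fun x i => by
    apply hb x ((), i)
    intro j hj
    have : j = 0 := by
      have : j < 0 + 1 := hj
      omega
    subst this
    rw [update_self]
    show i = update (fun _ : ℕ => (0 : ℕ)) 0 i 0
    rw [update_self]
  simp only [e1, e2] at h
  have : f = fun x => (List.range (L x)).map (fun i => decide (B x i ≠ 0)) := funext hf
  rw [this]
  exact h

end Pool.Agent.PolyTime
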