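import Mathlib
import Pool.Agent.Lib.PolyTime.PF

/-!
# A calculus of bit lists and of large numbers given by their bits

`PL f`: the list `f x a` of bits is given by expressions (its length and its bits).
`PB w`: the (possibly exponentially large) number `w x a` is given by expressions for its bits.
-/

namespace Pool.Agent.PolyTime

open Function

variable {α β : Type} [Ctx α] [Ctx β]

/-- `π` is a projection to an initial part of the context. -/
def Proj (π : β → α) : Prop :=
  Ctx.dim α ≤ Ctx.dim β ∧ ∀ b i, i < Ctx.dim α → Ctx.env (π b) i = Ctx.env b i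

theorem Proj.id : Proj (fun a : α => a) := ⟨le_rfl, fun _ _ _ => rfl⟩

theorem Proj.fst {π : β → α} (h : Proj π) : Proj (fun p : β × ℕ => π p.1) := by
  refine ⟨le_trans h.1 (Nat.le_succ _), fun b i hi => ?_⟩
  rw [h.2 b.1 i hi]
  show _ = update (Ctx.env b.1) (Ctx.dim β) b.2 i
  rw [update_of_ne (by have := h.1; omega)]

theorem PF.proj {π : β → α} (h : Proj π) {F : List Bool → α → ℕ} (hF : PF F) :
    PF (fun x b => F x (π b)) := by
  obtain ⟨e, he⟩ := hF
  refine ⟨e, fun x b ρ hρ => he x (π b) ρ fun i hi => ?_⟩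
  rw [hρ i (lt_of_lt_of_le hi h.1), h.2 b i hi]

theorem PF.sub1 {π : β → α} (h : Proj π) {A : List Bool → β → ℕ} {F : List Bool → α × ℕ → ℕ}
    (hA : PF A) (hF : PF F) : PF (fun x b => F x (π b, A x b)) := by
  obtain ⟨a, ha⟩ := hA
  obtain ⟨e, he⟩ := hF
  refine ⟨.letE (Ctx.dim α) a e, fun x b ρ hρ => ?_⟩
  simp only [Expr.eval, ha x b ρ hρ]
  refine he x (π b, A x b) _ fun j hj => ?_
  show _ = update (Ctx.env (π b)) (Ctx.dim α) (A x b) j
  by_cases hj' : j = Ctx.dim α
  · subst hj'; rw [update_self, update_self]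
  · have hj2 : j < Ctx.dim α := by have : j < Ctx.dim α + 1 := hj; omega
    rw [update_of_ne hj', update_of_ne hj', h.2 b j hj2]
    exact hρ j (lt_of_lt_of_le hj2 h.1)

theorem PF.sub2 {π : β → α} (h : Proj π) {A B : List Bool → β → ℕ}
    {F : List Bool → (α × ℕ) × ℕ → ℕ} (hA : PF A) (hB : PF B) (hF : PF F) :
    PF (fun x b => F x ((π b, A x b), B x b)) := by
  -- first put `B` in the last variable of `β × ℕ`
  obtain ⟨a, ha⟩ := hA
  obtain ⟨c, hc⟩ := hB
  obtain ⟨e, he⟩ := hF
  refine ⟨.letE (Ctx.dim β + 1) c (.letE (Ctx.dim α) a (.letE (Ctx.dim α + 1)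
    (.var (Ctx.dim β + 1)) e)), fun x b ρ hρ => ?_⟩
  have h1 : ∀ i < Ctx.dim β, update ρ (Ctx.dim β + 1) (B x b) i = Ctx.env b i := by
    intro i hi
    rw [update_of_ne (by omega)]
    exact hρ i hi
  have hd := h.1
  simp only [Expr.eval, hc x b ρ hρ, ha x b _ h1]
  refine he x ((π b, A x b), B x b) _ fun j hj => ?_
  have hj0 : j < Ctx.dim α + 1 + 1 := hj
  show _ = update (update (Ctx.env (π b)) (Ctx.dim α) (A x b)) (Ctx.dim α + 1) (B x b) j
  by_cases hj1 : j = Ctx.dim α + 1
  · subst hj1
    rw [update_self, update_self, update_of_ne (by omega), update_self]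
  · rw [update_of_ne hj1, update_of_ne hj1]
    by_cases hj' : j = Ctx.dim α
    · subst hj'; rw [update_self, update_self]
    · have hj2 : j < Ctx.dim α := by omega
      rw [update_of_ne hj', update_of_ne hj', h1 j (by omega), h.2 b j hj2]

theorem PD.proj {π : β → α} (h : Proj π) {P : List Bool → α → Prop} (hP : PD P) :
    PD (fun x b => P x (π b)) := by
  obtain ⟨F, hF, hPF⟩ := hP
  exact ⟨_, hF.proj h, fun x b => hPF _ _⟩

theorem PD.sub1 {π : β → α} (h : Proj π) {A : List Bool → β → ℕ} {P : List Bool → α × ℕ → Prop}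
    (hA : PF A) (hP : PD P) : PD (fun x b => P x (π b, A x b)) := by
  obtain ⟨F, hF, hPF⟩ := hP
  exact ⟨_, PF.sub1 h hA hF, fun x b => hPF _ _⟩

theorem PD.sub2 {π : β → α} (h : Proj π) {A B : List Bool → β → ℕ}
    {P : List Bool → (α × ℕ) × ℕ → Prop} (hA : PF A) (hB : PF B) (hP : PD P) :
    PD (fun x b => P x ((π b, A x b), B x b)) := by
  obtain ⟨F, hF, hPF⟩ := hP
  exact ⟨_, PF.sub2 h hA hB hF, fun x b => hPF _ _⟩

/-! ### Lists of bits -/

/-- Lists of bits given by expressions. -/
def PL (f : List Bool → α → List Bool) : Prop :=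
  ∃ (L : List Bool → α → ℕ) (P : List Bool → α × ℕ → Prop), PF L ∧ PD P ∧
    ∀ x a, f x a = (List.range (L x a)).map (fun i => @decide (P x (a, i)) (Classical.propDecidable _))

theorem PL.congr {f g : List Bool → α → List Bool} (hf : PL f) (h : ∀ x a, f x a = g x a) :
    PL g := by
  have : f = g := by funext x a; exact h x a
  rwa [← this]

theorem PL.nil : PL (fun (_ : List Bool) (_ : α) => []) :=
  ⟨fun _ _ => 0, fun _ _ => True, PF.const 0, PD.true, fun _ _ => rfl⟩

theorem PL.single {P : List Bool → α → Prop} [∀ x a, Decidable (P x a)] (hP : PD P) :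
    PL (fun x a => [decide (P x a)]) :=
  ⟨fun _ _ => 1, fun x p => P x p.1, PF.const 1, hP.fst, fun x a => by
    simp only [List.range_one, List.map_cons, List.map_nil]
    congr⟩

theorem PL.const_cons (b : Bool) : PL (fun (_ : List Bool) (_ : α) => [b]) := by
  cases b
  · exact (PL.single (P := fun _ _ => False)
      (PD.true.not.congr (fun _ _ => by simp))).congr fun _ _ => by simp
  · exact (PL.single (P := fun _ _ => True) PD.true).congr fun _ _ => by simp

theorem PL.append {f g : List Bool → α → List Bool} (hf : PL f) (hg : PL g) :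
    PL (fun x a => f x a ++ g x a) := by
  obtain ⟨L, P, hL, hP, hf⟩ := hf
  obtain ⟨M, Q, hM, hQ, hg⟩ := hg
  refine ⟨fun x a => L x a + M x a,
    fun x p => (p.2 < L x p.1 ∧ P x p) ∨ (L x p.1 ≤ p.2 ∧ Q x (p.1, p.2 - L x p.1)),
    hL.add hM, ?_, fun x a => ?_⟩
  · exact ((PD.lt PF.snd hL.fst).and hP).or ((PD.le hL.fst PF.snd).and
      (PD.sub1 Proj.id.fst (PF.snd.sub hL.fst) hQ))
  · show f x a ++ g x a = _
    rw [hf, hg, List.range_add, List.map_append, List.map_map]
    congr 1
    · apply List.map_congr_left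
      intro i hi
      rw [List.mem_range] at hi
      simp only [decide_eq_decide]
      constructor
      · intro h; exact Or.inl ⟨hi, h⟩
      · rintro (h | h)
        · exact h.2
        · omega
    · apply List.map_congr_left
      intro i hi
      simp only [Function.comp, decide_eq_decide, Nat.add_sub_cancel_left]
      constructor
      · intro h; exact Or.inr ⟨by omega, h⟩
      · rintro (h | h)
        · omega
        · exact h.2

theorem PL.ite {P : List Bool → α → Prop} [∀ x a, Decidable (P x a)]
    {f g : List Bool → α → List Bool} (hP : PD P) (hf : PL f) (hg : PL g) :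
    PL (fun x a => if P x a then f x a else g x a) := by
  obtain ⟨L, A, hL, hA, hf⟩ := hf
  obtain ⟨M, B, hM, hB, hg⟩ := hg
  refine ⟨fun x a => if P x a then L x a else M x a,
    fun x p => (P x p.1 ∧ A x p) ∨ (¬ P x p.1 ∧ B x p), PF.ite hP hL hM,
    (hP.fst.and hA).or (hP.fst.not.and hB), fun x a => ?_⟩
  by_cases h : P x a
  · show (if P x a then f x a else g x a) = (List.range (if P x a then L x a else M x a)).map _
    rw [if_pos h, if_pos h, hf]
    apply List.map_congr_left
    intro i _
    simp only [decide_eq_decide]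
    tauto
  · show (if P x a then f x a else g x a) = (List.range (if P x a then L x a else M x a)).map _
    rw [if_neg h, if_neg h, hg]
    apply List.map_congr_left
    intro i _
    simp only [decide_eq_decide]
    tauto

open Classical in
theorem flatMap_range_eq (L : ℕ → ℕ) (b : ℕ → ℕ → Prop) (C : ℕ) :
    (List.range C).flatMap (fun i => (List.range (L i)).map (fun j => decide (b i j))) =
    (List.range (∑ i ∈ Finset.range C, L i)).map (fun p => decide
      (∃ i < C, ∑ j ∈ Finset.range i, L j ≤ p ∧ p < ∑ j ∈ Finset.range i, L j + L i ∧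
        b i (p - ∑ j ∈ Finset.range i, L j))) := by
  induction C with
  | zero => simp
  | succ C ih =>
    rw [List.range_succ, List.flatMap_append, ih, Finset.sum_range_succ, List.range_add,
      List.map_append, List.map_map]
    congr 1
    · apply List.map_congr_left
      intro p hp
      rw [List.mem_range] at hp
      simp only [decide_eq_decide]
      constructor
      · rintro ⟨i, h1, h2⟩; exact ⟨i, by omega, h2⟩
      · rintro ⟨i, h1, h2⟩
        rcases Nat.lt_succ_iff_lt_or_eq.mp h1 with h | h
        · exact ⟨i, h, h2⟩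
        · subst h; omega
    · simp only [List.flatMap_cons, List.flatMap_nil, List.append_nil]
      apply List.map_congr_left
      intro q hq
      rw [List.mem_range] at hq
      simp only [Function.comp, decide_eq_decide]
      constructor
      · intro h
        refine ⟨C, by omega, by omega, by omega, ?_⟩
        rwa [Nat.add_sub_cancel_left]
      · rintro ⟨i, h1, h2, h3, h4⟩
        rcases Nat.lt_succ_iff_lt_or_eq.mp h1 with h | h
        · exfalso
          have h5 : ∑ j ∈ Finset.range (i + 1), L j ≤ ∑ j ∈ Finset.range C, L j :=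
            Finset.sum_le_sum_of_subset (Finset.range_mono (by omega))
          rw [Finset.sum_range_succ] at h5
          omega
        · subst h
          rwa [Nat.add_sub_cancel_left] at h4

theorem PL.flatMap {C : List Bool → α → ℕ} {G : List Bool → α × ℕ → List Bool} (hC : PF C)
    (hG : PL G) : PL (fun x a => (List.range (C x a)).flatMap (fun i => G x (a, i))) := by
  classical
  obtain ⟨L, P, hL, hP, hG⟩ := hG
  have hS : PF (fun x (p : (α × ℕ) × ℕ) => ∑ j ∈ Finset.range p.2, L x (p.1.1, j)) :=
    PF.sum PF.snd (F := fun x (q : ((α × ℕ) × ℕ) × ℕ) => L x (q.1.1.1, q.2))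
      (PF.sub1 (π := fun q : ((α × ℕ) × ℕ) × ℕ => q.1.1.1) Proj.id.fst.fst.fst PF.snd hL)
  refine ⟨fun x a => ∑ i ∈ Finset.range (C x a), L x (a, i),
    fun x p => ∃ i < C x p.1, ∑ j ∈ Finset.range i, L x (p.1, j) ≤ p.2 ∧
      p.2 < ∑ j ∈ Finset.range i, L x (p.1, j) + L x (p.1, i) ∧
      P x ((p.1, i), p.2 - ∑ j ∈ Finset.range i, L x (p.1, j)), hC.sum hL, ?_, fun x a => ?_⟩
  · refine PD.exists_lt hC.fst (P := fun x (q : (α × ℕ) × ℕ) =>
      ∑ j ∈ Finset.range q.2, L x (q.1.1, j) ≤ q.1.2 ∧
      q.1.2 < ∑ j ∈ Finset.range q.2, L x (q.1.1, j) + L x (q.1.1, q.2) ∧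
      P x ((q.1.1, q.2), q.1.2 - ∑ j ∈ Finset.range q.2, L x (q.1.1, j))) ?_
    have hp2 : PF (fun (_ : List Bool) (q : (α × ℕ) × ℕ) => q.1.2) := PF.snd.fst
    have hL' : PF (fun x (q : (α × ℕ) × ℕ) => L x (q.1.1, q.2)) :=
      PF.sub1 (π := fun q : (α × ℕ) × ℕ => q.1.1) Proj.id.fst.fst PF.snd hL
    exact (PD.le hS hp2).and ((PD.lt hp2 (hS.add hL')).and
      (PD.sub2 (π := fun q : (α × ℕ) × ℕ => q.1.1) Proj.id.fst.fst PF.snd (hp2.sub hS) hP))
  · have h := flatMap_range_eq (fun i => L x (a, i)) (fun i j => P x ((a, i), j)) (C x a)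
    simp only [hG]
    refine h.trans ?_
    apply List.map_congr_left
    intro p _
    simp only [decide_eq_decide]

/-- Map of a list of bits. -/
theorem PL.replicate {F : List Bool → α → ℕ} (hF : PF F) (b : Bool) :
    PL (fun x a => List.replicate (F x a) b) := by
  refine (PL.flatMap hF (PL.const_cons b)).congr fun x a => ?_
  induction F x a with
  | zero => rfl
  | succ n ih => rw [List.range_succ, List.flatMap_append, ih, List.replicate_succ']; rfl

theorem PL.length {f : List Bool → α → List Bool} (hf : PL f) : PF (fun x a => (f x a).length) := by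
  obtain ⟨L, P, hL, hP, hf⟩ := hf
  exact hL.congr fun x a => by rw [hf]; simp

theorem PL.getD {f : List Bool → α → List Bool} (hf : PL f) :
    PD (fun x (p : α × ℕ) => (f x p.1).getD p.2 false = true) := by
  obtain ⟨L, P, hL, hP, hf⟩ := hf
  refine ((PD.lt PF.snd hL.fst).and hP).congr fun x p => ?_
  rw [hf, List.getD_eq_getElem?_getD, List.getElem?_map]
  by_cases h : p.2 < L x p.1
  · rw [List.getElem?_range h]
    simp [h]
  · rw [List.getElem?_eq_none (by simpa using h)]
    simp [h]

/-- Recoding of bits. -/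
theorem PL.bind {f : List Bool → α → List Bool} (hf : PL f)
    (g : List Bool → α → Bool → List Bool) (h0 : PL (fun x a => g x a false))
    (h1 : PL (fun x a => g x a true)) : PL (fun x a => (f x a).flatMap (g x a)) := by
  classical
  have h2 : PL (fun x (p : α × ℕ) => if (f x p.1).getD p.2 false = true then g x p.1 true
      else g x p.1 false) := by
    obtain ⟨L, P, hL, hP, hh⟩ := h0
    obtain ⟨M, Q, hM, hQ, hh'⟩ := h1
    refine PL.ite hf.getD ?_ ?_
    · exact ⟨fun x p => M x p.1, fun x p => Q x (p.1.1, p.2), hM.fst,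
        PD.sub1 (π := fun q : (α × ℕ) × ℕ => q.1.1) Proj.id.fst.fst PF.snd hQ,
        fun x p => hh' x p.1⟩
    · exact ⟨fun x p => L x p.1, fun x p => P x (p.1.1, p.2), hL.fst,
        PD.sub1 (π := fun q : (α × ℕ) × ℕ => q.1.1) Proj.id.fst.fst PF.snd hP,
        fun x p => hh x p.1⟩
  refine (PL.flatMap hf.length h2).congr fun x a => ?_
  show (List.range (f x a).length).flatMap (fun i => if (f x a).getD i false = true then
    g x a true else g x a false) = _
  generalize f x a = l
  induction l using List.reverseRecOn with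
  | nil => rfl
  | append_singleton l b ih =>
    rw [List.length_append, List.length_singleton, List.range_succ, List.flatMap_append,
      List.flatMap_append, ← ih]
    congr 1
    · apply List.flatMap_congr
      intro i hi
      rw [List.mem_range] at hi
      rw [List.getD_append _ _ _ _ hi]
    · simp only [List.flatMap_cons, List.flatMap_nil, List.append_nil]
      rw [List.getD_append_right _ _ _ _ le_rfl]
      cases b <;> simp

end Pool.Agent.PolyTime
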