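import Mathlib
import Pool.Agent.Lib.PolyTime.PF

/-!
# Composition and iteration of programs

`PC f`: some stack program computes `f : List Bool → List Bool` in polynomial time. `PC.comp`,
`PC.iterate` (a number of iterations that is itself computed, for a function that does not increase
the length), `PFBits.pc` and `PC.polyTime`.
-/

namespace Pool.Agent.PolyTime

open Turing Function
open Polynomial (X C)

/-- `f` is computed by a stack program in polynomial time. -/
def PC (f : List Bool → List Bool) : Prop :=
  ∃ (P : Prog) (T : Polynomial ℕ), ∀ x, Exec P (Prog.inSt x) (Prog.outSt (f x)) (T.eval x.length)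

theorem PC.polyTime {f : List Bool → List Bool} (hf : PC f) :
    Nonempty (TM2ComputableInPolyTime (id : List Bool → List Bool) (id : List Bool → List Bool)
      f) := by
  obtain ⟨P, T, h⟩ := hf
  exact Prog.computable P f T h

/-! ### Frames -/

/-- `s` below `R`, `u` from `R` on. -/
def glue (R : ℕ) (s u : St) : St := fun j => if j < R then s j else u j

theorem glue_update {R : ℕ} {s u : St} {k : ℕ} (hk : k < R) (v : List Bool) :
    glue R (update s k v) u = update (glue R s u) k v := by
  funext j
  unfold glue
  by_cases hj : j = k
  · subst hj; simp [hk]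
  · simp [hj]

theorem Run.glue {R : ℕ} {p : Prog} {s s' : St} {t : ℕ} (h : Run p s s' t) :
    Prog.regsLt R p → ∀ u, Run p (PolyTime.glue R s u) (PolyTime.glue R s' u) t := by
  induction h with
  | skip s => intro _ u; exact Run.skip _
  | push k b s =>
    intro hR u
    rw [glue_update hR]
    have := Run.push k b (PolyTime.glue R s u)
    rwa [show PolyTime.glue R s u k = s k from if_pos hR] at this
  | pop k s =>
    intro hR u
    rw [glue_update hR]
    have := Run.pop k (PolyTime.glue R s u)
    rwa [show PolyTime.glue R s u k = s k from if_pos hR] at this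
  | seq _ _ ih1 ih2 => intro hR u; exact Run.seq (ih1 hR.1 u) (ih2 hR.2 u)
  | ite_true hk _ ih =>
    intro hR u
    exact Run.ite_true (by rw [show PolyTime.glue R _ u _ = _ from if_pos hR.1]; exact hk)
      (ih hR.2.1 u)
  | ite_false hk _ ih =>
    intro hR u
    exact Run.ite_false (by rw [show PolyTime.glue R _ u _ = _ from if_pos hR.1]; exact hk)
      (ih hR.2.2.1 u)
  | ite_none hk _ ih =>
    intro hR u
    exact Run.ite_none (by rw [show PolyTime.glue R _ u _ = _ from if_pos hR.1]; exact hk)
      (ih hR.2.2.2 u)
  | loop_nil hk =>
    intro hR u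
    exact Run.loop_nil (by rw [show PolyTime.glue R _ u _ = _ from if_pos hR.1]; exact hk)
  | loop_cons hk _ _ ih1 ih2 =>
    intro hR u
    exact Run.loop_cons (by rw [show PolyTime.glue R _ u _ = _ from if_pos hR.1]; exact hk)
      (ih1 hR.2 u) (ih2 hR u)

theorem Exec.glue {R : ℕ} {p : Prog} {s s' : St} {T : ℕ} (h : Exec p s s' T)
    (hR : Prog.regsLt R p) (u : St) :
    Exec p (PolyTime.glue R s u) (PolyTime.glue R s' u) T := by
  obtain ⟨t, ht, h⟩ := h
  exact ⟨t, ht, h.glue hR u⟩

theorem Run.length_le {p : Prog} {s s' : St} {t : ℕ} (h : Run p s s' t) :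
    ∀ k, (s' k).length ≤ (s k).length + t := by
  induction h with
  | skip s => intro k; omega
  | push k b s =>
    intro j
    by_cases hj : j = k
    · subst hj; simp
    · simp [hj]
  | pop k s =>
    intro j
    by_cases hj : j = k
    · subst hj; simp; omega
    · simp [hj]
  | seq _ _ ih1 ih2 => intro k; have := ih1 k; have := ih2 k; omega
  | ite_true _ _ ih => intro k; have := ih k; omega
  | ite_false _ _ ih => intro k; have := ih k; omega
  | ite_none _ _ ih => intro k; have := ih k; omega
  | loop_nil _ => intro k; omega
  | loop_cons _ _ _ ih1 ih2 => intro k; have := ih1 k; have := ih2 k; omega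

/-- The output of a polynomial time program has polynomial length. -/
theorem PC.length_le {f : List Bool → List Bool} {P : Prog} {T : Polynomial ℕ}
    (h : ∀ x, Exec P (Prog.inSt x) (Prog.outSt (f x)) (T.eval x.length)) (x : List Bool) :
    (f x).length ≤ T.eval x.length := by
  obtain ⟨t, ht, hr⟩ := h x
  have := hr.length_le 1
  unfold Prog.inSt Prog.outSt at this
  simp at this
  omega

/-! ### Moving without reversal -/

/-- Move the bits from `k` to `k'`, keeping the order, using the empty stack `c`. -/
def moveK (k c k' : ℕ) : Prog := .seq (moveD k c) (moveD c k')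

theorem moveK_exec {k c k' : ℕ} (h1 : k ≠ c) (h2 : c ≠ k') (l : List Bool) (s : St)
    (hk : s k = l) (hc : s c = []) :
    Exec (moveK k c k') s (update (update s k []) k' (l ++ (update s k []) k'))
      (8 * l.length + 2) := by
  have e1 := moveD_exec h1 l s hk
  rw [hc, List.append_nil] at e1
  have e2 := moveD_exec h2 l.reverse (update (update s k []) c l.reverse) (by rw [update_self])
  rw [List.reverse_reverse, update_of_ne (Ne.symm h2)] at e2
  refine ((e1.seq e2).of_eq ?_).mono (by rw [List.length_reverse]; omega)
  funext j
  by_cases hj : j = k'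
  · subst hj; simp
  · by_cases hj1 : j = c
    · subst hj1; simp [hj, Ne.symm h1, hc]
    · simp [hj, hj1]

/-- Copy: move the bits from `k` to `k'` and `k''` (this reverses them). -/
def moveDD (k k' k'' : ℕ) : Prog :=
  .loop k (.ite k (.seq (.pop k) (.seq (.push k' true) (.push k'' true)))
    (.seq (.pop k) (.seq (.push k' false) (.push k'' false))) .skip)

theorem moveDD_exec {k k' k'' : ℕ} (h1 : k ≠ k') (h2 : k ≠ k'') (h3 : k' ≠ k'') :
    ∀ (l : List Bool) (s : St), s k = l →
    Exec (moveDD k k' k'') s (update (update (update s k []) k' (l.reverse ++ s k')) k''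
      (l.reverse ++ s k'')) (5 * l.length + 1)
  | [], s, h => by
      refine (Exec.loop_nil h).of_eq ?_
      funext j
      by_cases hj : j = k''
      · subst hj; simp
      · by_cases hj1 : j = k'
        · subst hj1; simp [hj]
        · by_cases hj2 : j = k
          · subst hj2; simp [hj, hj1, h]
          · simp [hj, hj1, hj2]
  | a :: l, s, h => by
      have key : Exec (.ite k (.seq (.pop k) (.seq (.push k' true) (.push k'' true)))
          (.seq (.pop k) (.seq (.push k' false) (.push k'' false))) .skip) s
          (update (update (update s k l) k' (a :: s k')) k'' (a :: s k'')) 4 := by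
        have e1 := Exec.pop k s
        rw [h] at e1
        have e2 := Exec.push k' a (update s k l)
        rw [update_of_ne (Ne.symm h1)] at e2
        have e3 := Exec.push k'' a (update (update s k l) k' (a :: s k'))
        rw [update_of_ne (Ne.symm h3), update_of_ne (Ne.symm h2)] at e3
        cases a
        · exact Exec.ite_false (by rw [h]; rfl) (e1.seq (e2.seq e3))
        · exact Exec.ite_true (by rw [h]; rfl) (e1.seq (e2.seq e3))
      have e3 := moveDD_exec h1 h2 h3 l
        (update (update (update s k l) k' (a :: s k')) k'' (a :: s k''))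
        (by rw [update_of_ne h2, update_of_ne h1, update_self])
      have e4 := Exec.loop_cons (by rw [h]; simp) key e3
      refine (e4.of_eq ?_).mono (by simp only [List.length_cons]; omega)
      funext j
      by_cases hj : j = k''
      · subst hj; simp
      · by_cases hj1 : j = k'
        · subst hj1; simp [hj]
        · by_cases hj2 : j = k
          · subst hj2; simp [hj, hj1]
          · simp [hj, hj1, hj2]

/-! ### Composition -/

theorem outSt_to_inSt (y : List Bool) :
    Exec (moveK 1 2 0) (Prog.outSt y) (Prog.inSt y) (8 * y.length + 2) := by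
  have h := moveK_exec (k := 1) (c := 2) (k' := 0) (by omega) (by omega) y (Prog.outSt y)
    (by simp [Prog.outSt]) (by simp [Prog.outSt])
  refine h.of_eq ?_
  unfold Prog.outSt Prog.inSt
  funext j
  by_cases hj : j = 0
  · subst hj; simp
  · by_cases hj1 : j = 1
    · subst hj1; simp
    · simp [hj]

theorem PC.comp {f g : List Bool → List Bool} (hg : PC g) (hf : PC f) :
    PC (fun x => g (f x)) := by
  obtain ⟨Q, U, hQ⟩ := hg
  obtain ⟨P, T, hP⟩ := hf
  refine ⟨.seq P (.seq (moveK 1 2 0) Q), T + (8 * T + 2 + U.comp T), fun x => ?_⟩
  have hl := PC.length_le hP x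
  refine ((hP x).seq ((outSt_to_inSt (f x)).seq (hQ (f x)))).mono ?_
  simp only [Polynomial.eval_add, Polynomial.eval_mul, Polynomial.eval_comp,
    Polynomial.eval_ofNat]
  have := eval_mono U hl
  omega

theorem PC.congr {f g : List Bool → List Bool} (hf : PC f) (h : ∀ x, f x = g x) : PC g := by
  have : f = g := funext h
  rwa [← this]

/-! ### Iteration -/

section iterate

variable {f : List Bool → List Bool}

/-- The state with `x` on stack `0`, `a` on stack `R` and `b` on stack `R + 1`. -/
def tri (R : ℕ) (x a b : List Bool) : St :=
  update (update (Prog.inSt x) R a) (R + 1) b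

theorem glue_inSt (R : ℕ) (hR : 2 < R) (x a b : List Bool) :
    PolyTime.glue R (Prog.inSt x) (tri R [] a b) = tri R x a b := by
  unfold PolyTime.glue tri Prog.inSt
  funext j
  by_cases hj : j < R
  · rw [if_pos hj, update_of_ne (by omega : j ≠ R + 1), update_of_ne (by omega : j ≠ R)]
  · rw [if_neg hj]
    by_cases h1 : j = R + 1
    · subst h1; rw [update_self, update_self]
    · rw [update_of_ne h1, update_of_ne h1]
      by_cases h2 : j = R
      · subst h2; rw [update_self, update_self]
      · rw [update_of_ne h2, update_of_ne h2, update_of_ne (by omega : j ≠ 0),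
          update_of_ne (by omega : j ≠ 0)]

/-- One step of the iteration, in a frame. -/
theorem step_exec {P : Prog} {T : ℕ} {R : ℕ} (hR : 2 < R) (hPR : Prog.regsLt R P)
    {x y : List Bool} (hP : Exec P (Prog.inSt x) (Prog.outSt y) T) (a b : List Bool) :
    Exec (.seq P (moveK 1 2 0)) (tri R x a b) (tri R y a b) (T + (8 * y.length + 2)) := by
  have h1 := hP.seq (outSt_to_inSt y)
  have hreg : Prog.regsLt R (.seq P (moveK 1 2 0)) := by
    refine ⟨hPR, ?_⟩
    unfold moveK moveD
    have h0 : 0 < R := by omega
    have h1 : 1 < R := by omega
    exact ⟨⟨h1, h1, ⟨h1, hR⟩, ⟨h1, hR⟩, trivial⟩, ⟨hR, hR, ⟨hR, h0⟩, ⟨hR, h0⟩, trivial⟩⟩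
  have h2 := h1.glue hreg (tri R [] a b)
  rw [glue_inSt R hR, glue_inSt R hR] at h2
  exact h2

theorem iterLoop_exec {P : Prog} {T : ℕ} {R : ℕ} (hR : 2 < R) (hPR : Prog.regsLt R P)
    {N : ℕ} (hlen : ∀ x, (f x).length ≤ x.length)
    (hP : ∀ x, x.length ≤ N → Exec P (Prog.inSt x) (Prog.outSt (f x)) T) :
    ∀ (m : ℕ) (x : List Bool), x.length ≤ N →
      Exec (.loop R (.seq (.pop R) (.seq P (moveK 1 2 0)))) (tri R x (un m) [])
        (tri R (f^[m] x) [] []) (m * (T + 8 * N + 4) + 1) := by
  intro m
  induction m with
  | zero =>
    intro x _
    refine (Exec.loop_nil ?_).mono (by omega)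
    unfold tri
    rw [update_of_ne (by omega), update_self]
    rfl
  | succ m ih =>
    intro x hx
    have e1 : Exec (.pop R) (tri R x (un (m + 1)) []) (tri R x (un m) []) 1 := by
      refine (Exec.pop R _).of_eq ?_
      unfold tri
      rw [update_of_ne (by omega : R ≠ R + 1), update_self]
      funext j
      by_cases h1 : j = R + 1
      · subst h1; simp
      · by_cases h2 : j = R
        · subst h2; simp [un_succ]
        · simp [h1, h2]
    have hl := hlen x
    have e2 := step_exec hR hPR (hP x hx) (un m) []
    have e3 := ih (f x) (by omega)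
    have hne : tri R x (un (m + 1)) [] R ≠ [] := by
      unfold tri
      rw [update_of_ne (by omega : R ≠ R + 1), update_self]
      simp
    refine (Exec.loop_cons hne (e1.seq e2) e3).mono ?_
    have : (m + 1) * (T + 8 * N + 4) = m * (T + 8 * N + 4) + (T + 8 * N + 4) := by ring
    rw [this]
    omega

theorem PC.iterate {c : List Bool → ℕ} (hf : PC f) (hlen : ∀ x, (f x).length ≤ x.length)
    (hc : PC (fun x => List.replicate (c x) true)) : PC (fun x => f^[c x] x) := by
  obtain ⟨P, T, hP⟩ := hf
  obtain ⟨Q, U, hQ⟩ := hc
  set R := max 3 (max P.maxReg Q.maxReg) with hRdef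
  have hR : 2 < R := by omega
  have hPR : Prog.regsLt R P := Prog.regsLt_mono (by omega) (Prog.regsLt_maxReg P)
  have hQR : Prog.regsLt R Q := Prog.regsLt_mono (by omega) (Prog.regsLt_maxReg Q)
  -- copy the input to `R + 1`
  have a1 : ∀ x, Exec (.seq (moveD 0 2) (moveDD 2 0 (R + 1))) (Prog.inSt x) (tri R x [] x)
      (9 * x.length + 2) := by
    intro x
    have e1 := moveD_exec (k := 0) (k' := 2) (by omega) x (Prog.inSt x) (by simp [Prog.inSt])
    have e2 := moveDD_exec (k := 2) (k' := 0) (k'' := R + 1) (by omega) (by omega) (by omega)
      x.reverse (update (update (Prog.inSt x) 0 []) 2 (x.reverse ++ Prog.inSt x 2)) (by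
        rw [update_self]; simp [Prog.inSt])
    refine ((e1.seq e2).of_eq ?_).mono (by rw [List.length_reverse]; omega)
    unfold tri Prog.inSt
    funext j
    by_cases h1 : j = R + 1
    · subst h1
      rw [update_self, update_self, update_of_ne (by omega : R + 1 ≠ 2),
        update_of_ne (by omega : R + 1 ≠ 0), update_of_ne (by omega : R + 1 ≠ 0)]
      simp
    · rw [update_of_ne h1, update_of_ne h1]
      by_cases h2 : j = R
      · subst h2
        simp only [update_self]
        rw [update_of_ne (by omega), update_of_ne (by omega), update_of_ne (by omega),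
          update_of_ne (by omega), update_of_ne (by omega)]
      · rw [update_of_ne h2]
        by_cases h3 : j = 0
        · subst h3; simp
        · rw [update_of_ne h3]
          by_cases h4 : j = 2
          · subst h4; simp
          · rw [update_of_ne h4, update_of_ne h4, update_of_ne h3, update_of_ne h3]
  -- compute the counter
  have a2 : ∀ x, Exec Q (tri R x [] x) (PolyTime.glue R (Prog.outSt (un (c x))) (tri R [] [] x))
      (U.eval x.length) := by
    intro x
    have := (hQ x).glue hQR (tri R [] [] x)
    rwa [glue_inSt R hR] at this
  -- move the counter to `R`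
  have a3 : ∀ x, Exec (moveU 1 R) (PolyTime.glue R (Prog.outSt (un (c x))) (tri R [] [] x))
      (tri R [] (un (c x)) x) (3 * c x + 1) := by
    intro x
    have e := moveU_exec (k := 1) (k' := R) (by omega) (c x)
      (PolyTime.glue R (Prog.outSt (un (c x))) (tri R [] [] x)) (by
        unfold PolyTime.glue
        rw [if_pos (by omega)]
        simp [Prog.outSt])
    refine e.of_eq ?_
    unfold PolyTime.glue tri Prog.outSt Prog.inSt
    funext j
    by_cases h1 : j = R + 1
    · subst h1
      rw [update_of_ne (by omega), update_of_ne (by omega), if_neg (by omega), update_self,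
        update_self]
    · rw [update_of_ne h1]
      by_cases h2 : j = R
      · subst h2
        rw [update_self, update_self, if_neg (by omega), update_of_ne (by omega), update_self]
        simp
      · rw [update_of_ne h2, update_of_ne h2]
        by_cases h3 : j = 1
        · subst h3
          rw [update_self, update_of_ne (by omega)]
        · rw [update_of_ne h3]
          by_cases h4 : j < R
          · rw [if_pos h4, update_of_ne h3]
            by_cases h5 : j = 0
            · subst h5; simp
            · rw [update_of_ne h5]
          · rw [if_neg h4, update_of_ne h1, update_of_ne h2]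
  -- move the input back
  have a4 : ∀ x a, Exec (moveK (R + 1) 2 0) (tri R [] a x) (tri R x a [])
      (8 * x.length + 2) := by
    intro x a
    have e := moveK_exec (k := R + 1) (c := 2) (k' := 0) (by omega) (by omega) x (tri R [] a x)
      (by unfold tri; rw [update_self]) (by
        unfold tri Prog.inSt
        rw [update_of_ne (by omega), update_of_ne (by omega), update_of_ne (by omega)])
    refine e.of_eq ?_
    unfold tri Prog.inSt
    funext j
    by_cases h1 : j = R + 1
    · subst h1
      rw [update_of_ne (by omega), update_self, update_self]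
    · rw [update_of_ne h1]
      by_cases h2 : j = R
      · subst h2
        rw [update_self, update_of_ne (by omega), update_of_ne h1, update_of_ne h1, update_self]
      · rw [update_of_ne h2]
        by_cases h3 : j = 0
        · subst h3
          rw [update_self, update_self, update_of_ne (by omega), update_of_ne (by omega),
            update_of_ne (by omega), update_self]
          simp
        · rw [update_of_ne h3, update_of_ne h3, update_of_ne h1, update_of_ne h1,
            update_of_ne h2, update_of_ne h3]
  -- final move
  have a5 : ∀ y, Exec (moveK 0 2 1) (tri R y [] []) (Prog.outSt y) (8 * y.length + 2) := by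
    intro y
    have e := moveK_exec (k := 0) (c := 2) (k' := 1) (by omega) (by omega) y (tri R y [] [])
      (by
        unfold tri Prog.inSt
        rw [update_of_ne (by omega), update_of_ne (by omega), update_self]) (by
        unfold tri Prog.inSt
        rw [update_of_ne (by omega), update_of_ne (by omega), update_of_ne (by omega)])
    refine e.of_eq ?_
    unfold tri Prog.inSt Prog.outSt
    funext j
    by_cases h3 : j = 1
    · subst h3
      rw [update_self, update_self, update_of_ne (by omega), update_of_ne (by omega),
        update_of_ne (by omega), update_of_ne (by omega)]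
      simp
    · rw [update_of_ne h3, update_of_ne h3]
      by_cases h4 : j = 0
      · subst h4; rw [update_self]
      · rw [update_of_ne h4]
        by_cases h1 : j = R + 1
        · subst h1; rw [update_self]
        · rw [update_of_ne h1]
          by_cases h2 : j = R
          · subst h2; rw [update_self]
          · rw [update_of_ne h2, update_of_ne h4]
  have hcl : ∀ x, c x ≤ U.eval x.length := by
    intro x
    have := PC.length_le hQ x
    simpa using this
  have hit : ∀ m x, (f^[m] x).length ≤ x.length := by
    intro m
    induction m with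
    | zero => intro x; simp
    | succ m ih =>
      intro x
      rw [Function.iterate_succ_apply]
      exact (ih _).trans (hlen x)
  refine ⟨.seq (.seq (moveD 0 2) (moveDD 2 0 (R + 1))) (.seq Q (.seq (moveU 1 R)
    (.seq (moveK (R + 1) 2 0) (.seq (.loop R (.seq (.pop R) (.seq P (moveK 1 2 0))))
      (moveK 0 2 1))))),
    9 * X + 2 + (U + (3 * U + 1 + (8 * X + 2 + (U * (T + 8 * X + 4) + 1 + (8 * X + 2))))),
    fun x => ?_⟩
  have a6 := iterLoop_exec (f := f) (T := T.eval x.length) (N := x.length) hR hPR hlen
    (fun y hy => (hP y).mono (eval_mono T hy)) (c x) x le_rfl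
  refine ((a1 x).seq ((a2 x).seq ((a3 x).seq ((a4 x _).seq (a6.seq (a5 _)))))).mono ?_
  have h1 := hcl x
  have h2 := hit (c x) x
  simp only [Polynomial.eval_add, Polynomial.eval_mul, Polynomial.eval_X, Polynomial.eval_one,
      Polynomial.eval_ofNat]
  have h3 : c x * (T.eval x.length + 8 * x.length + 4) ≤
      U.eval x.length * (T.eval x.length + 8 * x.length + 4) := Nat.mul_le_mul_right _ h1
  omega

end iterate

/-! ### Functions given bit by bit -/

theorem genOut_pc (L : Expr) (P : Prog) (G : List Bool → ℕ → List Bool) (T g : Polynomial ℕ)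
    (hP : ∀ (x : List Bool) (i : ℕ) (s : St) (N : ℕ), x.length ≤ N → i ≤ N →
      Good x (update (fun _ => 0) 0 i) 1 s → s (rB 0) = [] →
      Exec P s (update s (rS 0) ((G x i).reverse ++ s (rS 0))) (T.eval N))
    (hg : ∀ (x : List Bool) (i : ℕ) (N : ℕ), x.length ≤ N → i ≤ N →
      (G x i).length ≤ g.eval N) :
    PC (fun x => (List.range (L.eval x (fun _ => 0))).flatMap (G x)) := by
  refine ⟨mainP L P,
    L.tP + L.bP * (3 + T.comp (X + L.bP)) + 1 + (2 * L.bP + 1) + (2 * X + 1) +
      (4 * (L.bP * g.comp (X + L.bP)) + 1), fun x => ?_⟩
  set N := x.length with hN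
  set B := L.eval x (fun _ => 0) with hB
  have hBle : B ≤ L.bP.eval N := Expr.eval_le x L _ N le_rfl (fun _ => Nat.zero_le _)
  have g0 := (good_inSt x).mono (Nat.le_succ 0)
  have e1 := Expr.comp_exec x L (fun _ => 0) 1 (rA 0) _ N g0 (free_A 0) le_rfl
    (fun _ => Nat.zero_le _)
  rw [(good_inSt x).hA 0 le_rfl, List.append_nil] at e1
  have g1 : Good x (update (fun _ => 0) 0 0) 1 (update (Prog.inSt x) (rA 0) (un B)) := by
    have := g0.upd (free_A 0) (un B)
    rwa [show update (fun _ : ℕ => 0) 0 0 = fun _ => 0 by
      funext j; by_cases hj : j = 0 <;> simp [hj]]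
  have a1 : rS 0 ≠ rA 0 := by unfold rS rA; omega
  have a2 : rS 0 ≠ rV 0 := by unfold rS rV; omega
  have a3 : rA 0 ≠ rV 0 := by unfold rA rV; omega
  have b1 : rB 0 ≠ rA 0 := by unfold rB rA; omega
  have e2 := outLoop_exec (x := x) (P := P) (G := G x) (T := T.eval (N + L.bP.eval N)) B
    (fun i s hi hgood hBB => hP x i s _ (by omega) (by omega) hgood hBB) B 0 _ (by omega) g1 (by
      rw [update_of_ne b1]; exact (good_inSt x).hB 0 le_rfl) (update_self _ _ _)
  simp only [zero_add] at e2
  have hS0 : (update (Prog.inSt x) (rA 0) (un B)) (rS 0) = [] := by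
    rw [update_of_ne a1]; exact (good_inSt x).hS 0 le_rfl
  rw [hS0, List.append_nil] at e2
  set out := (List.range B).flatMap (G x) with hout
  have e3 := clear_exec (k := rV 0) (un B) (update (update (update (update (Prog.inSt x) (rA 0)
    (un B)) (rA 0) []) (rV 0) (un B)) (rS 0) out.reverse) (by
      rw [update_of_ne (Ne.symm a2), update_self])
  have e4 := clear_exec (k := 0) x (update (update (update (update (update (Prog.inSt x) (rA 0)
    (un B)) (rA 0) []) (rV 0) (un B)) (rS 0) out.reverse) (rV 0) []) (by
      rw [update_of_ne (by unfold rV; omega), update_of_ne (by unfold rS; omega),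
        update_of_ne (by unfold rV; omega), update_of_ne (by unfold rA; omega),
        update_of_ne (by unfold rA; omega)]
      exact (good_inSt x).hX)
  have e5 := moveD_exec (k := rS 0) (k' := 1) (by unfold rS; omega) out.reverse
    (update (update (update (update (update (update (Prog.inSt x) (rA 0)
    (un B)) (rA 0) []) (rV 0) (un B)) (rS 0) out.reverse) (rV 0) []) 0 []) (by
      rw [update_of_ne (by unfold rS; omega), update_of_ne a2, update_self])
  have hlen : out.length ≤ L.bP.eval N * g.eval (N + L.bP.eval N) := by
    have : out.length ≤ B * g.eval (N + L.bP.eval N) := by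
      rw [hout, List.length_flatMap]
      calc ((List.range B).map (fun i => (G x i).length)).sum
          ≤ ((List.range B).map (fun _ => g.eval (N + L.bP.eval N))).sum := by
            apply List.sum_le_sum
            intro i hi
            rw [List.mem_range] at hi
            exact hg x i _ (by omega) (by omega)
        _ = _ := by simp
    exact le_trans this (Nat.mul_le_mul_right _ hBle)
  have hT : B * (3 + T.eval (N + L.bP.eval N)) ≤
      L.bP.eval N * (3 + T.eval (N + L.bP.eval N)) := Nat.mul_le_mul_right _ hBle
  have := (e1.seq (e2.seq (e3.seq (e4.seq e5))))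
  change Exec _ _ (Prog.outSt out) _
  refine (this.of_eq ?_).mono ?_
  · unfold Prog.inSt Prog.outSt
    funext j
    by_cases hj1 : j = 1
    · subst hj1; simp [rS, rV, rA]
    · by_cases hjS : j = rS 0
      · subst hjS; simp only [update_self, update_of_ne hj1]
      · by_cases hj0 : j = 0
        · subst hj0; simp only [update_self, update_of_ne hj1, update_of_ne hjS]
        · by_cases hjV : j = rV 0
          · subst hjV
            simp only [update_self, update_of_ne hj1, update_of_ne hjS, update_of_ne hj0]
          · by_cases hjA : j = rA 0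
            · subst hjA
              simp only [update_self, update_of_ne hj1, update_of_ne hjS, update_of_ne hj0,
                update_of_ne hjV]
            · simp only [update_of_ne hj1, update_of_ne hjS, update_of_ne hj0,
                update_of_ne hjV, update_of_ne hjA]
  · simp only [Polynomial.eval_add, Polynomial.eval_mul, Polynomial.eval_X, Polynomial.eval_one,
      Polynomial.eval_ofNat, Polynomial.eval_comp, List.length_replicate, List.length_reverse]
    omega

/-- Functions whose value is a list of bits given by expressions are computable in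
polynomial time. -/
theorem bits_pc (L B : Expr) :
    PC (fun x => (List.range (L.eval x (fun _ => 0))).map
        (fun i => decide (B.eval x (update (fun _ => 0) 0 i) ≠ 0))) := by
  have := genOut_pc L (.seq (B.comp 1 (rB 0)) (.seq
      (.ite (rB 0) (.push (rS 0) true) (.push (rS 0) true) (.push (rS 0) false)) (clear (rB 0))))
    (fun x i => [decide (B.eval x (update (fun _ => 0) 0 i) ≠ 0)]) (B.tP + 2 * B.bP + 3) 1
    (fun x i s N hx hi hgood hBB => ?_) (fun x i N hx hi => by simp)
  · have e : ∀ x, (List.range (L.eval x (fun _ => 0))).flatMap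
        (fun i => [decide (B.eval x (update (fun _ => 0) 0 i) ≠ 0)]) =
        (List.range (L.eval x (fun _ => 0))).map
          (fun i => decide (B.eval x (update (fun _ => 0) 0 i) ≠ 0)) := fun x => by
      rw [List.map_eq_flatMap]
    simp only [e] at this
    exact this
  · have henv : ∀ j, (update (fun _ => 0) 0 i : ℕ → ℕ) j ≤ N := fun j => by
      by_cases hj : j = 0
      · subst hj; rwa [update_self]
      · rw [update_of_ne hj]; exact Nat.zero_le _
    have e1 := Expr.comp_exec x B _ 1 (rB 0) s N hgood (free_B 0) hx henv
    rw [hBB, List.append_nil] at e1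
    have hv := Expr.eval_le x B (update (fun _ => 0) 0 i) N hx henv
    set v := B.eval x (update (fun _ => 0) 0 i) with hvdef
    have e2 : Exec (.ite (rB 0) (.push (rS 0) true) (.push (rS 0) true) (.push (rS 0) false))
        (update s (rB 0) (un v)) (update (update s (rB 0) (un v)) (rS 0)
          (decide (v ≠ 0) :: s (rS 0))) 2 := by
      rcases v with _ | v
      · refine (Exec.ite_none (by rw [update_self]; rfl) (Exec.push (rS 0) false _)).of_eq ?_
        simp
      · refine (Exec.ite_true (by rw [update_self]; rfl) (Exec.push (rS 0) true _)).of_eq ?_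
        simp
    have e3 := clear_exec (k := rB 0) (un v) (update (update s (rB 0) (un v)) (rS 0)
          (decide (v ≠ 0) :: s (rS 0))) (by
          rw [update_of_ne (by unfold rB rS; omega), update_self])
    refine ((e1.seq (e2.seq e3)).of_eq ?_).mono (by
      simp only [Polynomial.eval_add, Polynomial.eval_mul, Polynomial.eval_ofNat,
        List.length_replicate]
      omega)
    funext j
    by_cases hjB : j = rB 0
    · subst hjB
      have : rB 0 ≠ rS 0 := by unfold rB rS; omega
      simp only [update_self, update_of_ne this, hBB]
    · by_cases hjS : j = rS 0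
      · subst hjS; simp [hjB]
      · simp [hjB, hjS]


/-- Functions given bit by bit by expressions are computed by programs. -/
theorem PFBits.pc {f : List Bool → List Bool} (hf : PFBits f) : PC f := by
  obtain ⟨L, B, ⟨l, hl⟩, ⟨b, hb⟩, hf⟩ := hf
  have h := bits_pc l b
  have e1 : ∀ x, l.eval x (fun _ => 0) = L x := fun x =>
    hl x () _ (fun i hi => absurd hi (Nat.not_lt_zero i))
  have e2 : ∀ x i, b.eval x (update (fun _ => 0) 0 i) = B x i := fun x i => by
    apply hb x ((), i)
    intro j hj
    have : j = 0 := by
      have : j < 0 + 1 := hj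
      omega
    subst this
    rw [update_self]
    show i = update (fun _ : ℕ => (0 : ℕ)) 0 i 0
    rw [update_self]
  simp only [e1, e2] at h
  exact h.congr fun x => (hf x).symm

/-- Iteration of a length preserving function given bit by bit; the number of iterations is given
by an expression. -/
theorem PFBits.iterate {f : List Bool → List Bool} (hf : PFBits f)
    (hlen : ∀ x, (f x).length ≤ x.length) {c : List Bool → ℕ}
    (hc : PF (fun x (_ : Unit) => c x)) : PC (fun x => f^[c x] x) := by
  refine PC.iterate hf.pc hlen ?_
  refine PFBits.pc ⟨c, fun _ _ => 1, hc, PF.const 1, fun x => ?_⟩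
  simp

end Pool.Agent.PolyTime
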