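import Mathlib
import Pool.Agent.Lib.PolyTime.PL

/-!
# Large numbers given by their bits
-/

namespace Pool.Agent.PolyTime

open Function

/-! ### Bits of sums -/

theorem tb_iff (n i : ℕ) : n.testBit i = true ↔ n / 2 ^ i % 2 = 1 := by
  rw [Nat.testBit_eq_decide_div_mod_eq, decide_eq_true_eq]

/-- the carry into position `i` -/
def carry (a b i : ℕ) : Prop := 2 ^ i ≤ a % 2 ^ i + b % 2 ^ i

theorem testBit_add_iff (a b i : ℕ) : (a + b).testBit i = true ↔
    ((a.testBit i = true ↔ b.testBit i = true) ↔ carry a b i) := by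
  rw [tb_iff, tb_iff, tb_iff, Nat.add_div (by positivity)]
  unfold carry
  generalize a / 2 ^ i = X
  generalize b / 2 ^ i = Y
  split_ifs with h
  · simp only [h, iff_true]
    omega
  · simp only [h, iff_false]
    omega

theorem carry_succ (a b i : ℕ) : carry a b (i + 1) ↔
    (a.testBit i = true ∧ b.testBit i = true) ∨
    ((a.testBit i = true ∨ b.testBit i = true) ∧ carry a b i) := by
  rw [tb_iff, tb_iff]
  unfold carry
  rw [Nat.mod_pow_succ, Nat.mod_pow_succ (x := b)]
  have h1 := Nat.mod_two_eq_zero_or_one (a / 2 ^ i)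
  have h2 := Nat.mod_two_eq_zero_or_one (b / 2 ^ i)
  have h3 : a % 2 ^ i < 2 ^ i := Nat.mod_lt _ (by positivity)
  have h4 : b % 2 ^ i < 2 ^ i := Nat.mod_lt _ (by positivity)
  rw [pow_succ]
  generalize 2 ^ i = X at *
  rcases h1 with h1 | h1 <;> rcases h2 with h2 | h2 <;> rw [h1, h2] <;> simp <;> omega

theorem carry_iff (a b i : ℕ) : carry a b i ↔ ∃ j < i, (a.testBit j = true ∧ b.testBit j = true) ∧
    ∀ l < i, j < l → (a.testBit l = true ∨ b.testBit l = true) := by
  induction i with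
  | zero =>
    unfold carry
    simp
    omega
  | succ i ih =>
    rw [carry_succ, ih]
    constructor
    · rintro (h | ⟨h, j, hj, h1, h2⟩)
      · exact ⟨i, by omega, h, fun l hl hl' => by omega⟩
      · refine ⟨j, by omega, h1, fun l hl hl' => ?_⟩
        rcases Nat.lt_succ_iff_lt_or_eq.mp hl with h3 | h3
        · exact h2 l h3 hl'
        · rw [h3]; exact h
    · rintro ⟨j, hj, h1, h2⟩
      rcases Nat.lt_succ_iff_lt_or_eq.mp hj with h3 | h3
      · exact Or.inr ⟨h2 i (by omega) h3, j, h3, h1, fun l hl hl' => h2 l (by omega) hl'⟩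
      · rw [← h3]; exact Or.inl h1

theorem bits_eq (n : ℕ) : n.bits = (List.range n.size).map (fun i => n.testBit i) := by
  apply List.ext_getElem
  · simp [Nat.size_eq_bits_len]
  · intro i h1 h2
    rw [List.getElem_map, List.getElem_range, Nat.testBit_eq_inth, List.getI_eq_getElem _ h1]

/-! ### Powers of two -/

/-- powers of two, in a form suitable for expressions -/
def isP2 (p : ℕ) : Prop := p ≠ 0 ∧ ∀ d < p + 1, (p % d = 0 ∧ d ≠ 0 ∧ d ≠ 1) → d % 2 = 0

theorem isP2_iff (p : ℕ) : isP2 p ↔ ∃ i, p = 2 ^ i := by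
  unfold isP2
  constructor
  · rintro ⟨h0, h⟩
    rcases Nat.eq_two_pow_or_exists_odd_prime_and_dvd p with ⟨k, hk⟩ | ⟨q, hq, hdvd, hodd⟩
    · exact ⟨k, hk⟩
    · exfalso
      have h1 := h q (by have := Nat.le_of_dvd (Nat.pos_of_ne_zero h0) hdvd; omega)
        ⟨Nat.mod_eq_zero_of_dvd hdvd, hq.ne_zero, hq.ne_one⟩
      rw [Nat.odd_iff] at hodd
      omega
  · rintro ⟨i, rfl⟩
    refine ⟨by positivity, fun d _ h => ?_⟩
    obtain ⟨j, hj, rfl⟩ := (Nat.dvd_prime_pow Nat.prime_two).mp (Nat.dvd_of_mod_eq_zero h.1)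
    rcases j with _ | j
    · simp at h
    · rw [pow_succ]; omega

instance : DecidablePred isP2 := fun p => by unfold isP2; infer_instance

theorem eq_pow_iff (p i : ℕ) : p = 2 ^ i ↔
    isP2 p ∧ ((Finset.range p).filter (fun d => isP2 d)).card = i := by
  have h : ∀ i, ((Finset.range (2 ^ i)).filter (fun d => isP2 d)).card = i := by
    intro i
    have : (Finset.range (2 ^ i)).filter (fun d => isP2 d) =
        (Finset.range i).image (fun j => 2 ^ j) := by
      ext d
      rw [Finset.mem_filter, Finset.mem_range, isP2_iff, Finset.mem_image]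
      constructor
      · rintro ⟨h1, j, rfl⟩
        exact ⟨j, Finset.mem_range.mpr ((Nat.pow_lt_pow_iff_right (by norm_num)).mp h1), rfl⟩
      · rintro ⟨j, h1, rfl⟩
        exact ⟨Nat.pow_lt_pow_right (by norm_num) (Finset.mem_range.mp h1), j, rfl⟩
    rw [this, Finset.card_image_of_injective _ (Nat.pow_right_injective le_rfl),
      Finset.card_range]
  constructor
  · rintro rfl
    exact ⟨(isP2_iff _).mpr ⟨i, rfl⟩, h i⟩
  · rintro ⟨h1, h2⟩
    obtain ⟨j, rfl⟩ := (isP2_iff _).mp h1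
    rw [h j] at h2
    rw [h2]

variable {α β : Type} [Ctx α] [Ctx β]

theorem PD.isP2 {F : List Bool → α → ℕ} (hF : PF F) : PD (fun x a => isP2 (F x a)) := by
  have h : PD (fun (_ : List Bool) (p : Unit × ℕ) => Pool.Agent.PolyTime.isP2 p.2) := by
    unfold Pool.Agent.PolyTime.isP2
    refine PF.snd.ne_zero.and (PD.forall_lt (PF.snd.add (PF.const 1))
      (P := fun _ (q : (Unit × ℕ) × ℕ) => (q.1.2 % q.2 = 0 ∧ q.2 ≠ 0 ∧ q.2 ≠ 1) → q.2 % 2 = 0) ?_)
    have hp : PF (fun (_ : List Bool) (q : (Unit × ℕ) × ℕ) => q.1.2) := PF.snd.fst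
    have hd : PF (fun (_ : List Bool) (q : (Unit × ℕ) × ℕ) => q.2) := PF.snd
    refine (((PD.eq (hp.mod hd) (PF.const 0)).and (hd.ne_zero.and
      (PD.eq hd (PF.const 1)).not)).not.or (PD.eq (hd.mod (PF.const 2)) (PF.const 0))).congr
      fun x q => ?_
    tauto
  exact PD.sub1 (α := Unit) (π := fun _ => ()) ⟨Nat.zero_le _, fun _ _ h => absurd h (Nat.not_lt_zero _)⟩ hF h

theorem PD.eq_pow {F G : List Bool → α → ℕ} (hF : PF F) (hG : PF G) :
    PD (fun x a => F x a = 2 ^ G x a) := by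
  have h1 := PF.count (P := fun (_ : List Bool) (p : α × ℕ) => Pool.Agent.PolyTime.isP2 p.2) hF
    (PD.isP2 PF.snd)
  exact ((PD.isP2 hF).and (PD.eq h1 hG)).congr fun x a => (eq_pow_iff _ _).symm

/-- Bits of small numbers. -/
theorem PD.testBit {F G : List Bool → α → ℕ} (hF : PF F) (hG : PF G) :
    PD (fun x a => (F x a).testBit (G x a) = Bool.true) := by
  have h : PD (fun x a => ∃ p < F x a + 1, p = 2 ^ G x a ∧ F x a / p % 2 = 1) :=
    PD.exists_lt (hF.add (PF.const 1)) (P := fun x (q : α × ℕ) => q.2 = 2 ^ G x q.1 ∧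
      F x q.1 / q.2 % 2 = 1)
      ((PD.eq_pow PF.snd hG.fst).and (PD.eq ((hF.fst.div PF.snd).mod (PF.const 2)) (PF.const 1)))
  refine h.congr fun x a => ?_
  rw [tb_iff]
  constructor
  · rintro ⟨p, _, rfl, h⟩; exact h
  · intro h
    refine ⟨2 ^ G x a, ?_, rfl, h⟩
    by_contra hlt
    rw [Nat.div_eq_of_lt (by omega)] at h
    omega

/-- Large numbers given by their bits. -/
def PB (w : List Bool → α → ℕ) : Prop :=
  ∃ (S : List Bool → α → ℕ) (P : List Bool → α × ℕ → Prop), PF S ∧ PD P ∧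
    (∀ x a, w x a < 2 ^ S x a) ∧ ∀ x a i, (w x a).testBit i = true ↔ P x (a, i)

theorem PB.congr {w v : List Bool → α → ℕ} (hw : PB w) (h : ∀ x a, w x a = v x a) : PB v := by
  have : w = v := by funext x a; exact h x a
  rwa [← this]

theorem PB.ofPF {F : List Bool → α → ℕ} (hF : PF F) : PB F :=
  ⟨F, fun x p => (F x p.1).testBit p.2 = true, hF, PD.testBit hF.fst PF.snd,
    fun _ _ => Nat.lt_two_pow_self, fun _ _ _ => Iff.rfl⟩

theorem PB.pow {F : List Bool → α → ℕ} (hF : PF F) : PB (fun x a => 2 ^ F x a) :=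
  ⟨fun x a => F x a + 1, fun x p => F x p.1 = p.2, hF.add (PF.const 1), PD.eq hF.fst PF.snd,
    fun x a => Nat.pow_lt_pow_right (by norm_num) (Nat.lt_succ_self _), fun x a i => by
      rw [Nat.testBit_two_pow]; simp⟩

theorem PB.shift {w F : List Bool → α → ℕ} (hw : PB w) (hF : PF F) :
    PB (fun x a => 2 ^ F x a * w x a) := by
  obtain ⟨S, P, hS, hP, h1, h2⟩ := hw
  refine ⟨fun x a => F x a + S x a, fun x p => F x p.1 ≤ p.2 ∧ P x (p.1, p.2 - F x p.1),
    hF.add hS, (PD.le hF.fst PF.snd).and (PD.sub1 Proj.id.fst (PF.snd.sub hF.fst) hP),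
    fun x a => ?_, fun x a i => ?_⟩
  · rw [pow_add]
    exact Nat.mul_lt_mul_of_pos_left (h1 x a) (by positivity)
  · rw [Nat.testBit_two_pow_mul]
    simp only [Bool.and_eq_true, decide_eq_true_eq, h2, ge_iff_le]

theorem PB.add {w v : List Bool → α → ℕ} (hw : PB w) (hv : PB v) :
    PB (fun x a => w x a + v x a) := by
  obtain ⟨S, P, hS, hP, h1, h2⟩ := hw
  obtain ⟨T, Q, hT, hQ, h3, h4⟩ := hv
  refine ⟨fun x a => S x a + T x a + 1, fun x p => ((P x p ↔ Q x p) ↔
    ∃ j < p.2, (P x (p.1, j) ∧ Q x (p.1, j)) ∧ ∀ l < p.2, j < l → (P x (p.1, l) ∨ Q x (p.1, l))),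
    (hS.add hT).add (PF.const 1), ?_, fun x a => ?_, fun x a i => ?_⟩
  · have hiff : ∀ {A B : List Bool → α × ℕ → Prop}, PD A → PD B →
        PD (fun x p => (A x p ↔ B x p)) := fun hA hB =>
      ((hA.and hB).or (hA.not.and hB.not)).congr fun x p => by tauto
    refine hiff (hiff hP hQ) (PD.exists_lt PF.snd (P := fun x (q : (α × ℕ) × ℕ) =>
      (P x (q.1.1, q.2) ∧ Q x (q.1.1, q.2)) ∧ ∀ l < q.1.2, q.2 < l →
        (P x (q.1.1, l) ∨ Q x (q.1.1, l))) ?_)
    have hπ : Proj (fun q : (α × ℕ) × ℕ => q.1.1) := Proj.id.fst.fst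
    refine ((PD.sub1 hπ PF.snd hP).and (PD.sub1 hπ PF.snd hQ)).and (PD.forall_lt PF.snd.fst
      (P := fun x (q : ((α × ℕ) × ℕ) × ℕ) => q.1.2 < q.2 →
        (P x (q.1.1.1, q.2) ∨ Q x (q.1.1.1, q.2))) ?_)
    have hπ' : Proj (fun q : ((α × ℕ) × ℕ) × ℕ => q.1.1.1) := Proj.id.fst.fst.fst
    exact ((PD.lt PF.snd.fst PF.snd).not.or ((PD.sub1 hπ' PF.snd hP).or
      (PD.sub1 hπ' PF.snd hQ))).congr fun x q => by tauto
  · have h5 : w x a < 2 ^ (S x a + T x a) := lt_of_lt_of_le (h1 x a)
      (Nat.pow_le_pow_right (by norm_num) (by omega))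
    have h6 : v x a < 2 ^ (S x a + T x a) := lt_of_lt_of_le (h3 x a)
      (Nat.pow_le_pow_right (by norm_num) (by omega))
    rw [pow_succ]
    show w x a + v x a < _
    omega
  · rw [testBit_add_iff, carry_iff]
    simp only [h2, h4]

theorem PB.ite {P : List Bool → α → Prop} [∀ x a, Decidable (P x a)]
    {w v : List Bool → α → ℕ} (hP : PD P) (hw : PB w) (hv : PB v) :
    PB (fun x a => if P x a then w x a else v x a) := by
  obtain ⟨S, A, hS, hA, h1, h2⟩ := hw
  obtain ⟨T, B, hT, hB, h3, h4⟩ := hv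
  refine ⟨fun x a => if P x a then S x a else T x a,
    fun x p => (P x p.1 ∧ A x p) ∨ (¬ P x p.1 ∧ B x p), PF.ite hP hS hT,
    (hP.fst.and hA).or (hP.fst.not.and hB), fun x a => ?_, fun x a i => ?_⟩
  · by_cases h : P x a
    · simp only [h, if_true]; exact h1 x a
    · simp only [h, if_false]; exact h3 x a
  · by_cases h : P x a
    · simp only [h, if_true, true_and, not_true, false_and, or_false]; exact h2 x a i
    · simp only [h, if_false, false_and, not_false_eq_true, true_and, false_or]; exact h4 x a i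

theorem PB.proj {π : β → α} (h : Proj π) {w : List Bool → α → ℕ} (hw : PB w) :
    PB (fun x b => w x (π b)) := by
  obtain ⟨S, P, hS, hP, h1, h2⟩ := hw
  exact ⟨fun x b => S x (π b), fun x p => P x (π p.1, p.2), hS.proj h,
    PD.sub1 h.fst PF.snd hP, fun x b => h1 x _, fun x b i => h2 x _ i⟩

/-- Truncated subtraction. -/
theorem PB.sub {w v : List Bool → α → ℕ} (hw : PB w) (hv : PB v) :
    PB (fun x a => w x a - v x a) := by
  obtain ⟨S, P, hS, hP, h1, h2⟩ := hw
  obtain ⟨T, Q, hT, hQ, h3, h4⟩ := hv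
  -- complement of `w`
  have hc : PB (fun x a => 2 ^ (S x a + T x a) - (w x a + 1)) := by
    refine ⟨fun x a => S x a + T x a, fun x p => p.2 < S x p.1 + T x p.1 ∧ ¬ P x p,
      hS.add hT, (PD.lt PF.snd (hS.add hT).fst).and hP.not, fun x a => ?_, fun x a i => ?_⟩
    · have : 0 < 2 ^ (S x a + T x a) := by positivity
      show 2 ^ (S x a + T x a) - (w x a + 1) < 2 ^ (S x a + T x a)
      omega
    · have h5 : w x a < 2 ^ (S x a + T x a) := lt_of_lt_of_le (h1 x a)
        (Nat.pow_le_pow_right (by norm_num) (by omega))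
      rw [Nat.testBit_two_pow_sub_succ h5]
      simp only [Bool.and_eq_true, decide_eq_true_eq, Bool.not_eq_true', ← h2,
        Bool.not_eq_true]
  obtain ⟨U, A, hU, hA, h5, h6⟩ := hc.add ⟨T, Q, hT, hQ, h3, h4⟩
  refine ⟨fun x a => S x a, fun x p => ¬ A x (p.1, S x p.1 + T x p.1) ∧
    p.2 < S x p.1 + T x p.1 ∧ ¬ A x p, hS,
    (PD.sub1 Proj.id.fst (hS.add hT).fst hA).not.and
      ((PD.lt PF.snd (hS.add hT).fst).and hA.not), fun x a => ?_, fun x a i => ?_⟩
  · exact lt_of_le_of_lt (Nat.sub_le _ _) (h1 x a)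
  · simp only [← h6]
    have h7 : w x a < 2 ^ (S x a + T x a) := lt_of_lt_of_le (h1 x a)
        (Nat.pow_le_pow_right (by norm_num) (by omega))
    have h8 : v x a < 2 ^ (S x a + T x a) := lt_of_lt_of_le (h3 x a)
        (Nat.pow_le_pow_right (by norm_num) (by omega))
    generalize S x a + T x a = N at *
    generalize w x a = p at *
    generalize v x a = q at *
    by_cases hle : q ≤ p
    · have e1 : 2 ^ N - (p + 1) + q < 2 ^ N := by omega
      have e2 : p - q = 2 ^ N - ((2 ^ N - (p + 1) + q) + 1) := by omega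
      rw [e2, Nat.testBit_two_pow_sub_succ e1]
      rw [Nat.testBit_eq_false_of_lt e1]
      simp
    · have e1 : 2 ^ N ≤ 2 ^ N - (p + 1) + q := by omega
      have e2 : 2 ^ N - (p + 1) + q < 2 ^ (N + 1) := by rw [pow_succ]; omega
      have e3 : (2 ^ N - (p + 1) + q).testBit N = true := by
        rw [tb_iff]
        have : (2 ^ N - (p + 1) + q) / 2 ^ N = 1 := by
          apply Nat.div_eq_of_lt_le
          · omega
          · rw [show (1 + 1) * 2 ^ N = 2 ^ (N + 1) by rw [pow_succ]; ring]; exact e2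
        rw [this]
      rw [e3, show p - q = 0 by omega]
      simp

theorem PB.testBit {w : List Bool → α → ℕ} (hw : PB w) :
    PD (fun x (p : α × ℕ) => (w x p.1).testBit p.2 = true) := by
  obtain ⟨S, P, hS, hP, h1, h2⟩ := hw
  exact hP.congr fun x p => (h2 x p.1 p.2).symm

/-- The binary expansion. -/
theorem PB.natBits {w : List Bool → α → ℕ} (hw : PB w) : PL (fun x a => (w x a).bits) := by
  classical
  obtain ⟨S, P, hS, hP, h1, h2⟩ := hw
  have hsz : PF (fun x a => (w x a).size) := by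
    have h3 : PF (fun x a => ((Finset.range (S x a)).filter (fun i =>
        ∃ j < S x a, i ≤ j ∧ P x (a, j))).card) := by
      refine PF.count (P := fun x (p : α × ℕ) => ∃ j < S x p.1, p.2 ≤ j ∧ P x (p.1, j)) hS ?_
      exact PD.exists_lt hS.fst (P := fun x (q : (α × ℕ) × ℕ) => q.1.2 ≤ q.2 ∧ P x (q.1.1, q.2))
        ((PD.le PF.snd.fst PF.snd).and (PD.sub1 Proj.id.fst.fst PF.snd hP))
    refine h3.congr fun x a => ?_
    have h4 : (Finset.range (S x a)).filter (fun i => ∃ j < S x a, i ≤ j ∧ P x (a, j)) =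
        Finset.range (w x a).size := by
      ext i
      rw [Finset.mem_filter, Finset.mem_range, Finset.mem_range, Nat.lt_size]
      constructor
      · rintro ⟨_, j, hj, hij, hPj⟩
        rw [← h2] at hPj
        exact le_trans (Nat.pow_le_pow_right (by norm_num) hij) (Nat.ge_two_pow_of_testBit hPj)
      · intro hi
        obtain ⟨j, hj, hb⟩ := Nat.exists_ge_and_testBit_of_ge_two_pow hi
        have hjS : j < S x a := by
          by_contra hlt
          have := Nat.ge_two_pow_of_testBit hb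
          have h5 := h1 x a
          have h6 : 2 ^ S x a ≤ 2 ^ j := Nat.pow_le_pow_right (by norm_num) (by omega)
          omega
        exact ⟨by omega, j, hjS, hj, (h2 x a j).mp hb⟩
    rw [h4, Finset.card_range]
  refine ⟨_, P, hsz, hP, fun x a => ?_⟩
  show (w x a).bits = _
  rw [bits_eq]
  apply List.map_congr_left
  intro i _
  have := h2 x a i
  by_cases h : P x (a, i)
  · rw [this.mpr h]; simp [h]
  · have h' : (w x a).testBit i = false := by
      by_contra h''
      exact h (this.mp (by simpa using h''))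
    rw [h']; simp [h]

end Pool.Agent.PolyTime
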